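import Pool.Agent.Helper7.Comm.GermDefs

set_option autoImplicit false

/-! # Germs: basic lemmas -/

namespace Pool.Agent.Helper7.Comm

open NC Pool.Agent.Helper57.Reduce

section
variable {X : Type}

theorem gm_apply (f : ℕ → NC X ℚ) (w : List X) : gm f w = ger (fun n => f n w) := rfl

theorem gm_add (f g : ℕ → NC X ℚ) : gm (fun n => f n + g n) = gm f + gm g := by
  ext w; rfl

theorem gm_sub (f g : ℕ → NC X ℚ) : gm (fun n => f n - g n) = gm f - gm g := by
  ext w; rfl

theorem gm_D (a : X) (f : ℕ → NC X ℚ) : gm (fun n => D a (f n)) = D a (gm f) := by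
  ext w; rfl

theorem ger_sum {ι : Type*} (s : Finset ι) (f : ι → ℕ → ℚ) :
    ger (fun n => ∑ i ∈ s, f i n) = ∑ i ∈ s, ger (f i) := by
  classical
  induction s using Finset.induction_on with
  | empty => simp [ger_zero]
  | insert a s ha ih =>
    rw [Finset.sum_insert ha, ← ih, ← ger_add]
    congr 1
    funext n
    rw [Finset.sum_insert ha]

theorem gm_mul (f g : ℕ → NC X ℚ) : gm (fun n => f n * g n) = gm f * gm g := by
  ext w
  rw [gm_apply, NC.mul_apply]
  simp only [gm_apply, ← ger_mul]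
  rw [← ger_sum]
  congr 1
  funext n
  rw [NC.mul_apply]

theorem gm_one : gm (fun _ => (1 : NC X ℚ)) = 1 := by
  ext w
  cases w with
  | nil => simp [gm_apply, ger_one]
  | cons a w => simp [gm_apply, ger_zero]

theorem gm_smul (a : ℕ → ℚ) (f : ℕ → NC X ℚ) : gm (fun n => a n • f n) = ger a • gm f := by
  ext w; rfl

theorem gm_sum {ι : Type} (s : Finset ι) (f : ι → ℕ → NC X ℚ) :
    gm (fun n => ∑ i ∈ s, f i n) = ∑ i ∈ s, gm (f i) := by
  ext w
  rw [NC.sum_apply, gm_apply]
  simp only [NC.sum_apply, gm_apply]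
  exact ger_sum s _

theorem gm_comp (k : ℕ) (f : ℕ → NC X ℚ) : gm (fun n => comp k (f n)) = comp k (gm f) := by
  ext w
  rw [gm_apply, comp_apply]
  split_ifs with h
  · simp only [comp_apply, if_pos h]; rfl
  · simp only [comp_apply, if_neg h]; exact ger_zero

theorem sh_gm (a b : List X) (f : ℕ → NC X ℚ) : sh a b (gm f) = ger (fun n => sh a b (f n)) := by
  induction hn : a.length + b.length generalizing a b f with
  | zero =>
    obtain rfl : a = [] := by
      cases a
      · rfl
      · simp at hn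
    simp only [sh_nil_left]; rfl
  | succ m ih =>
    cases a with
    | nil => simp only [sh_nil_left]; rfl
    | cons x a =>
      cases b with
      | nil => simp only [sh_nil_right]; rfl
      | cons y b =>
        simp only [sh_cons_cons]
        rw [← gm_D, ← gm_D, ih a (y :: b) _ (by simp at hn ⊢; omega),
          ih (x :: a) b _ (by simp at hn ⊢; omega), ← ger_add]

theorem gl_iff {R : Type*} [CommRing R] (f : NC X R) :
    Δ f = T1 f * T2 f ↔ ∀ a b : List X, sh a b f = f a * f b := by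
  constructor
  · intro h a b
    have := congrArg (fun F : NC X (NC X R) => F a b) h
    simpa [Δ_apply, T1_mul_T2_apply] using this
  · intro h
    ext a b
    rw [Δ_apply, T1_mul_T2_apply, h]

theorem gm_gl (f : ℕ → NC X ℚ) (hf : ∀ n, Δ (f n) = T1 (f n) * T2 (f n)) :
    Δ (gm f) = T1 (gm f) * T2 (gm f) := by
  rw [gl_iff]
  intro a b
  rw [sh_gm]
  have : (fun n => sh a b (f n)) = fun n => f n a * f n b := by
    funext n
    exact (gl_iff _).mp (hf n) a b
  rw [this, ger_mul]; rfl

theorem finite_short [Finite X] (N : ℕ) : {w : List X | w.length < N}.Finite :=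
  List.finite_length_lt X N

theorem gm_ord [Fintype X] (N : ℕ) (f : ℕ → NC X ℚ) :
    Ord N (gm f) ↔ ∀ᶠ n in (Filter.hyperfilter ℕ : Filter ℕ), Ord N (f n) := by
  have h1 : (∀ᶠ n in (Filter.hyperfilter ℕ : Filter ℕ), Ord N (f n)) ↔
      ∀ w ∈ {w : List X | w.length < N}, ∀ᶠ n in (Filter.hyperfilter ℕ : Filter ℕ), f n w = 0 := by
    rw [← Filter.eventually_all_finite (finite_short N)]
    rfl
  rw [h1]
  unfold Pool.Agent.Helper57.Reduce.Ord
  refine forall_congr' fun w => forall_congr' fun hw => ?_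
  rw [gm_apply, ← ger_zero, ger_eq]

theorem gm_substAux {κ : Type} [Fintype κ] (h : ℕ → κ → NC X ℚ) (m : ℕ) : ∀ f : ℕ → NC κ ℚ,
    gm (fun n => substAux (h n) m (f n)) = substAux (fun k => gm (fun n => h n k)) m (gm f) := by
  have hC : ∀ f : ℕ → NC κ ℚ, gm (fun n => (C (f n []) : NC X ℚ)) = C (gm f []) := by
    intro f
    ext w
    cases w with
    | nil => rfl
    | cons a w => exact ger_zero
  induction m with
  | zero =>
    intro f
    exact hC f
  | succ m ih =>
    intro f
    simp only [substAux]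
    rw [gm_add, hC, gm_sum]
    congr 1
    refine Finset.sum_congr rfl fun k _ => ?_
    rw [gm_mul, ih, gm_D]

theorem gm_subst {κ : Type} [Fintype κ] (h : ℕ → κ → NC X ℚ) (f : ℕ → NC κ ℚ) :
    gm (fun n => subst (h n) (f n)) = subst (fun k => gm (fun n => h n k)) (gm f) := by
  ext w
  have := congrArg (fun F : NC X UF => F w) (gm_substAux h w.length f)
  exact this

theorem nat_mem_OO {B : ℕ → ℕ} (N : ℕ) : (N : UF) ∈ OO B := natCast_mem _ N

theorem nat_mem_II (N : ℕ) : (N : UF) ∈ II := natCast_mem _ N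

theorem KK_of_int {B : ℕ → ℕ} {N : ℕ} (hN : 0 < N) {a : UF} (ha : a ∈ OO B)
    (h : (N : UF) * a ∈ II) : a ∈ KK B :=
  ⟨N * a, N, h, mul_mem (nat_mem_OO N) ha, nat_mem_II N, nat_mem_OO N,
    Nat.cast_ne_zero.mpr (by omega), mul_comm _ _⟩

theorem const_mem_KK {B : ℕ → ℕ} (q : ℚ) : ger (fun _ => q) ∈ KK B := by
  have h1 : ger (fun _ => q) = (q : UF) := by
    have e : ∀ q : ℚ, ger (fun _ => q) * (q.den : UF) = (q.num : UF) := by
      intro q
      have h2 : (q.den : UF) = ger (fun _ => (q.den : ℚ)) := by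
        induction q.den with
        | zero => simp [ger_zero]
        | succ n ih => push_cast; rw [ih, ger_add, ger_one]
      have h3 : ∀ z : ℤ, (z : UF) = ger (fun _ => (z : ℚ)) := by
        intro z
        induction z using Int.induction_on with
        | zero => simp [ger_zero]
        | succ n ih => push_cast at ih ⊢; rw [ih, ger_add, ger_one]
        | pred n ih => push_cast at ih ⊢; rw [ih, ger_sub, ger_one]
      rw [h2, h3, ← ger_mul]
      simp
    have h4 := e q
    rw [Rat.cast_def]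
    rw [eq_div_iff (Nat.cast_ne_zero.mpr q.den_ne_zero)]
    exact h4
  rw [h1]
  exact SubfieldClass.ratCast_mem (KK B) q

theorem exists_floorII (a : UF) : ∃ z ∈ II, |a - z| ≤ 1 := by
  obtain ⟨f, rfl⟩ := exists_ger a
  refine ⟨ger (fun n => (⌊f n⌋ : ℚ)), ⟨fun n => ⌊f n⌋, rfl⟩, ?_⟩
  rw [← ger_sub, ← ger_abs, ← ger_one, ger_le]
  refine Filter.Eventually.of_forall fun n => ?_
  have h1 := Int.floor_le (f n)
  have h2 := Int.lt_floor_add_one (f n)
  rw [abs_le]
  constructor <;> linarith

theorem exists_denom {B : ℕ → ℕ} {ι : Type} [Finite ι] (a : ι → UF) (ha : ∀ i, a i ∈ KK B) :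
    ∃ D : UF, D ∈ II ∧ D ∈ OO B ∧ D ≠ 0 ∧ ∀ i, D * a i ∈ II ∧ D * a i ∈ OO B := by
  classical
  have := Fintype.ofFinite ι
  choose z w hz hz' hw hw' hw0 h using ha
  refine ⟨∏ i, w i, prod_mem fun i _ => hw i, prod_mem fun i _ => hw' i,
    Finset.prod_ne_zero_iff.mpr fun i _ => hw0 i, fun i => ?_⟩
  have e : (∏ j, w j) * a i = (∏ j ∈ Finset.univ.erase i, w j) * z i := by
    rw [← Finset.prod_erase_mul _ _ (Finset.mem_univ i), mul_assoc, mul_comm (w i), h i]
  rw [e]
  exact ⟨mul_mem (prod_mem fun j _ => hw j) (hz i), mul_mem (prod_mem fun j _ => hw' j) (hz' i)⟩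

theorem EX_KK {r : ℕ} {E : FreeGroup (Fin r) →* (NC (Fin r) ℚ)ˣ} (hE : IsExpMag E) {B : ℕ → ℕ}
    (x : ℕ → FreeGroup (Fin r)) (w : List (Fin r)) (h : EX E x w ∈ OO B) : EX E x w ∈ KK B := by
  refine KK_of_int (Nat.factorial_pos w.length) h ?_
  choose z hz using fun n => hE.hint (x n) w
  refine ⟨z, ?_⟩
  have : ((w.length.factorial : ℕ) : UF) = ger (fun _ => ((w.length.factorial : ℕ) : ℚ)) := by
    generalize w.length.factorial = m
    induction m with
    | zero => simp [ger_zero]
    | succ n ih => push_cast; rw [ih, ger_add, ger_one]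
  rw [this]
  change _ * ger _ = _
  rw [← ger_mul]
  congr 1
  funext n
  exact hz n

end

end Pool.Agent.Helper7.Comm
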