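import Pool.Agent.Helper7.Comm.PropEA
import Pool.Agent.Helper7.Comm.GermBasics

set_option autoImplicit false

/-! # The level equation -/

namespace Pool.Agent.Helper7.Comm

open NC Pool.Agent.Helper57.Reduce Pool.Agent.Helper57.ConjTools

section dyn

theorem finset_words {κ : Type} [Fintype κ] [DecidableEq κ] (N : ℕ) :
    ∃ S : Finset (List κ), ∀ w, w ∈ S ↔ w.length ≤ N := by
  have h : {w : List κ | w.length < N + 1}.Finite := List.finite_length_lt κ (N + 1)
  exact ⟨h.toFinset, fun w => by simp [Nat.lt_succ_iff]⟩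

theorem dyn_finset {κ : Type} [Fintype κ] [DecidableEq κ] (N : ℕ) :
    ∃ S : Finset (List κ), (∀ w, w ∈ S ↔ w.length ≤ N) ∧
    ∀ {K : Type} [Field K] (d : κ → ℕ) (_ : ∀ k, 0 < d k) (n : ℕ) (_ : n ≤ N) (F : NC κ K)
      (_ : ∀ W, wt d W ≠ n → F W = 0),
      dyn d n F = ∑ w ∈ S, (F w * (lastWt d w : K)) • (rb w : NC κ K) := by
  classical
  obtain ⟨S, hS⟩ := finset_words (κ := κ) N
  refine ⟨S, hS, ?_⟩
  intro K _ d hd n hn F hF
  have hwt : ∀ W : List κ, W.length ≤ wt d W := by
    intro W
    induction W with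
    | nil => simp
    | cons a W ih =>
      rw [wt_cons, List.length_cons]
      have := hd a
      omega
  have h1 : ∑ w ∈ S, (F w * (lastWt d w : K)) • (rb w : NC κ K) =
      ∑ w ∈ S.filter (fun w => w.length ≤ n), (F w * (lastWt d w : K)) • (rb w : NC κ K) := by
    rw [Finset.sum_filter]
    refine Finset.sum_congr rfl fun w _ => ?_
    split_ifs with h
    · rfl
    · rw [hF w (by have := hwt w; omega), zero_mul, zero_smul]
  rw [h1]
  unfold dyn
  have h2 : S.filter (fun w => w.length ≤ n) = (Finset.range (n + 1)).biUnion (fun m =>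
      (Finset.univ : Finset (Fin m → κ)).image List.ofFn) := by
    ext w
    simp only [Finset.mem_filter, hS, Finset.mem_biUnion, Finset.mem_range, Finset.mem_image,
      Finset.mem_univ, true_and]
    constructor
    · rintro ⟨_, h⟩
      exact ⟨w.length, by omega, w.get, List.ofFn_get w⟩
    · rintro ⟨m, hm, v, rfl⟩
      simp
      omega
  rw [h2, Finset.sum_biUnion]
  · refine Finset.sum_congr rfl fun m _ => ?_
    rw [Finset.sum_image]
    intro v _ v' _ h
    exact List.ofFn_injective h
  · intro m _ m' _ hmm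
    rw [Function.onFun, Finset.disjoint_left]
    intro w hw hw'
    simp only [Finset.mem_image, Finset.mem_univ, true_and] at hw hw'
    obtain ⟨v, rfl⟩ := hw
    obtain ⟨v', hv'⟩ := hw'
    apply hmm
    have := congrArg List.length hv'
    simpa using this.symm

end dyn

section cm

variable {X : Type} {K F : Type} [Field K] [Field F] [Algebra K F]

theorem cmap_add {R S : Type*} [Ring R] [Ring S] (φ : R →+ S) (f g : NC X R) :
    cmap φ (f + g) = cmap φ f + cmap φ g := by
  ext w; simp

theorem cmap_sub {R S : Type*} [Ring R] [Ring S] (φ : R →+ S) (f g : NC X R) :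
    cmap φ (f - g) = cmap φ f - cmap φ g := by
  ext w; simp

/-- Coefficientwise extension of scalars. -/
def al (f : NC X K) : NC X F := cmap (algebraMap K F) f

theorem al_apply (f : NC X K) (w : List X) : (al f : NC X F) w = algebraMap K F (f w) := rfl

/-- `al` as a ring homomorphism. -/
def alHom : NC X K →+* NC X F where
  toFun := al
  map_one' := by
    ext w
    cases w with
    | nil => simp [al_apply]
    | cons a w => simp [al_apply]
  map_mul' f g := by
    ext w
    rw [al_apply, NC.mul_apply, NC.mul_apply, map_sum]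
    simp only [map_mul, al_apply]
  map_zero' := by ext w; simp [al_apply]
  map_add' f g := by ext w; simp [al_apply]

theorem al_mul (f g : NC X K) : (al (f * g) : NC X F) = al f * al g := (alHom (F := F)).map_mul f g
theorem al_sub (f g : NC X K) : (al (f - g) : NC X F) = al f - al g := (alHom (F := F)).map_sub f g
theorem al_add (f g : NC X K) : (al (f + g) : NC X F) = al f + al g := (alHom (F := F)).map_add f g
theorem al_one : (al (1 : NC X K) : NC X F) = 1 := (alHom (F := F)).map_one
theorem al_zero : (al (0 : NC X K) : NC X F) = 0 := (alHom (F := F)).map_zero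
theorem al_lie (f g : NC X K) : (al ⁅f, g⁆ : NC X F) = ⁅(al f : NC X F), (al g : NC X F)⁆ := by
  rw [Ring.lie_def, Ring.lie_def, al_sub, al_mul, al_mul]
theorem al_comp (n : ℕ) (f : NC X K) : (al (comp n f) : NC X F) = comp n (al f) := by
  ext w
  rw [al_apply, comp_apply, comp_apply]
  split_ifs
  · rfl
  · simp
theorem al_inj {f g : NC X K} (h : (al f : NC X F) = al g) : f = g := by
  ext w
  have := congrArg (fun u : NC X F => u w) h
  exact (algebraMap K F).injective this
theorem al_isHom {n : ℕ} {f : NC X K} : IsHom n (al f : NC X F) ↔ IsHom n f := by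
  constructor
  · intro h w hw
    have := h w hw
    rw [al_apply] at this
    exact (algebraMap K F).injective (by rw [this, map_zero])
  · intro h w hw
    rw [al_apply, h w hw, map_zero]
theorem al_ord {n : ℕ} {f : NC X K} : Ord n (al f : NC X F) ↔ Ord n f := by
  constructor
  · intro h w hw
    have := h w hw
    rw [al_apply] at this
    exact (algebraMap K F).injective (by rw [this, map_zero])
  · intro h w hw
    rw [al_apply, h w hw, map_zero]
theorem al_D (a : X) (f : NC X K) : D a (al f : NC X F) = al (D a f) := rfl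
theorem al_sh (a b : List X) (f : NC X K) : sh a b (al f : NC X F) = algebraMap K F (sh a b f) := by
  induction hn : a.length + b.length generalizing a b f with
  | zero =>
    obtain rfl : a = [] := by
      cases a
      · rfl
      · simp at hn
    simp only [sh_nil_left]; rfl
  | succ m ih =>
    cases a with
    | nil => simp only [sh_nil_left]; rfl
    | cons x a =>
      cases b with
      | nil => simp only [sh_nil_right]; rfl
      | cons y b =>
        simp only [sh_cons_cons]
        rw [al_D, al_D, ih a (y :: b) _ (by simp at hn ⊢; omega),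
          ih (x :: a) b _ (by simp at hn ⊢; omega), map_add]

theorem al_gl {f : NC X K} : Δ (al f : NC X F) = T1 (al f) * T2 (al f) ↔ Δ f = T1 f * T2 f := by
  rw [gl_iff, gl_iff]
  refine forall_congr' fun a => forall_congr' fun b => ?_
  rw [al_sh, al_apply, al_apply, ← map_mul]
  exact (algebraMap K F).injective.eq_iff

theorem al_isLie {f : NC X K} : IsLie (al f : NC X F) ↔ IsLie f := by
  rw [isLie_iff, isLie_iff]
  simp only [al_sh, al_apply]
  constructor
  · rintro ⟨h1, h2⟩
    exact ⟨(algebraMap K F).injective (by rw [h1, map_zero]), fun a b ha hb =>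
      (algebraMap K F).injective (by rw [h2 a b ha hb, map_zero])⟩
  · rintro ⟨h1, h2⟩
    exact ⟨by rw [h1, map_zero], fun a b ha hb => by rw [h2 a b ha hb, map_zero]⟩

/-- Apply a linear functional to the coefficients. -/
def rh (ρ : F →ₗ[K] K) (f : NC X F) : NC X K := cmap ρ f

theorem rh_apply (ρ : F →ₗ[K] K) (f : NC X F) (w : List X) : rh ρ f w = ρ (f w) := rfl
theorem rh_add (ρ : F →ₗ[K] K) (f g : NC X F) : rh ρ (f + g) = rh ρ f + rh ρ g := by
  ext w; simp [rh_apply]
theorem rh_sub (ρ : F →ₗ[K] K) (f g : NC X F) : rh ρ (f - g) = rh ρ f - rh ρ g := by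
  ext w; simp [rh_apply]
theorem rh_zero (ρ : F →ₗ[K] K) : rh ρ (0 : NC X F) = 0 := by ext w; simp [rh_apply]
theorem rh_al_mul (ρ : F →ₗ[K] K) (a : NC X K) (f : NC X F) : rh ρ (al a * f) = a * rh ρ f := by
  ext w
  rw [rh_apply, NC.mul_apply, NC.mul_apply, map_sum]
  refine Finset.sum_congr rfl fun k _ => ?_
  rw [al_apply, ← Algebra.smul_def, map_smul, smul_eq_mul]; rfl
theorem rh_mul_al (ρ : F →ₗ[K] K) (a : NC X K) (f : NC X F) : rh ρ (f * al a) = rh ρ f * a := by
  ext w
  rw [rh_apply, NC.mul_apply, NC.mul_apply, map_sum]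
  refine Finset.sum_congr rfl fun k _ => ?_
  rw [al_apply, mul_comm, ← Algebra.smul_def, map_smul, smul_eq_mul, mul_comm]; rfl
theorem rh_al (ρ : F →ₗ[K] K) (hρ : ρ 1 = 0) (a : NC X K) : rh ρ (al a) = 0 := by
  ext w
  rw [rh_apply, al_apply, Algebra.algebraMap_eq_smul_one, map_smul, hρ, smul_zero]; rfl
theorem rh_comp (ρ : F →ₗ[K] K) (n : ℕ) (f : NC X F) : rh ρ (comp n f) = comp n (rh ρ f) := by
  ext w
  rw [rh_apply, comp_apply, comp_apply]
  split_ifs
  · rfl
  · simp
theorem rh_D (ρ : F →ₗ[K] K) (a : X) (f : NC X F) : D a (rh ρ f) = rh ρ (D a f) := rfl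
theorem rh_sh (ρ : F →ₗ[K] K) (a b : List X) (f : NC X F) : sh a b (rh ρ f) = ρ (sh a b f) := by
  induction hn : a.length + b.length generalizing a b f with
  | zero =>
    obtain rfl : a = [] := by
      cases a
      · rfl
      · simp at hn
    simp only [sh_nil_left]; rfl
  | succ m ih =>
    cases a with
    | nil => simp only [sh_nil_left]; rfl
    | cons x a =>
      cases b with
      | nil => simp only [sh_nil_right]; rfl
      | cons y b =>
        simp only [sh_cons_cons]
        rw [rh_D, rh_D, ih a (y :: b) _ (by simp at hn ⊢; omega),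
          ih (x :: a) b _ (by simp at hn ⊢; omega), map_add]

/-- Split a series whose low coefficients are in `K`. -/
theorem split_low (N : ℕ) (f : NC X F) (h : ∀ w : List X, w.length < N → f w ∈ Set.range (algebraMap K F)) :
    ∃ (a : NC X K) (b : NC X F), f = al a + b ∧ Ord N b ∧ (∀ w : List X, N ≤ w.length → a w = 0) := by
  classical
  have h' : ∀ w : List X, ∃ c : K, w.length < N → algebraMap K F c = f w := by
    intro w
    by_cases hw : w.length < N
    · obtain ⟨c, hc⟩ := h w hw
      exact ⟨c, fun _ => hc⟩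
    · exact ⟨0, fun h => absurd h hw⟩
  choose c hc using h'
  refine ⟨⟨fun w => if w.length < N then c w else 0⟩, ⟨fun w => if w.length < N then 0 else f w⟩,
    ?_, ?_, ?_⟩
  · ext w
    rw [NC.add_apply, al_apply]
    simp only [mk_apply]
    split_ifs with hw
    · rw [hc w hw, add_zero]
    · rw [map_zero, zero_add]
  · intro w hw
    simp only [mk_apply]
    rw [if_pos hw]
  · intro w hw
    simp only [mk_apply]
    rw [if_neg (by omega)]

end cm

section level

variable {X : Type} [Fintype X] [DecidableEq X] {K F : Type} [Field K] [Field F] [Algebra K F]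

theorem level_eq (i j l : ℕ) (hi : 0 < i) (hij : i ≤ j) (hl : 0 < l) (x y g : NC X F)
    (hx : Ord i (x - 1)) (hy : Ord j (y - 1)) (hg : Ord (i + j) (g - 1))
    (heq : Ord (i + j + l + 1) (x * y - g * y * x))
    (hgK : ∀ w, g w ∈ Set.range (algebraMap K F))
    (hxK : ∀ w : List X, w.length < i + l → x w ∈ Set.range (algebraMap K F))
    (hyK : ∀ w : List X, w.length < j + l → y w ∈ Set.range (algebraMap K F)) :
    ∃ R : NC X K, ⁅comp i x, comp (j + l) y⁆ + ⁅comp (i + l) x, comp j y⁆ =
      cmap (algebraMap K F) R := by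
  obtain ⟨x1, x2, hx12, hx2, hx1⟩ := split_low (i + l) x hxK
  obtain ⟨y1, y2, hy12, hy2, hy1⟩ := split_low (j + l) y hyK
  choose gk hgk using hgK
  have hg1 : g = al (⟨gk⟩ : NC X K) := by
    ext w
    rw [al_apply]
    exact (hgk w).symm
  set G : NC X K := ⟨gk⟩ with hGdef
  have hGo : Ord (i + j) (G - 1) := by
    rw [← al_ord (F := F), al_sub, al_one, ← hg1]
    exact hg
  have hx1o : Ord i ((al x1 : NC X F) - 1) := by
    have : (al x1 : NC X F) - 1 = (x - 1) - x2 := by rw [hx12]; abel
    rw [this]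
    exact hx.sub (Ord.mono (by omega) hx2)
  have hy1o : Ord j ((al y1 : NC X F) - 1) := by
    have : (al y1 : NC X F) - 1 = (y - 1) - y2 := by rw [hy12]; abel
    rw [this]
    exact hy.sub (Ord.mono (by omega) hy2)
  have hcx2 : comp (i + l) x2 = comp (i + l) x := by
    rw [hx12, comp_add]
    have : comp (i + l) (al x1 : NC X F) = 0 := by
      ext w
      rw [comp_apply]
      split_ifs with h
      · rw [al_apply, hx1 w (by omega), map_zero]; rfl
      · rfl
    rw [this, zero_add]
  have hcy2 : comp (j + l) y2 = comp (j + l) y := by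
    rw [hy12, comp_add]
    have : comp (j + l) (al y1 : NC X F) = 0 := by
      ext w
      rw [comp_apply]
      split_ifs with h
      · rw [al_apply, hy1 w (by omega), map_zero]; rfl
      · rfl
    rw [this, zero_add]
  have hcx1 : comp i ((al x1 : NC X F) - 1) = comp i x := by
    have : (al x1 : NC X F) - 1 = (x - 1) - x2 := by rw [hx12]; abel
    rw [this, comp_sub, comp_sub_one hi, comp_of_ord hx2 (by omega), sub_zero]
  have hcy1 : comp j ((al y1 : NC X F) - 1) = comp j y := by
    have : (al y1 : NC X F) - 1 = (y - 1) - y2 := by rw [hy12]; abel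
    rw [this, comp_sub, comp_sub_one (by omega), comp_of_ord hy2 (by omega), sub_zero]
  -- expansion
  have e : x * y - g * y * x = al (x1 * y1 - G * y1 * x1) +
      (⁅(al x1 : NC X F) - 1, y2⁆ + ⁅x2, (al y1 : NC X F) - 1⁆) +
      (⁅x2, y2⁆ - (g - 1) * (al y1 * x2 + y2 * al x1 + y2 * x2)) := by
    rw [al_sub, al_mul, al_mul, al_mul, ← hg1]
    simp only [Ring.lie_def]
    rw [hx12, hy12]
    noncomm_ring
  have h1 := br_lead hx1o hy2
  have h2 := br_lead hx2 hy1o
  have h3 := br_lead hx2 hy2
  have h4 : Ord (i + j + l + 1) ((g - 1) * (al y1 * x2 + y2 * al x1 + y2 * x2)) := by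
    have h5 : Ord (i + l) (al y1 * x2 + y2 * al x1 + y2 * x2) := by
      refine Ord.add (Ord.add ?_ ?_) ?_
      · have h0 : Ord 0 (al y1 : NC X F) := fun w hw => absurd hw (Nat.not_lt_zero _)
        simpa using h0.mul hx2
      · exact Ord.mono (by omega) (hy2.mul_unit)
      · exact Ord.mono (by omega) (hy2.mul_unit)
    exact Ord.mono (by omega) (hg.mul h5)
  have h6 := comp_of_ord heq (show i + j + l < i + j + l + 1 by omega)
  rw [e, comp_add, comp_add, comp_add, comp_sub, ← al_comp, comp_of_ord h4 (by omega),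
    comp_of_ord (Ord.mono (show i + j + l + 1 ≤ i + l + (j + l) by omega) h3.1) (by omega),
    sub_zero, add_zero] at h6
  rw [show i + j + l = i + (j + l) by omega] at h6
  rw [h1.2] at h6
  rw [show i + (j + l) = i + l + j by omega, h2.2, hcx2, hcy2, hcx1, hcy1] at h6
  refine ⟨-comp (i + l + j) (x1 * y1 - G * y1 * x1), ?_⟩
  have h7 : (cmap (algebraMap K F) (-comp (i + l + j) (x1 * y1 - G * y1 * x1)) : NC X F) =
      -al (comp (i + l + j) (x1 * y1 - G * y1 * x1)) := by
    ext w
    simp [al_apply]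
  rw [h7]
  rw [eq_neg_iff_add_eq_zero, add_comm]
  exact h6

theorem level_ker [CharZero K] (i j l : ℕ) (hi : 0 < i) (hij : i ≤ j) (hl : 0 < l) (x y g : NC X F)
    (hx0 : x [] = 1) (hxg : Δ x = T1 x * T2 x) (hy0 : y [] = 1) (hyg : Δ y = T1 y * T2 y)
    (hx : Ord i (x - 1)) (hy : Ord j (y - 1)) (hg : Ord (i + j) (g - 1))
    (heq : Ord (i + j + l + 1) (x * y - g * y * x))
    (hgK : ∀ w, g w ∈ Set.range (algebraMap K F))
    (hxK : ∀ w : List X, w.length < i + l → x w ∈ Set.range (algebraMap K F))
    (hyK : ∀ w : List X, w.length < j + l → y w ∈ Set.range (algebraMap K F))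
    (x₀ y₀ : NC X K) (hx₀ : comp i x = cmap (algebraMap K F) x₀)
    (hy₀ : comp j y = cmap (algebraMap K F) y₀)
    (ρ : F →ₗ[K] K) (hρ : ρ 1 = 0) :
    IsLie (comp (i + l) (cmap ρ x)) ∧ IsLie (comp (j + l) (cmap ρ y)) ∧
    ⁅x₀, comp (j + l) (cmap ρ y)⁆ + ⁅comp (i + l) (cmap ρ x), y₀⁆ = 0 := by
  have hlie : ∀ (n : ℕ) (z : NC X F), 0 < n → Δ z = T1 z * T2 z →
      (∀ w : List X, w.length < n → z w ∈ Set.range (algebraMap K F)) →
      IsLie (comp n (rh ρ z)) := by
    intro n z hn hz hzK
    rw [isLie_iff]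
    constructor
    · rw [comp_apply, if_neg (by simp; omega)]
    · intro a b ha hb
      by_cases hab : a.length + b.length = n
      · rw [sh_congr a b _ (rh ρ z) (fun w hw => by rw [comp_apply, if_pos (by omega)]), rh_sh,
          (gl_iff z).mp hz]
        have ha' : 0 < a.length := List.length_pos_iff.mpr ha
        have hb' : 0 < b.length := List.length_pos_iff.mpr hb
        obtain ⟨ca, hca⟩ := hzK a (by omega)
        obtain ⟨cb, hcb⟩ := hzK b (by omega)
        rw [← hca, ← hcb, ← map_mul, Algebra.algebraMap_eq_smul_one, map_smul, hρ, smul_zero]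
      · exact sh_isHom a b _ (comp_isHom n _) hab
  refine ⟨hlie _ x (by omega) hxg hxK, hlie _ y (by omega) hyg hyK, ?_⟩
  obtain ⟨R, hR⟩ := level_eq i j l hi hij hl x y g hx hy hg heq hgK hxK hyK
  have h1 := congrArg (rh ρ) hR
  change rh ρ (⁅comp i x, comp (j + l) y⁆ + ⁅comp (i + l) x, comp j y⁆) = rh ρ (al R) at h1
  rw [rh_al ρ hρ, rh_add, hx₀, hy₀] at h1
  simp only [Ring.lie_def] at h1 ⊢
  change rh ρ (al x₀ * comp (j + l) y - comp (j + l) y * al x₀) +
    rh ρ (comp (i + l) x * al y₀ - al y₀ * comp (i + l) x) = 0 at h1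
  rw [rh_sub, rh_sub, rh_al_mul, rh_al_mul, rh_mul_al, rh_mul_al, rh_comp, rh_comp] at h1
  exact h1

theorem repl (i j c : ℕ) (hi : 0 < i) (hj : 0 < j) (hc : i + j ≤ c)
    (x y g x' y' : NC X F) (hx : Ord i (x - 1)) (hy : Ord j (y - 1)) (hg : Ord (i + j) (g - 1))
    (hx' : Ord (c - j + 1) (x' - x)) (hy' : Ord (c - i + 1) (y' - y)) :
    Ord (c + 1) ((x' * y' - g * y' * x') - (x * y - g * y * x)) := by
  have e : (x' * y' - g * y' * x') - (x * y - g * y * x) =
      ⁅x' - x, y - 1⁆ + ⁅x - 1, y' - y⁆ + ⁅x' - x, y' - y⁆ -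
      (g - 1) * (y * (x' - x) + (y' - y) * x + (y' - y) * (x' - x)) := by
    simp only [Ring.lie_def]
    noncomm_ring
  rw [e]
  have h0 : Ord 0 y := fun w hw => absurd hw (Nat.not_lt_zero _)
  refine Pool.Agent.Helper57.Reduce.Ord.sub (Ord.add (Ord.add ?_ ?_) ?_) ?_
  · exact Ord.mono (by omega) (br_lead hx' hy).1
  · exact Ord.mono (by omega) (br_lead hx hy').1
  · exact Ord.mono (by omega) (br_lead hx' hy').1
  · have h1 : Ord (c - j + 1) (y * (x' - x)) := by simpa using h0.mul hx'
    have h2 : Ord (c - i + 1) ((y' - y) * x + (y' - y) * (x' - x)) :=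
      Ord.add hy'.mul_unit hy'.mul_unit
    have e2 : (g - 1) * (y * (x' - x) + (y' - y) * x + (y' - y) * (x' - x)) =
        (g - 1) * (y * (x' - x)) + (g - 1) * ((y' - y) * x + (y' - y) * (x' - x)) := by
      noncomm_ring
    rw [e2]
    exact Ord.add (Ord.mono (by omega) (hg.mul h1)) (Ord.mono (by omega) (hg.mul h2))

end level

end Pool.Agent.Helper7.Comm
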