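import Pool.Agent.Helper7.Comm.GermBasics

set_option autoImplicit false

/-! # Linear algebra over the small field -/

namespace Pool.Agent.Helper7.Comm

open NC Pool.Agent.Helper57.Reduce

theorem lin_expand {K F ι : Type} [Field K] [Field F] [Algebra K F] [Finite ι] (z : ι → F) :
    ∃ (s : ℕ) (ω : Fin s → F) (ρ : Fin s → F →ₗ[K] K) (ρ₀ : F →ₗ[K] K), ρ₀ 1 = 1 ∧
      (∀ k, ρ k 1 = 0) ∧
      ∀ i, z i = algebraMap K F (ρ₀ (z i)) + ∑ k, ω k * algebraMap K F (ρ k (z i)) := by
  classical
  have := Fintype.ofFinite ι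
  obtain ⟨J, b, i₁, hb1⟩ : ∃ (J : Type) (b : Module.Basis J K F) (i₁ : J), b i₁ = 1 := by
    have hli : LinearIndepOn K id ({1} : Set F) := by
      rw [linearIndepOn_singleton_iff]
      exact one_ne_zero
    exact ⟨_, Module.Basis.extend hli, ⟨1, hli.subset_extend _ rfl⟩, by simp⟩
  let T : Finset J := (Finset.univ.biUnion fun i => (b.repr (z i)).support).erase i₁
  have hT : ∀ i, ∀ j ∉ insert i₁ T, b.repr (z i) j = 0 := by
    intro i j hj
    rw [Finset.mem_insert, not_or] at hj
    by_contra hne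
    apply hj.2
    rw [Finset.mem_erase]
    refine ⟨hj.1, Finset.mem_biUnion.mpr ⟨i, Finset.mem_univ _, ?_⟩⟩
    rwa [Finsupp.mem_support_iff]
  have hi₁T : i₁ ∉ T := Finset.notMem_erase _ _
  let e := T.equivFin.symm
  refine ⟨T.card, fun k => b (e k).1, fun k => b.coord (e k).1, b.coord i₁, ?_, ?_, ?_⟩
  · rw [← hb1]; simp
  · intro k
    rw [← hb1, Module.Basis.coord_apply, Module.Basis.repr_self, Finsupp.single_apply, if_neg]
    rintro h
    exact hi₁T (h ▸ (e k).2)
  · intro i
    have h2 : z i = ∑ j ∈ insert i₁ T, b.repr (z i) j • b j := by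
      conv_lhs => rw [← b.linearCombination_repr (z i), Finsupp.linearCombination_apply]
      rw [Finsupp.sum_of_support_subset (s := insert i₁ T)]
      · intro j hj
        by_contra hne
        exact (Finsupp.mem_support_iff.mp hj) (hT i j hne)
      · intro j _
        rw [zero_smul]
    conv_lhs => rw [h2]
    rw [Finset.sum_insert hi₁T, hb1]
    congr 1
    · rw [Algebra.smul_def, mul_one]; rfl
    · rw [← Finset.sum_coe_sort, ← e.sum_comp]
      refine Finset.sum_congr rfl fun k _ => ?_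
      rw [Algebra.smul_def, mul_comm]; rfl

theorem exists_functionals {B : ℕ → ℕ} {t : UF} (ht : t ∉ OO B) :
    ∃ ρ ρ₁ : UF →ₗ[KK B] KK B, ρ 1 = 0 ∧ ρ t = 0 ∧ ρ (t ^ 2) = 1 ∧ ρ₁ 1 = 0 ∧ ρ₁ t = 1 := by
  have hli : LinearIndependent (KK B) (![1, t, t ^ 2] : Fin 3 → UF) := by
    rw [Fintype.linearIndependent_iff]
    intro c hc
    rw [Fin.sum_univ_three] at hc
    simp only [Matrix.cons_val_zero, Matrix.cons_val_one, Matrix.cons_val] at hc
    simp only [Subfield.smul_def, smul_eq_mul, mul_one] at hc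
    have hO : ∀ k, ((c k : KK B) : UF) ∈ OO B := fun k => KK_le_OO (c k).2
    have ht1 : 1 < |t| := by
      by_contra h
      push Not at h
      exact ht (OO_of_le (one_mem _) (by simpa using h))
    have ht0 : t ≠ 0 := by
      rintro rfl
      simp at ht1
      linarith
    have h2 : c 2 = 0 := by
      by_contra h
      have h' : ((c 2 : KK B) : UF) ≠ 0 := fun hh => h (Subtype.ext hh)
      apply ht
      have h3 : t = -((c 2 : UF)⁻¹ * (c 0 : UF)) * t⁻¹ - (c 2 : UF)⁻¹ * (c 1 : UF) := by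
        field_simp
        linear_combination hc
      have h4 : (c 2 : UF)⁻¹ * (c 0 : UF) ∈ KK B := mul_mem (inv_mem (c 2).2) (c 0).2
      have h5 : (c 2 : UF)⁻¹ * (c 1 : UF) ∈ KK B := mul_mem (inv_mem (c 2).2) (c 1).2
      rw [h3]
      refine sub_mem (OO_of_le (KK_le_OO h4) ?_) (KK_le_OO h5)
      rw [abs_mul, abs_neg, abs_inv]
      exact mul_le_of_le_one_right (abs_nonneg _) (inv_le_one_of_one_le₀ ht1.le)
    have h1 : c 1 = 0 := by
      by_contra h
      have h' : ((c 1 : KK B) : UF) ≠ 0 := fun hh => h (Subtype.ext hh)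
      apply ht
      rw [h2] at hc
      have h3 : t = -((c 1 : UF)⁻¹ * (c 0 : UF)) := by
        field_simp
        push_cast at hc
        linear_combination hc
      rw [h3]
      exact KK_le_OO (neg_mem (mul_mem (inv_mem (c 1).2) (c 0).2))
    have h0 : c 0 = 0 := by
      rw [h1, h2] at hc
      apply Subtype.ext
      push_cast at hc ⊢
      linear_combination hc
    intro k
    fin_cases k
    · exact h0
    · exact h1
    · exact h2
  have key : ∀ a : Fin 3 → KK B, ∃ ρ : UF →ₗ[KK B] KK B, ∀ k, ρ ((![1, t, t ^ 2] : Fin 3 → UF) k) = a k := by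
    intro a
    let b := Module.Basis.span hli
    obtain ⟨ρ, hρ⟩ := LinearMap.exists_extend (b.constr (KK B) a)
    refine ⟨ρ, fun k => ?_⟩
    have h1 := congrArg (fun f => f (b k)) hρ
    simp only [LinearMap.comp_apply, Module.Basis.constr_basis] at h1
    rw [← h1]
    congr 1
    simp only [b, Submodule.subtype_apply]
    rw [Module.Basis.span_apply]
  obtain ⟨ρ, h⟩ := key ![0, 0, 1]
  obtain ⟨ρ₁, h'⟩ := key ![0, 1, 0]
  exact ⟨ρ, ρ₁, h 0, h 1, h 2, h' 0, h' 1⟩

end Pool.Agent.Helper7.Comm
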