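import Pool.Agent.Helper7.Comm.Kernel

set_option autoImplicit false

/-! # Right-normed brackets, the Dynkin operator, exponentials: definitions -/

namespace Pool.Agent.Helper7.Comm

open NC

/-- Right-normed bracket of a word of letters. -/
def rb {κ : Type} [DecidableEq κ] {K : Type} [Field K] : List κ → NC κ K
  | [] => 0
  | [k] => NC.letter k
  | k :: l :: W => ⁅(NC.letter k : NC κ K), rb (l :: W)⁆

/-- Weight of the last letter of a word. -/
def lastWt {κ : Type} (d : κ → ℕ) : List κ → ℕ
  | [] => 0
  | [k] => d k
  | _ :: l :: W => lastWt d (l :: W)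

/-- Weighted Dynkin operator on series supported on words of length at most `n`. -/
def dyn {κ : Type} [Fintype κ] [DecidableEq κ] {K : Type} [Field K] (d : κ → ℕ) (n : ℕ)
    (F : NC κ K) : NC κ K :=
  ∑ m ∈ Finset.range (n + 1), ∑ v : Fin m → κ,
    (F (List.ofFn v) * (lastWt d (List.ofFn v) : K)) • rb (List.ofFn v)

theorem rb_isLie {κ : Type} [Fintype κ] [DecidableEq κ] {K : Type} [Field K] (W : List κ) :
    IsLie (rb W : NC κ K) := by
  induction W with
  | nil => exact IsLie.zero
  | cons k W ih =>
    cases W with
    | nil => exact isLie_letter k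
    | cons l W => exact (isLie_letter k).lie ih

/-- The exponential of a letter. -/
def expS {X : Type} [DecidableEq X] (x : X) : NC X ℚ :=
  ⟨fun w => if w = List.replicate w.length x then ((w.length.factorial : ℕ) : ℚ)⁻¹ else 0⟩

end Pool.Agent.Helper7.Comm
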