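import Pool.Agent.Helper7.Comm.NC

set_option autoImplicit false

/-! # Definitions for the (weighted) Magnus theorem -/

namespace Pool.Agent.Helper7.Comm

open NC

/-- Weight of a word. -/
def wt {X : Type*} (ω : X → ℕ) (w : List X) : ℕ := (w.map ω).sum

/-- The series has no terms of weight `< n`. -/
def OrdGE {X R : Type*} [Zero R] (ω : X → ℕ) (n : ℕ) (f : NC X R) : Prop :=
  ∀ w : List X, wt ω w < n → f w = 0

/-- An `N`-series of a group (indexed so that `H 0 = H 1 = ⊤`). -/
structure IsNSeries {G : Type*} [Group G] (H : ℕ → Subgroup G) : Prop where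
  anti : Antitone H
  one : H 1 = ⊤
  comm : ∀ m n, ⁅H m, H n⁆ ≤ H (m + n)

/-- The smallest `N`-series of a free group containing each generator `x` in degree `ω x`. -/
def Gam {X : Type*} (ω : X → ℕ) (n : ℕ) : Subgroup (FreeGroup X) :=
  sInf {K | ∃ H : ℕ → Subgroup (FreeGroup X), IsNSeries H ∧
    (∀ x, FreeGroup.of x ∈ H (ω x)) ∧ K = H n}

section

variable {X : Type*} [DecidableEq X] (R : Type*) [Ring R]

/-- The series `(1 + a)⁻¹`. -/
def invLetter (a : X) : NC X R := ⟨fun w => if w = List.replicate w.length a then (-1) ^ w.length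
  else 0⟩

theorem D_invLetter (a b : X) :
    NC.D b (invLetter R a) = if b = a then -invLetter R a else 0 := by
  ext w
  by_cases h : b = a
  · subst h
    rw [if_pos rfl]
    simp only [NC.D_apply, invLetter, NC.mk_apply, NC.neg_apply, List.length_cons,
      List.replicate_succ, List.cons.injEq, true_and]
    split_ifs
    · rw [pow_succ]; simp
    · simp
  · rw [if_neg h]
    simp only [NC.D_apply, invLetter, NC.mk_apply, List.length_cons,
      List.replicate_succ, List.cons.injEq, NC.zero_apply]
    rw [if_neg]
    exact fun hh => h hh.1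

/-- The unit `1 + a`. -/
def magUnit (a : X) : (NC X R)ˣ where
  val := 1 + NC.letter a
  inv := invLetter R a
  val_inv := by
    ext w
    cases w with
    | nil => simp [invLetter, NC.letter_nil]
    | cons b w =>
      rw [NC.mul_cons, NC.D_add, NC.D_one, NC.D_letter]
      have : invLetter R a (b :: w) = NC.D b (invLetter R a) w := rfl
      rw [this, D_invLetter]
      by_cases h : b = a <;> simp [h, NC.letter_nil]
  inv_val := by
    ext w
    induction w with
    | nil => simp [invLetter, NC.letter_nil]
    | cons b w ih =>
      rw [NC.mul_cons, D_invLetter]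
      by_cases h : b = a
      · subst h
        rw [if_pos rfl, neg_mul, NC.neg_apply, ih]
        cases w <;> simp [invLetter, NC.letter]
      · rw [if_neg h, zero_mul]
        simp [invLetter, NC.letter, h]

/-- The Magnus homomorphism `a ↦ 1 + a`. -/
def mag : FreeGroup X →* (NC X R)ˣ := FreeGroup.lift (magUnit R)

theorem mag_of (a : X) : ((mag R (FreeGroup.of a) : (NC X R)ˣ) : NC X R) = 1 + NC.letter a := by
  simp [mag, magUnit]

end

end Pool.Agent.Helper7.Comm
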