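import Mathlib

set_option autoImplicit false

/-! # Noncommutative formal power series

`NC X R` is the ring of formal power series in noncommuting letters `X`, with coefficients in a
(possibly noncommutative) ring `R`; the letters commute with the coefficients.  A series is a
function on words. -/

namespace Pool.Agent.Helper7.Comm

/-- Noncommutative formal power series. -/
structure NC (X : Type*) (R : Type*) where
  /-- the coefficient function -/
  toFun : List X → R

namespace NC

variable {X : Type*} {R : Type*}

instance : FunLike (NC X R) (List X) R where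
  coe := NC.toFun
  coe_injective := by rintro ⟨f⟩ ⟨g⟩ h; congr

@[simp] theorem mk_apply (f : List X → R) (w : List X) : (⟨f⟩ : NC X R) w = f w := rfl

@[ext] theorem ext {f g : NC X R} (h : ∀ w, f w = g w) : f = g := DFunLike.ext _ _ h

/-- Left derivative with respect to a letter. -/
def D (a : X) (f : NC X R) : NC X R := ⟨fun w => f (a :: w)⟩

@[simp] theorem D_apply (a : X) (f : NC X R) (w : List X) : D a f w = f (a :: w) := rfl

section add

variable [AddCommGroup R]

instance : Zero (NC X R) := ⟨⟨fun _ => 0⟩⟩
instance : Add (NC X R) := ⟨fun f g => ⟨fun w => f w + g w⟩⟩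
instance : Neg (NC X R) := ⟨fun f => ⟨fun w => -f w⟩⟩
instance : Sub (NC X R) := ⟨fun f g => ⟨fun w => f w - g w⟩⟩
instance {K : Type*} [SMul K R] : SMul K (NC X R) := ⟨fun c f => ⟨fun w => c • f w⟩⟩

@[simp] theorem zero_apply (w : List X) : (0 : NC X R) w = 0 := rfl
@[simp] theorem add_apply (f g : NC X R) (w : List X) : (f + g) w = f w + g w := rfl
@[simp] theorem sub_apply (f g : NC X R) (w : List X) : (f - g) w = f w - g w := rfl
@[simp] theorem neg_apply (f : NC X R) (w : List X) : (-f) w = -f w := rfl
omit [AddCommGroup R] in
@[simp] theorem smul_apply {K : Type*} [SMul K R] (c : K) (f : NC X R)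
    (w : List X) : (c • f) w = c • f w := rfl

instance : AddCommGroup (NC X R) :=
  DFunLike.coe_injective.addCommGroup (fun f : NC X R => (f : List X → R)) rfl
    (fun _ _ => rfl) (fun _ => rfl) (fun _ _ => rfl) (fun _ _ => rfl) (fun _ _ => rfl)

/-- The coefficient function as an additive map. -/
def toFunHom : NC X R →+ (List X → R) where
  toFun f := f
  map_zero' := rfl
  map_add' _ _ := rfl

instance {K : Type*} [Semiring K] [Module K R] : Module K (NC X R) :=
  DFunLike.coe_injective.module K (toFunHom (X := X) (R := R)) (fun _ _ => rfl)

/-- Coefficient of a word, as an additive map. -/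
def coeff (w : List X) : NC X R →+ R where
  toFun f := f w
  map_zero' := rfl
  map_add' _ _ := rfl

theorem coeff_apply (w : List X) (f : NC X R) : coeff w f = f w := rfl

@[simp] theorem sum_apply {ι : Type*} (s : Finset ι) (f : ι → NC X R) (w : List X) :
    (∑ i ∈ s, f i) w = ∑ i ∈ s, f i w := by
  rw [← coeff_apply, map_sum]; rfl

@[simp] theorem D_add (a : X) (f g : NC X R) : D a (f + g) = D a f + D a g := rfl
@[simp] theorem D_sub (a : X) (f g : NC X R) : D a (f - g) = D a f - D a g := rfl
@[simp] theorem D_neg (a : X) (f : NC X R) : D a (-f) = -D a f := rfl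
@[simp] theorem D_zero (a : X) : D a (0 : NC X R) = 0 := rfl
omit [AddCommGroup R] in
@[simp] theorem D_smul {K : Type*} [SMul K R] (a : X) (c : K) (f : NC X R) :
    D a (c • f) = c • D a f := rfl

end add

section ring

/-- Auxiliary product. -/
def mulAux [Mul R] [Add R] : List X → NC X R → NC X R → R
  | [], f, g => f [] * g []
  | a :: w, f, g => f [] * g (a :: w) + mulAux w (D a f) g

variable [Ring R]

instance : Mul (NC X R) := ⟨fun f g => ⟨fun w => mulAux w f g⟩⟩

@[simp] theorem mul_nil (f g : NC X R) : (f * g) [] = f [] * g [] := rfl

theorem mul_cons (f g : NC X R) (a : X) (w : List X) :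
    (f * g) (a :: w) = f [] * g (a :: w) + (D a f * g) w := rfl

instance : One (NC X R) := ⟨⟨fun w => match w with
  | [] => 1
  | _ :: _ => 0⟩⟩

@[simp] theorem one_nil : (1 : NC X R) [] = 1 := rfl
@[simp] theorem one_cons (a : X) (w : List X) : (1 : NC X R) (a :: w) = 0 := rfl
@[simp] theorem D_one (a : X) : D a (1 : NC X R) = 0 := rfl

protected theorem add_mul' (f g h : NC X R) : (f + g) * h = f * h + g * h := by
  ext w
  induction w generalizing f g with
  | nil => simp [add_mul]
  | cons a w ih =>
    simp only [add_apply] at ih ⊢
    simp only [mul_cons, add_apply, D_add, ih, add_mul]; abel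

protected theorem mul_add' (f g h : NC X R) : f * (g + h) = f * g + f * h := by
  ext w
  induction w generalizing f with
  | nil => simp [mul_add]
  | cons a w ih =>
    simp only [add_apply] at ih ⊢
    simp only [mul_cons, add_apply, ih, mul_add]; abel

protected theorem zero_mul' (f : NC X R) : 0 * f = 0 := by
  ext w
  induction w with
  | nil => simp
  | cons a w ih => rw [mul_cons, D_zero, ih]; simp

protected theorem mul_zero' (f : NC X R) : f * 0 = 0 := by
  ext w
  induction w generalizing f with
  | nil => simp
  | cons a w ih => rw [mul_cons, ih]; simp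

protected theorem one_mul' (f : NC X R) : 1 * f = f := by
  ext w
  cases w with
  | nil => simp
  | cons a w => simp [mul_cons, NC.zero_mul']

protected theorem mul_one' (f : NC X R) : f * 1 = f := by
  ext w
  induction w generalizing f with
  | nil => simp
  | cons a w ih => rw [mul_cons, ih]; simp

theorem D_mul (a : X) (f g : NC X R) : D a (f * g) = f [] • D a g + D a f * g := rfl

protected theorem smul_mul' {K : Type*} [SMul K R] [IsScalarTower K R R]
    (c : K) (f g : NC X R) : (c • f) * g = c • (f * g) := by
  have key : ∀ (w : List X) (f : NC X R), ((c • f) * g) w + c • (0 : R) =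
      c • ((f * g) w) + c • (0 : R) := by
    intro w
    have hz : ∀ a b : R, c • (a + b) = c • a + c • b := by
      intro a b
      rw [← mul_one a, ← mul_one b]
      have : ∀ r : R, c • r = (c • (1 : R)) * r := fun r => by rw [smul_mul_assoc, one_mul]
      rw [this, this (a * 1), this (b * 1), mul_add]
    induction w with
    | nil => intro f; simp [smul_mul_assoc]
    | cons a w ih =>
      intro f
      have h1 := ih (D a f)
      rw [add_left_inj] at h1 ⊢
      rw [mul_cons, mul_cons, D_smul, h1, smul_apply, smul_mul_assoc, hz]
  ext w
  have := key w f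
  rwa [add_left_inj] at this

protected theorem mul_smul' {K : Type*} [SMul K R] [IsScalarTower K R R] [SMulCommClass K R R]
    (c : K) (f g : NC X R) : f * (c • g) = c • (f * g) := by
  have hz : ∀ a b : R, c • (a + b) = c • a + c • b := by
    intro a b
    have : ∀ r : R, c • r = (c • (1 : R)) * r := fun r => by rw [smul_mul_assoc, one_mul]
    rw [this, this a, this b, mul_add]
  ext w
  induction w generalizing f with
  | nil => simp [mul_smul_comm]
  | cons a w ih =>
    have h1 := ih (D a f)
    rw [smul_apply] at h1 ⊢
    rw [mul_cons, mul_cons, h1, smul_apply, mul_smul_comm, hz]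

protected theorem mul_assoc' (f g h : NC X R) : f * g * h = f * (g * h) := by
  ext w
  induction w generalizing f with
  | nil => simp [mul_assoc]
  | cons a w ih =>
    simp only [mul_cons, mul_nil, D_mul, NC.add_mul', add_apply, NC.smul_mul', smul_apply,
      smul_eq_mul, ih, mul_add, mul_assoc, add_assoc]

instance : Ring (NC X R) where
  __ := (inferInstance : AddCommGroup (NC X R))
  mul := (· * ·)
  one := 1
  left_distrib := NC.mul_add'
  right_distrib := NC.add_mul'
  zero_mul := NC.zero_mul'
  mul_zero := NC.mul_zero'
  mul_assoc := NC.mul_assoc'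
  one_mul := NC.one_mul'
  mul_one := NC.mul_one'

instance {K : Type*} [SMul K R] [IsScalarTower K R R] :
    IsScalarTower K (NC X R) (NC X R) := ⟨fun c f g => NC.smul_mul' c f g⟩

instance {K : Type*} [SMul K R] [IsScalarTower K R R] [SMulCommClass K R R] :
    SMulCommClass K (NC X R) (NC X R) := ⟨fun c f g => (NC.mul_smul' c f g).symm⟩

instance {K : Type*} [CommSemiring K] [Algebra K R] : Algebra K (NC X R) :=
  Algebra.ofModule (fun c f g => NC.smul_mul' c f g) (fun c f g => NC.mul_smul' c f g)

/-- Product formula. -/
theorem mul_apply (f g : NC X R) (w : List X) :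
    (f * g) w = ∑ i ∈ Finset.range (w.length + 1), f (w.take i) * g (w.drop i) := by
  induction w generalizing f with
  | nil => simp
  | cons a w ih =>
    rw [mul_cons, ih, List.length_cons, Finset.sum_range_succ' _ (w.length + 1), add_comm]
    simp

/-- The letter `a` as a series. -/
def letter [DecidableEq X] (a : X) : NC X R := ⟨fun w => if w = [a] then 1 else 0⟩

theorem letter_nil [DecidableEq X] (a : X) : (letter a : NC X R) [] = 0 := by
  simp [letter]

theorem D_letter [DecidableEq X] (a b : X) :
    D a (letter b : NC X R) = if a = b then 1 else 0 := by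
  ext w
  cases w with
  | nil => by_cases h : a = b <;> simp [letter, h]
  | cons c w => by_cases h : a = b <;> simp [letter, h]

end ring

end NC

end Pool.Agent.Helper7.Comm
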