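import Pool.Agent.Helper7.Comm.KLemma
import Pool.Agent.Helper7.Comm.Brackets
import Pool.Agent.Helper57.ReduceA
import Pool.Agent.Helper59.Dynkin

set_option autoImplicit false

/-! # Definitions for the algebraic core (Proposition E) -/

namespace Pool.Agent.Helper7.Comm

open NC Pool.Agent.Helper57.Reduce

/-- `(ad a)^n b` in the free algebra on `a = letter 0`, `b = letter 1`. -/
def adp {K : Type} [Field K] : ℕ → NC (Fin 2) K
  | 0 => letter 1
  | n + 1 => ⁅(letter 0 : NC (Fin 2) K), adp n⁆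

/-- Apply a map to all coefficients. -/
def cmap {X R S : Type*} (φ : R → S) (f : NC X R) : NC X S := ⟨fun w => φ (f w)⟩

@[simp] theorem cmap_apply {X R S : Type*} (φ : R → S) (f : NC X R) (w : List X) :
    cmap φ f w = φ (f w) := rfl

section

variable {X : Type} [Fintype X] [DecidableEq X] {K : Type} [Field K]

/-- `f ↦ P⁻¹ f P`. -/
def cj (P : (NC X K)ˣ) (f : NC X K) : NC X K :=
  ((P⁻¹ : (NC X K)ˣ) : NC X K) * f * (P : NC X K)

/-- `f ↦ (P f P⁻¹ - P⁻¹ f P) / 2`. -/
def cS (P : (NC X K)ˣ) (f : NC X K) : NC X K := (2 : K)⁻¹ • (cj P⁻¹ f - cj P f)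

/-- `f` is of the form `P⁻¹ V P - V` up to terms of degree `≥ N`, with `V` a Lie series without
terms of degree `≤ i`. -/
def Ex (P : (NC X K)ˣ) (i N : ℕ) (f : NC X K) : Prop :=
  ∃ V : NC X K, IsLie V ∧ Ord (i + 1) V ∧ Ord N (f + (V - cj P V))

end

end Pool.Agent.Helper7.Comm
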