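import Pool.Agent.Helper7.Comm.PropEB
import Pool.Agent.Helper39.CommP

set_option autoImplicit false
set_option linter.unusedSectionVars false

/-! # Proposition E over the small field: the chain argument -/

namespace Pool.Agent.Helper7.Comm

open NC Pool.Agent.Helper57.Reduce Pool.Agent.Helper57.ConjTools Pool.Agent.Helper77.Comm Pool.Agent.Helper39.Comm

variable {X : Type} [Fintype X] [DecidableEq X] {K : Type} [Field K] [CharZero K]

namespace ED

variable {i j l : ℕ} {P : (NC X K)ˣ} {Q U₁ V₁ U V u v : NC X K} (H : ED i j l P Q U₁ V₁ U V u v)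
include H

theorem exZ {N : ℕ} {Y : NC X K} (hN : N = i + j + 2 * l) (hY : Y ∈ SS P U₁) : Ex P i N ⁅U₁, Q - Y⁆ := by
  subst hN
  have h1 := Ex_add P H.exA (Ex_smul P (-1) (H.SS_ex (i + j + 2 * l) (H.U₁_mem) hY))
  convert h1 using 1
  simp only [Ring.lie_def, neg_smul, one_smul]
  noncomm_ring

/-- The `Z` chain. `Bad` alternatives carry the lifts of the lowest term. -/
theorem chainZ (Y₀ : NC X K) (hY₀ : Y₀ ∈ SS P U₁) (hY₀o : Ord (j + 1) (Q - Y₀)) (s : ℕ) (hs : 1 ≤ s) (hsl : s ≤ l) :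
    (∃ s0, 1 ≤ s0 ∧ s0 < l ∧ ∃ Y ∈ SS P U₁, Ord (j + s0) (Q - Y) ∧
      ∃ F G : NC (Fin 2) K, (∀ W, wt ![i, i + l] W ≠ j + s0 → F W = 0) ∧
        (∀ W, wt ![i, i + l] W ≠ j + l + s0 → G W = 0) ∧
        comp (j + s0) (Q - Y) = subst ![comp i (P : NC X K), u] F ∧
        ⁅(letter 0 : NC (Fin 2) K), G⁆ + ⁅(letter 1 : NC (Fin 2) K), F⁆ = 0 ∧
        ∃ w : List (Fin 2), 2 ≤ w.count 1 ∧ F w ≠ 0) ∨
    ∃ Y ∈ SS P U₁, Ord (j + s) (Q - Y) := by
  induction s, hs using Nat.le_induction with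
  | base => exact Or.inr ⟨Y₀, hY₀, hY₀o⟩
  | succ s hs ih =>
    rcases ih (by omega) with h | ⟨Y, hY, hYo⟩
    · exact Or.inl h
    have hi := H.hi
    have hij := H.hij
    -- equation at level s
    have hl := br_lead H.hU₁o hYo
    rw [H.hu] at hl
    obtain ⟨V', hV'L, hV'H, hV'⟩ := H.lead (n := i + l + (j + s)) (N := i + j + 2 * l) (by omega) (by omega)
      (H.exZ rfl hY) hl.1
    rw [hl.2] at hV'
    have hzL : IsLie (Q - Y) := H.hQ.sub (H.SS_lie hY).1
    obtain ⟨F, G, hF, hG, hzF, hVG, hFL, hGL, hFG⟩ := corE H.xu (n := j + s) (b := j + l + s)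
      (by omega) (by omega) (comp_isHom _ _) (hzL.comp _)
      (by rwa [show i + l + (j + s) - i = j + l + s by omega] at hV'H) hV'L hV'
    by_cases hbad : ∃ w : List (Fin 2), 2 ≤ w.count 1 ∧ F w ≠ 0
    · exact Or.inl ⟨s, hs, by omega, Y, hY, hYo, F, G, hF, hG, hzF, hFG, hbad⟩
    push Not at hbad
    right
    obtain ⟨k, c, hFc, hc⟩ := z_form i (i + l) (j + s) hi (by omega) (by omega) F G hFL hF
      (wt_bd hi (by omega) hG) hFG hbad
    by_cases hc0 : c = 0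
    · refine ⟨Y, hY, ?_⟩
      refine ord_succ (n := j + s) hYo ?_
      rw [hzF, hFc, hc0, zero_smul, subst_zero _ H.xu.h0]
    · have hdeg := hc hc0
      refine ⟨Y + c • (cS P)^[2 * k] U₁, (SS P U₁).add_mem hY ((SS P U₁).smul_mem _ (H.iter_mem k)), ?_⟩
      have h1 := H.iter_lead (2 * k)
      rw [hdeg] at h1
      rw [← sub_sub]
      refine ord_succ (n := j + s) (hYo.sub (Ord.smul c h1.1)) ?_
      rw [comp_sub, comp_smul, h1.2.1, hzF, hFc, subst_smul _ H.xu.h0, sub_self]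

/-- Lowest term of `U` via the combined equation. -/
theorem exU {N : ℕ} {Y W : NC X K} (hN : N = i + j + 2 * l + 1) (hY : Y ∈ SS P U₁) (hW : W ∈ SS P U₁) :
    Ex P i N (⁅U - W, Q⁆ + ⁅W, Q - Y⁆ + ⁅u, v⁆) := by
  subst hN
  have h1 := Ex_add P H.exB (Ex_smul P (-1) (H.SS_ex (i + j + 2 * l + 1) hW hY))
  convert h1 using 1
  simp only [Ring.lie_def, neg_smul, one_smul]
  noncomm_ring

/-- A step of the `U` chain: at a level `s < 2l` below the level of the correction terms the lowest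
term is `c • (ad x)^e u`. -/
theorem stepU {s : ℕ} (hs : l < s) (hs2 : s < 2 * l) {f : NC X K} (hUo : Ord (i + s) f)
    (hUL : IsLie f) {R : NC X K} (hR : Ord (i + j + s + 1) R) {N : ℕ} (hN : i + j + s < N)
    (hex : Ex P i N (⁅f, Q⁆ + R)) {Fy : NC (Fin 2) K} (hFy : ∀ W, wt ![i, i + l] W ≠ j → Fy W = 0)
    (hyF : comp j Q = subst ![comp i (P : NC X K), u] Fy) :
    ∃ (e : ℕ) (c : K) (G : NC (Fin 2) K), comp (i + s) f = c • subst ![comp i (P : NC X K), u] (adp e) ∧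
      (c ≠ 0 → i + l + e * i = i + s) ∧ (∃ N, ∀ w : List (Fin 2), N < w.length → G w = 0) ∧
      ⁅(letter 0 : NC (Fin 2) K), G⁆ + c • ⁅(adp e : NC (Fin 2) K), Fy⁆ = 0 := by
  have hi := H.hi
  have hl := H.hl
  have hij := H.hij
  have hb := br_lead hUo H.hQo
  obtain ⟨V', hV'L, hV'H, hV'⟩ := H.lead (n := i + s + j) (N := N) (by omega) (by omega) hex
    (Ord.add hb.1 (Ord.mono (by omega) hR))
  rw [comp_add, hb.2, comp_of_ord hR (by omega), hyF, add_zero] at hV'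
  have hFy0 : Fy ≠ 0 := by
    rintro rfl
    exact H.y0 (by rw [hyF, subst_zero _ H.xu.h0])
  obtain ⟨F, G, hF, hG, hUF, hVG, hFL, hGL, hFG⟩ := corW H.xu (j := j) (a := i + s) (b := j + s)
    (Fy := Fy) (Ff := 0) (by omega) (by omega) (by omega) hFy (hyF ▸ H.yL) hFy0 (fun W _ => rfl)
    (comp_isHom _ _) (hUL.comp _)
    (by rwa [show i + s + j - i = j + s by omega] at hV'H) hV'L
    (by rw [subst_zero _ H.xu.h0, add_zero]; exact hV')
  obtain ⟨e, c, hFe, he⟩ := adp_of_lie i (i + l) (i + s) hi (by omega) (by omega) (by omega) (by omega)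
    F hF hFL
  refine ⟨e, c, G, ?_, he, wt_bd hi (by omega) hG, ?_⟩
  · rw [hUF, hFe, subst_smul _ H.xu.h0]
  · rw [hFe] at hFG
    simp only [Ring.lie_def] at hFG ⊢
    rw [smul_mul_assoc, mul_smul_comm, ← smul_sub, add_zero] at hFG
    exact hFG

/-- Case 1. -/
theorem case1 (hU2 : Ord (i + 2 * l) U) : False := by
  have hi := H.hi
  have hl := H.hl
  have hij := H.hij
  obtain ⟨Fy, Fv, hFy, hFv, hyF, hvF, hFyL, hFvL, hyv⟩ := H.exY
  have hFy0 : Fy ≠ 0 := by
    rintro rfl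
    exact H.y0 (by rw [hyF, subst_zero _ H.xu.h0])
  have hb := br_lead hU2 H.hQo
  have huv : IsHom (i + 2 * l + j) ⁅u, v⁆ := by
    have := H.uH.lie H.vH
    rwa [show i + l + (j + l) = i + 2 * l + j by omega] at this
  obtain ⟨V', hV'L, hV'H, hV'⟩ := H.lead (n := i + 2 * l + j) (N := i + j + 2 * l + 1) (by omega)
    (by omega) H.exB (Ord.add hb.1 (ord_hom huv))
  rw [comp_add, hb.2, comp_eq_self huv, hyF] at hV'
  have e1 : ⁅u, v⁆ = subst ![comp i (P : NC X K), u] ⁅(letter 1 : NC (Fin 2) K), Fv⁆ := by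
    rw [Pool.Agent.Helper59.Dynkin.subst_lie _ H.xu.h0, H.xu.s1, ← hvF]
  rw [e1] at hV'
  obtain ⟨F, G, hF, hG, hUF, hVG, hFL, hGL, hFG⟩ := corW H.xu (j := j) (a := i + 2 * l)
    (b := j + 2 * l) (Fy := Fy) (Ff := ⁅(letter 1 : NC (Fin 2) K), Fv⁆) (by omega) (by omega)
    (by omega) hFy (hyF ▸ H.yL) hFy0 (by
      have := wt_lie (wt_letter i (i + l) 1) hFv
      intro W hW
      exact this W (by simp; omega))
    (comp_isHom _ _) (H.hU.comp _)
    (by rwa [show i + 2 * l + j - i = j + 2 * l by omega] at hV'H) hV'L hV'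
  obtain ⟨e, c, hFe, he⟩ := adp_of_lie i (i + l) (i + 2 * l) hi (by omega) (by omega) (by omega)
    (by omega) F hF hFL
  apply hFy0
  refine chain3 e c Fy Fv G hFyL (wt_bd hi (by omega) hFy) ?_ hyv ?_
  · intro w hw
    apply hFy
    rcases w with _ | ⟨a, w⟩
    · rw [wt_nil]; omega
    · obtain rfl : w = [] := List.length_eq_zero_iff.mp (by simp at hw; simpa using hw)
      fin_cases a <;> simp [wt] <;> omega
  · rw [hFe] at hFG
    simp only [Ring.lie_def] at hFG ⊢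
    rw [smul_mul_assoc, mul_smul_comm, ← smul_sub] at hFG
    exact hFG

/-- The `U` chain. -/
theorem chainU {Fy : NC (Fin 2) K} (hFy : ∀ W, wt ![i, i + l] W ≠ j → Fy W = 0)
    (hyF : comp j Q = subst ![comp i (P : NC X K), u] Fy) {k : ℕ} {μ : K} (hμ : μ ≠ 0)
    (hFyk : Fy = μ • (adp (2 * k) : NC (Fin 2) K))
    {l' s0 : ℕ} (hl' : l < l') (hl'2 : l' < 2 * l) (hs0 : 1 ≤ s0) {Y : NC X K} (hY : Y ∈ SS P U₁)
    (hYo : Ord (j + s0) (Q - Y)) {W₀ : NC X K} (hW₀ : W₀ ∈ SS P U₁) (hW₀o : Ord (i + l') W₀)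
    (hW₀U : Ord (i + l' + 1) (U - W₀)) (s : ℕ) (hs : l' + 1 ≤ s) (hs1 : s ≤ l' + s0)
    (hs2 : s ≤ 2 * l) :
    ∃ W ∈ SS P U₁, Ord (i + l') W ∧ comp (i + l') W = comp (i + l') U ∧ Ord (i + s) (U - W) := by
  induction s, hs using Nat.le_induction with
  | base =>
    refine ⟨W₀, hW₀, hW₀o, ?_, hW₀U⟩
    have := comp_of_ord hW₀U (show i + l' < i + l' + 1 by omega)
    rw [comp_sub] at this
    exact (sub_eq_zero.mp this).symm
  | succ s hs ih =>
    obtain ⟨W, hW, hWo, hWc, hWU⟩ := ih (by omega) (by omega)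
    have hi := H.hi
    have hij := H.hij
    have hR : Ord (i + j + s + 1) (⁅W, Q - Y⁆ + ⁅u, v⁆) := by
      refine Ord.add (Ord.mono ?_ (br_lead hWo hYo).1) (Ord.mono ?_ (ord_hom (H.uH.lie H.vH)))
      · omega
      · omega
    have hex := H.exU (N := i + j + 2 * l + 1) rfl hY hW
    rw [add_assoc (⁅U - W, Q⁆)] at hex
    obtain ⟨e, c, G, h1, h2, h3, h4⟩ := H.stepU (s := s) (by omega) (by omega) hWU
      (H.hU.sub (H.SS_lie hW).1) hR (N := i + j + 2 * l + 1) (by omega) hex hFy hyF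
    by_cases hc : c = 0
    · refine ⟨W, hW, hWo, hWc, ?_⟩
      refine ord_succ (n := i + s) hWU ?_
      rw [h1, hc, zero_smul]
    · have he : Even e := by
        obtain ⟨NG, hNG⟩ := h3
        refine adp_even e k ((c * μ)⁻¹ • G) ⟨NG, fun w hw => by rw [NC.smul_apply, hNG w hw, smul_zero]⟩ ?_
        rw [hFyk] at h4
        have h5 := congrArg (fun f => (c * μ)⁻¹ • f) h4
        simp only [Ring.lie_def, smul_add, smul_zero] at h5 ⊢
        rw [← h5]
        congr 1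
        · rw [mul_smul_comm, smul_mul_assoc, smul_sub]
        · rw [mul_smul_comm, smul_mul_assoc, ← smul_sub, smul_smul, smul_smul, mul_assoc,
            inv_mul_cancel₀ (mul_ne_zero hc hμ), one_smul]
      obtain ⟨e', rfl⟩ := he
      rw [← two_mul] at h1 h2
      have hd := h2 hc
      have h6 := H.iter_lead (2 * e')
      rw [hd] at h6
      refine ⟨W + c • (cS P)^[2 * e'] U₁, (SS P U₁).add_mem hW ((SS P U₁).smul_mem _ (H.iter_mem e')),
        Ord.add hWo (Ord.smul c (Ord.mono (by omega) h6.1)), ?_, ?_⟩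
      · rw [comp_add, comp_smul, comp_of_ord h6.1 (by omega), smul_zero, add_zero, hWc]
      · rw [← sub_sub]
        refine ord_succ (n := i + s) (hWU.sub (Ord.smul c h6.1)) ?_
        rw [comp_sub, comp_smul, h6.2.1, h1, sub_self]

/-- The situation of case 2 at the top level `s`. -/
theorem case2 (hU2 : ¬ Ord (i + 2 * l) U) : False := by
  have hi := H.hi
  have hl := H.hl
  have hij := H.hij
  obtain ⟨Fy, Fv, hFy, hFv, hyF, hvF, hFyL, hFvL, hyv⟩ := H.exY
  have hFy0 : Fy ≠ 0 := by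
    rintro rfl
    exact H.y0 (by rw [hyF, subst_zero _ H.xu.h0])
  -- the lowest level of `U`
  obtain ⟨l', hl'1, hl'2, hUo, hUl⟩ : ∃ l', l < l' ∧ l' < 2 * l ∧ Ord (i + l') U ∧
      comp (i + l') U ≠ 0 := by
    classical
    have hex : ∃ n, comp n U ≠ 0 := by
      by_contra h
      push Not at h
      exact hU2 (ord_of_comp fun m _ => h m)
    have h1 := Nat.find_spec hex
    have h2 : ∀ m < Nat.find hex, comp m U = 0 := fun m hm => by
      simpa using Nat.find_min hex hm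
    have h3 : i + l < Nat.find hex := by
      by_contra h
      exact h1 (comp_of_ord H.hUo (by omega))
    have h4 : Nat.find hex < i + 2 * l := by
      by_contra h
      exact hU2 (ord_of_comp fun m hm => h2 m (by omega))
    refine ⟨Nat.find hex - i, by omega, by omega, ?_, ?_⟩
    · rw [show i + (Nat.find hex - i) = Nat.find hex by omega]
      exact ord_of_comp h2
    · rw [show i + (Nat.find hex - i) = Nat.find hex by omega]
      exact h1
  obtain ⟨e, c, G, h1, h2, ⟨NG, hNG⟩, h4⟩ := H.stepU (s := l') hl'1 hl'2 hUo H.hU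
    (R := ⁅u, v⁆) (Ord.mono (by omega) (ord_hom (H.uH.lie H.vH))) (N := i + j + 2 * l + 1) (by omega)
    H.exB hFy hyF
  have hc : c ≠ 0 := by
    rintro rfl
    exact hUl (by rw [h1, zero_smul])
  have hdeg := h2 hc
  have he1 : 1 ≤ e := by
    rcases Nat.eq_zero_or_pos e with rfl | h
    · omega
    · exact h
  obtain ⟨NFv, hNFv⟩ := wt_bd hi (by omega) hFv
  obtain ⟨k, μ, hk, hμ, hFyk, ee⟩ := y_form i (i + l) j e hi (by omega) hij Fy Fv (c⁻¹ • G) hFyL hFy
    hFy0 ⟨NFv, hNFv⟩ ⟨NG, fun w hw => by rw [NC.smul_apply, hNG w hw, smul_zero]⟩ he1 hyv (by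
      have h5 := congrArg (fun f => c⁻¹ • f) h4
      simp only [Ring.lie_def, smul_add, smul_zero] at h5 ⊢
      rw [← h5]
      congr 1
      · rw [mul_smul_comm, smul_mul_assoc, smul_sub]
      · rw [smul_smul, inv_mul_cancel₀ hc, one_smul])
  obtain ⟨e', rfl⟩ := ee
  rw [← two_mul] at h1 hdeg he1
  -- degree of y
  have hdy : i + l + 2 * k * i = j := by
    have hL := H.iter_lead (2 * k)
    by_contra hne
    have hh := Pool.Agent.Helper59.Dynkin.subst_isHom ![comp i (P : NC X K), u] ![i, i + l]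
      H.xu.hd0 H.xu.hd j Fy hFy
    rw [hFyk, subst_smul _ H.xu.h0, ← hL.2.1] at hh
    have h0 : comp (i + l + 2 * k * i) ((cS P)^[2 * k] U₁) = 0 := by
      ext w
      by_cases hw : w.length = j
      · exact comp_isHom _ _ w (by omega)
      · have := hh w hw
        rw [NC.smul_apply, smul_eq_mul] at this
        exact (mul_eq_zero.mp this).resolve_left hμ
    rw [h0, smul_zero] at hh
    apply H.y0
    rw [hyF, hFyk, subst_smul _ H.xu.h0, ← hL.2.1, h0, smul_zero]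
  -- Z chain
  obtain ⟨s0, hs0, hs0l, Y, hY, hYo, Fz, Gz, hFz, hGz, hzF, hzeq, hzbad⟩ :
      ∃ s0, 1 ≤ s0 ∧ s0 ≤ l ∧ ∃ Y ∈ SS P U₁, Ord (j + s0) (Q - Y) ∧
      ∃ F G : NC (Fin 2) K, (∀ W, wt ![i, i + l] W ≠ j + s0 → F W = 0) ∧
        (∀ W, wt ![i, i + l] W ≠ j + l + s0 → G W = 0) ∧
        (s0 < l → comp (j + s0) (Q - Y) = subst ![comp i (P : NC X K), u] F) ∧
        ⁅(letter 0 : NC (Fin 2) K), G⁆ + ⁅(letter 1 : NC (Fin 2) K), F⁆ = 0 ∧
        (s0 < l → ∃ w : List (Fin 2), 2 ≤ w.count 1 ∧ F w ≠ 0) := by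
    have hL := H.iter_lead (2 * k)
    rw [hdy] at hL
    rcases H.chainZ (μ • (cS P)^[2 * k] U₁) ((SS P U₁).smul_mem _ (H.iter_mem k)) (by
      refine ord_succ (n := j) (H.hQo.sub (Ord.smul μ hL.1)) ?_
      rw [comp_sub, comp_smul, hL.2.1, hyF, hFyk, subst_smul _ H.xu.h0, sub_self]) l (by omega) le_rfl
      with ⟨s0, hs0, hs0l, Y, hY, hYo, F, G, hF, hG, hzF, hFG, hbad⟩ | ⟨Y, hY, hYo⟩
    · exact ⟨s0, hs0, hs0l.le, Y, hY, hYo, F, G, hF, hG, fun _ => hzF, hFG, fun _ => hbad⟩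
    · exact ⟨l, by omega, le_rfl, Y, hY, hYo, 0, 0, fun _ _ => rfl, fun _ _ => rfl,
        fun h => absurd h (lt_irrefl _), by simp [Ring.lie_def], fun h => absurd h (lt_irrefl _)⟩
  -- U chain
  have hLe := H.iter_lead (2 * e')
  rw [hdeg] at hLe
  obtain ⟨W, hW, hWo, hWc, hWU⟩ := H.chainU hFy hyF hμ hFyk hl'1 hl'2 hs0 hY hYo
    (W₀ := c • (cS P)^[2 * e'] U₁) ((SS P U₁).smul_mem _ (H.iter_mem e')) (Ord.smul c hLe.1) (by
      refine ord_succ (n := i + l') (hUo.sub (Ord.smul c hLe.1)) ?_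
      rw [comp_sub, comp_smul, hLe.2.1, h1, sub_self])
    (min (l' + s0) (2 * l)) (by rw [le_min_iff]; omega) (min_le_left _ _) (min_le_right _ _)
  obtain ⟨t, ht⟩ : ∃ t, t = min (l' + s0) (2 * l) := ⟨_, rfl⟩
  rw [← ht] at hWU
  have hUWL : IsLie (U - W) := H.hU.sub (H.SS_lie hW).1
  have hbUW := br_lead hWU H.hQo
  have hbWZ := br_lead hWo hYo
  have huvH : IsHom (i + 2 * l + j) ⁅u, v⁆ := by
    have := H.uH.lie H.vH
    rwa [show i + l + (j + l) = i + 2 * l + j by omega] at this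
  have hexW := H.exU (N := i + j + 2 * l + 1) rfl hY hW
  obtain ⟨NFz, hNFz⟩ := wt_bd hi (by omega) hFz
  obtain ⟨NGz, hNGz⟩ := wt_bd hi (by omega) hGz
  have e1 : ⁅u, v⁆ = subst ![comp i (P : NC X K), u] ⁅(letter 1 : NC (Fin 2) K), Fv⁆ := by
    rw [Pool.Agent.Helper59.Dynkin.subst_lie _ H.xu.h0, H.xu.s1, ← hvF]
  have hyv' : ⁅(letter 0 : NC (Fin 2) K), μ⁻¹ • Fv⁆ +
      ⁅(letter 1 : NC (Fin 2) K), (adp (2 * k) : NC (Fin 2) K)⁆ = 0 := by
    have h5 := congrArg (fun f => μ⁻¹ • f) hyv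
    rw [hFyk] at h5
    simp only [Ring.lie_def, smul_add, smul_zero] at h5 ⊢
    rw [← h5]
    congr 1
    · rw [mul_smul_comm, smul_mul_assoc, smul_sub]
    · rw [mul_smul_comm, smul_mul_assoc, ← smul_sub, smul_smul, inv_mul_cancel₀ hμ, one_smul]
  rcases Nat.lt_trichotomy (l' + s0) (2 * l) with hlt | heq | hgt
  · -- case 2a
    have ht' : t = l' + s0 := by rw [ht]; exact min_eq_left hlt.le
    subst ht'
    have hs0l' : s0 < l := by omega
    obtain ⟨V', hV'L, hV'H, hV'⟩ := H.lead (n := i + (l' + s0) + j) (N := i + j + 2 * l + 1) (by omega)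
      (by omega) hexW (Ord.add (Ord.add hbUW.1 (Ord.mono (by omega) hbWZ.1))
        (Ord.mono (by omega) (ord_hom huvH)))
    rw [comp_add, comp_add, hbUW.2, show i + (l' + s0) + j = i + l' + (j + s0) by omega, hbWZ.2,
      comp_eq_zero huvH (by omega), add_zero, hyF, hWc, h1, hzF hs0l', ← subst_smul _ H.xu.h0,
      ← Pool.Agent.Helper59.Dynkin.subst_lie _ H.xu.h0] at hV'
    obtain ⟨F, G', hF, hG', hUF, hVG, hFL, hGL, hFG⟩ := corW H.xu (j := j) (a := i + (l' + s0))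
      (b := j + (l' + s0)) (Fy := Fy) (Ff := ⁅c • (adp (2 * e') : NC (Fin 2) K), Fz⁆) (by omega) (by omega)
      (by omega) hFy (hyF ▸ H.yL) hFy0 (by
        have := wt_lie (wt_smul_adp i (i + l) (2 * e') c) hFz
        intro W hW
        exact this W (by rw [hdeg]; omega))
      (comp_isHom _ _) (hUWL.comp _)
      (by rwa [show i + (l' + s0) + j - i = j + (l' + s0) by omega] at hV'H) hV'L hV'
    obtain ⟨e2, c2, hFe, he2⟩ := adp_of_lie i (i + l) (i + (l' + s0)) hi (by omega) (by omega)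
      (by omega) (by omega) F hF hFL
    obtain ⟨NG', hNG'⟩ := wt_bd hi (by omega) hG'
    obtain ⟨w, hw1, hw2⟩ := hzbad hs0l'
    refine hw2 (z_low (2 * e') e2 (2 * k) (c⁻¹ * c2 * μ) (by omega) Fz Gz (c⁻¹ • G') ⟨NFz, hNFz⟩
      ⟨NGz, hNGz⟩ ⟨NG', fun w hw => by rw [NC.smul_apply, hNG' w hw, smul_zero]⟩ hzeq ?_ w hw1)
    have h5 := congrArg (fun f => c⁻¹ • f) hFG
    rw [hFe, hFyk] at h5
    simp only [Ring.lie_def, smul_add, smul_zero] at h5 ⊢
    rw [← h5]
    congr 1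
    · congr 1
      · rw [mul_smul_comm, smul_mul_assoc, smul_sub]
      · rw [smul_mul_smul_comm, smul_mul_smul_comm, mul_comm μ c2, ← smul_sub, smul_smul]
        congr 1; ring
    · rw [smul_mul_assoc, mul_smul_comm, ← smul_sub, smul_smul, inv_mul_cancel₀ hc, one_smul]
  · -- case 2b
    have ht' : t = 2 * l := by rw [ht]; exact min_eq_right heq.ge
    subst ht'
    have hs0l' : s0 < l := by omega
    obtain ⟨V', hV'L, hV'H, hV'⟩ := H.lead (n := i + 2 * l + j) (N := i + j + 2 * l + 1) (by omega)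
      (by omega) hexW (Ord.add (Ord.add hbUW.1 (Ord.mono (by omega) hbWZ.1)) (ord_hom huvH))
    rw [comp_add, comp_add, hbUW.2, comp_eq_self huvH, show i + 2 * l + j = i + l' + (j + s0) by omega,
      hbWZ.2, hyF, hWc, h1, hzF hs0l', ← subst_smul _ H.xu.h0,
      ← Pool.Agent.Helper59.Dynkin.subst_lie _ H.xu.h0, e1,
      add_assoc ⁅comp (i + 2 * l) (U - W), _⁆, ← subst_add _ H.xu.h0] at hV'
    obtain ⟨F, G', hF, hG', hUF, hVG, hFL, hGL, hFG⟩ := corW H.xu (j := j) (a := i + 2 * l)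
      (b := j + 2 * l) (Fy := Fy) (Ff := ⁅c • (adp (2 * e') : NC (Fin 2) K), Fz⁆ +
        ⁅(letter 1 : NC (Fin 2) K), Fv⁆) (by omega) (by omega)
      (by omega) hFy (hyF ▸ H.yL) hFy0 (by
        have h3 := wt_lie (wt_smul_adp i (i + l) (2 * e') c) hFz
        have h5 := wt_lie (wt_letter i (i + l) 1) hFv
        intro W hW
        rw [NC.add_apply, h3 W (by rw [hdeg]; omega), h5 W (by simp; omega), add_zero])
      (comp_isHom _ _) (hUWL.comp _)
      (by rwa [show i + 2 * l + j - i = j + 2 * l by omega] at hV'H) hV'L hV'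
    obtain ⟨e2, c2, hFe, he2⟩ := adp_of_lie i (i + l) (i + 2 * l) hi (by omega) (by omega)
      (by omega) (by omega) F hF hFL
    obtain ⟨NG', hNG'⟩ := wt_bd hi (by omega) hG'
    refine no_top (2 * e') e2 k c2 (μ⁻¹ * c) hk Fz (μ⁻¹ • Fv) (μ⁻¹ • G') Gz ⟨NFz, hNFz⟩
      ⟨NFv, fun w hw => by rw [NC.smul_apply, hNFv w hw, smul_zero]⟩
      ⟨NG', fun w hw => by rw [NC.smul_apply, hNG' w hw, smul_zero]⟩ ⟨NGz, hNGz⟩ hyv' hzeq ?_
    have h5 := congrArg (fun f => μ⁻¹ • f) hFG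
    rw [hFe, hFyk] at h5
    simp only [Ring.lie_def, smul_add, smul_zero] at h5 ⊢
    rw [← h5, ← add_assoc]
    congr 1
    · congr 1
      · congr 1
        · rw [mul_smul_comm, smul_mul_assoc, smul_sub]
        · rw [smul_mul_smul_comm, smul_mul_smul_comm, mul_comm μ c2, ← smul_sub, smul_smul]
          congr 1; field_simp
      · rw [smul_mul_assoc, mul_smul_comm, ← smul_sub, smul_smul]
    · rw [mul_smul_comm, smul_mul_assoc, smul_sub]
  · -- case 2c
    have ht' : t = 2 * l := by rw [ht]; exact min_eq_right hgt.le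
    subst ht'
    obtain ⟨V', hV'L, hV'H, hV'⟩ := H.lead (n := i + 2 * l + j) (N := i + j + 2 * l + 1) (by omega)
      (by omega) hexW (Ord.add (Ord.add hbUW.1 (Ord.mono (by omega) hbWZ.1)) (ord_hom huvH))
    rw [comp_add, comp_add, hbUW.2, comp_eq_self huvH, comp_of_ord hbWZ.1 (by omega), hyF, e1,
      add_zero] at hV'
    obtain ⟨F, G', hF, hG', hUF, hVG, hFL, hGL, hFG⟩ := corW H.xu (j := j) (a := i + 2 * l)
      (b := j + 2 * l) (Fy := Fy) (Ff := ⁅(letter 1 : NC (Fin 2) K), Fv⁆) (by omega) (by omega)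
      (by omega) hFy (hyF ▸ H.yL) hFy0 (by
        have h5 := wt_lie (wt_letter i (i + l) 1) hFv
        intro W hW
        rw [h5 W (by simp; omega)])
      (comp_isHom _ _) (hUWL.comp _)
      (by rwa [show i + 2 * l + j - i = j + 2 * l by omega] at hV'H) hV'L hV'
    obtain ⟨e2, c2, hFe, he2⟩ := adp_of_lie i (i + l) (i + 2 * l) hi (by omega) (by omega)
      (by omega) (by omega) F hF hFL
    obtain ⟨NG', hNG'⟩ := wt_bd hi (by omega) hG'
    refine no_top 0 e2 k c2 0 hk 0 (μ⁻¹ • Fv) (μ⁻¹ • G') 0 ⟨0, fun _ _ => rfl⟩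
      ⟨NFv, fun w hw => by rw [NC.smul_apply, hNFv w hw, smul_zero]⟩
      ⟨NG', fun w hw => by rw [NC.smul_apply, hNG' w hw, smul_zero]⟩ ⟨0, fun _ _ => rfl⟩ hyv'
      (by simp [Ring.lie_def]) ?_
    have h5 := congrArg (fun f => μ⁻¹ • f) hFG
    rw [hFe, hFyk] at h5
    simp only [Ring.lie_def, smul_add, smul_zero] at h5 ⊢
    rw [← h5, zero_smul, add_zero]
    congr 1
    · congr 1
      · rw [mul_smul_comm, smul_mul_assoc, smul_sub]
      · rw [smul_mul_smul_comm, smul_mul_smul_comm, mul_comm μ c2, ← smul_sub, smul_smul]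
        congr 1; field_simp
    · rw [mul_smul_comm, smul_mul_assoc, smul_sub]

theorem false : False := by
  by_cases h : Ord (i + 2 * l) U
  · exact H.case1 h
  · exact H.case2 h

end ED

end Pool.Agent.Helper7.Comm
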