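import Pool.Agent.Helper7.Comm.StepBase
import Pool.Agent.Helper7.Comm.PropEC
import Pool.Agent.Helper88.PropE

set_option autoImplicit false

/-! # The exceptional levels are automatically bounded -/

namespace Pool.Agent.Helper7.Comm

open NC Pool.Agent.Helper57.Reduce Pool.Agent.Helper57.ConjTools

section kernel

variable {X : Type} [Fintype X] [DecidableEq X] {K : Type} [Field K] [CharZero K]

/-- The kernel at an exceptional level is at most one-dimensional. -/
theorem ker_one_dim {i j l : ℕ} (hi : 0 < i) (hl : 0 < l) (hij : i + l < j)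
    {x₀ y₀ u v u' v' : NC X K} (hx : IsHom i x₀) (hxL : IsLie x₀) (hx0 : x₀ ≠ 0)
    (hy : IsHom j y₀) (hyL : IsLie y₀) (hy0 : y₀ ≠ 0)
    (hu : IsHom (i + l) u) (huL : IsLie u) (hv : IsHom (j + l) v) (hvL : IsLie v)
    (hu' : IsHom (i + l) u') (huL' : IsLie u') (hv' : IsHom (j + l) v') (hvL' : IsLie v')
    (h : ⁅x₀, v⁆ + ⁅u, y₀⁆ = 0) (h' : ⁅x₀, v'⁆ + ⁅u', y₀⁆ = 0) (hu0 : u ≠ 0) :
    ∃ c : K, u' = c • u ∧ v' = c • v := by
  have H : XU i (i + l) x₀ u := ⟨hi, by omega, hx, hxL, hx0, hu, huL, hu0⟩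
  obtain ⟨Fy, Fv, hFy, hFv, hyF, hvF, hFyL, hFvL, -⟩ := corE H (n := j) (b := j + l) (by omega)
    (by omega) hy hyL hv hvL (by rw [add_comm]; exact h)
  have hFy0 : Fy ≠ 0 := by
    rintro rfl
    exact hy0 (by rw [hyF, subst_zero _ H.h0])
  obtain ⟨F, G, hF, hG, hUF, hVG, hFL, hGL, -⟩ := corW H (j := j) (a := i + l) (b := j + l)
    (Fy := Fy) (Ff := 0) (by omega) le_rfl (by omega) hFy (hyF ▸ hyL) hFy0 (fun _ _ => rfl)
    hu' huL' hv' hvL' (by rw [subst_zero _ H.h0, add_zero, ← hyF, add_comm]; exact h')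
  obtain ⟨e, c, hFe, he⟩ := Pool.Agent.Helper39.Comm.adp_of_lie i (i + l) (i + l) hi (by omega)
    (by omega) (by omega) (by omega) F hF hFL
  have hu'c : u' = c • u := by
    by_cases hc : c = 0
    · rw [hUF, hFe, hc, zero_smul, zero_smul, subst_zero _ H.h0]
    · have h1 := he hc
      have h2 : e = 0 := by
        rcases Nat.eq_zero_or_pos e with h3 | h3
        · exact h3
        · have := Nat.mul_pos h3 hi
          omega
      subst h2
      rw [hUF, hFe, subst_smul _ H.h0]
      congr 1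
      exact H.s1
  refine ⟨c, hu'c, ?_⟩
  have h3 : ⁅x₀, v' - c • v⁆ = 0 := by
    simp only [Ring.lie_def] at h h' ⊢
    rw [hu'c] at h'
    have h4 := congrArg (fun f => c • f) h
    simp only [smul_add, smul_sub, smul_zero] at h4
    have e1 : x₀ * (v' - c • v) - (v' - c • v) * x₀ =
        (x₀ * v' - v' * x₀ + (c • u * y₀ - y₀ * c • u)) -
        (c • (x₀ * v) - c • (v * x₀) + (c • (u * y₀) - c • (y₀ * u))) := by
      rw [mul_sub, sub_mul, mul_smul_comm, smul_mul_assoc, smul_mul_assoc, mul_smul_comm]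
      abel
    rw [e1, h', h4, sub_zero]
  exact sub_eq_zero.mp (ad_inj hi (show 0 < j + l by omega) (by omega) hx hxL hx0
    (hv'.sub (hv.smul c)) (hvL'.sub (hvL.smul c)) h3)

end kernel

variable {r : ℕ} {E : FreeGroup (Fin r) →* (NC (Fin r) ℚ)ˣ}

theorem exists_al {X : Type} {B : ℕ → ℕ} (f : NC X UF) (h : ∀ w, f w ∈ KK B) :
    ∃ a : NC X (KK B), f = al a := by
  choose a ha using fun w => KK_range.mpr (h w)
  exact ⟨⟨a⟩, by ext w; exact (ha w).symm⟩

theorem comp_KK {X : Type} {B : ℕ → ℕ} {n : ℕ} {f : NC X UF}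
    (h : ∀ w : List X, w.length = n → f w ∈ KK B) (w : List X) : comp n f w ∈ KK B := by
  rw [comp_apply]
  split_ifs with hw
  · exact h w hw
  · exact zero_mem _

theorem stepE {c : ℕ} (hE : IsExpMag E) {B : ℕ → ℕ}
    {g : ℕ → FreeGroup (Fin r)} {i j l : ℕ} {x y : ℕ → FreeGroup (Fin r)}
    (H : State c E B g i j l x y) (hl : 0 < l) (hlc : i + j + 2 * l ≤ c) (hEt : i + l < j) :
    State c E B g i j (l + 1) x y := by
  classical
  have hi := H.hi
  have hij := H.hij
  have hxK : ∀ w : List (Fin r), w.length < i + l → EX E x w ∈ Set.range (algebraMap (KK B) UF) :=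
    fun w hw => KK_range.mpr (EX_KK hE x w (H.bx w hw))
  have hyK : ∀ w : List (Fin r), w.length < j + l → EX E y w ∈ Set.range (algebraMap (KK B) UF) :=
    fun w hw => KK_range.mpr (EX_KK hE y w (H.by' w hw))
  have hgK : ∀ w : List (Fin r), EX E g w ∈ Set.range (algebraMap (KK B) UF) :=
    fun w => KK_range.mpr (H.hg w)
  obtain ⟨x₀, hx₀⟩ := exists_al (B := B) (comp i (EX E x)) (comp_KK fun w hw =>
    KK_range.mp (hxK w (by omega)))
  obtain ⟨y₀, hy₀⟩ := exists_al (B := B) (comp j (EX E y)) (comp_KK fun w hw =>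
    KK_range.mp (hyK w (by omega)))
  have hx₀H : IsHom i x₀ := by rw [← al_isHom (F := UF), ← hx₀]; exact comp_isHom _ _
  have hy₀H : IsHom j y₀ := by rw [← al_isHom (F := UF), ← hy₀]; exact comp_isHom _ _
  have hx₀L : IsLie x₀ := by
    rw [← al_isLie (F := UF), ← hx₀]; exact lead_lie hi (EX_gl hE x) (og_of_ord H.hx)
  have hy₀L : IsLie y₀ := by
    rw [← al_isLie (F := UF), ← hy₀]; exact lead_lie (by omega) (EX_gl hE y) (og_of_ord H.hy)
  have hx₀0 : x₀ ≠ 0 := by
    rintro rfl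
    apply H.hne
    rw [hx₀, al_zero]; simp [Ring.lie_def]
  have hy₀0 : y₀ ≠ 0 := by
    rintro rfl
    apply H.hne
    rw [hy₀, al_zero]; simp [Ring.lie_def]
  have hF1 : Finite {w : List (Fin r) // w.length = i + l} :=
    (List.finite_length_eq (Fin r) (i + l)).to_subtype
  have hF2 : Finite {w : List (Fin r) // w.length = j + l} :=
    (List.finite_length_eq (Fin r) (j + l)).to_subtype
  obtain ⟨s, ω, ρ, ρ₀, h1, h2, h3⟩ := lin_expand (K := KK B)
    (ι := {w : List (Fin r) // w.length = i + l} ⊕ {w : List (Fin r) // w.length = j + l})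
    (Sum.elim (fun w => EX E x w.1) (fun w => EX E y w.1))
  have hzx : ∀ w : List (Fin r), w.length = i + l → EX E x w = algebraMap (KK B) UF (ρ₀ (EX E x w)) +
      ∑ k, ω k * algebraMap (KK B) UF (ρ k (EX E x w)) := fun w hw => h3 (Sum.inl ⟨w, hw⟩)
  have hzy : ∀ w : List (Fin r), w.length = j + l → EX E y w = algebraMap (KK B) UF (ρ₀ (EX E y w)) +
      ∑ k, ω k * algebraMap (KK B) UF (ρ k (EX E y w)) := fun w hw => h3 (Sum.inr ⟨w, hw⟩)
  have hker : ∀ k, IsLie (comp (i + l) (rh (ρ k) (EX E x))) ∧ IsLie (comp (j + l) (rh (ρ k) (EX E y))) ∧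
      ⁅x₀, comp (j + l) (rh (ρ k) (EX E y))⁆ + ⁅comp (i + l) (rh (ρ k) (EX E x)), y₀⁆ = 0 := fun k =>
    level_ker i j l hi hij hl (EX E x) (EX E y) (EX E g) (EX_nil hE x) (EX_gl hE x) (EX_nil hE y)
      (EX_gl hE y) H.hx H.hy H.hgo (Ord.mono (by omega) H.heq) hgK hxK hyK x₀ y₀ hx₀ hy₀ (ρ k) (h2 k)
  -- it suffices to bound the new level
  suffices hmain : (∀ w : List (Fin r), w.length = i + l → EX E x w ∈ OO B) ∧
      (∀ w : List (Fin r), w.length = j + l → EX E y w ∈ OO B) by
    exact { H with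
      bx := fun w hw => by
        rcases Nat.lt_or_ge w.length (i + l) with h | h
        · exact H.bx w h
        · exact hmain.1 w (by omega)
      by' := fun w hw => by
        rcases Nat.lt_or_ge w.length (j + l) with h | h
        · exact H.by' w h
        · exact hmain.2 w (by omega) }
  by_cases hall : ∀ k, comp (i + l) (rh (ρ k) (EX E x)) = 0
  · have hv : ∀ k, comp (j + l) (rh (ρ k) (EX E y)) = 0 := by
      intro k
      have h4 := (hker k).2.2
      rw [hall k] at h4
      have h5 : ⁅x₀, comp (j + l) (rh (ρ k) (EX E y))⁆ = 0 := by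
        rw [← h4]; simp [Ring.lie_def]
      exact ad_inj hi (show 0 < j + l by omega) (by omega) hx₀H hx₀L hx₀0 (comp_isHom _ _)
        (hker k).2.1 h5
    have h4 : ∀ (n : ℕ) (f : NC (Fin r) UF) (k : Fin s), comp n (rh (ρ k) f) = 0 →
        ∀ w : List (Fin r), w.length = n → ρ k (f w) = 0 := by
      intro n f k h w hw
      have := congrArg (fun F : NC (Fin r) (KK B) => F w) h
      simpa [comp_apply, hw, rh_apply] using this
    constructor
    · intro w hw
      rw [hzx w hw]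
      have : ∀ k, ρ k (EX E x w) = 0 := fun k => h4 _ _ k (hall k) w hw
      simp only [this, map_zero, mul_zero, Finset.sum_const_zero, add_zero]
      exact KK_le_OO (ρ₀ (EX E x w)).2
    · intro w hw
      rw [hzy w hw]
      have : ∀ k, ρ k (EX E y w) = 0 := fun k => h4 _ _ k (hv k) w hw
      simp only [this, map_zero, mul_zero, Finset.sum_const_zero, add_zero]
      exact KK_le_OO (ρ₀ (EX E y w)).2
  push Not at hall
  obtain ⟨k₀, hk₀⟩ := hall
  set u := comp (i + l) (rh (ρ k₀) (EX E x)) with hu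
  set v := comp (j + l) (rh (ρ k₀) (EX E y)) with hv
  have hdim : ∀ k, ∃ c : KK B, comp (i + l) (rh (ρ k) (EX E x)) = c • u ∧
      comp (j + l) (rh (ρ k) (EX E y)) = c • v := fun k =>
    ker_one_dim hi hl hEt hx₀H hx₀L hx₀0 hy₀H hy₀L hy₀0 (comp_isHom _ _) (hker k₀).1 (comp_isHom _ _)
      (hker k₀).2.1 (comp_isHom _ _) (hker k).1 (comp_isHom _ _) (hker k).2.1 (hker k₀).2.2
      (hker k).2.2 hk₀
  choose cc hcc using hdim
  set t : UF := ∑ k, ω k * algebraMap (KK B) UF (cc k) with ht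
  have hxt : ∀ w : List (Fin r), w.length = i + l → EX E x w =
      algebraMap (KK B) UF (rh ρ₀ (EX E x) w) + t * algebraMap (KK B) UF (u w) := by
    intro w hw
    rw [hzx w hw, rh_apply, ht, Finset.sum_mul]
    congr 1
    refine Finset.sum_congr rfl fun k _ => ?_
    have h4 : ρ k (EX E x w) = cc k * u w := by
      have := congrArg (fun F : NC (Fin r) (KK B) => F w) (hcc k).1
      simpa [comp_apply, hw, rh_apply] using this
    rw [h4, map_mul]; ring
  have hyt : ∀ w : List (Fin r), w.length = j + l → EX E y w =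
      algebraMap (KK B) UF (rh ρ₀ (EX E y) w) + t * algebraMap (KK B) UF (v w) := by
    intro w hw
    rw [hzy w hw, rh_apply, ht, Finset.sum_mul]
    congr 1
    refine Finset.sum_congr rfl fun k _ => ?_
    have h4 : ρ k (EX E y w) = cc k * v w := by
      have := congrArg (fun F : NC (Fin r) (KK B) => F w) (hcc k).2
      simpa [comp_apply, hw, rh_apply] using this
    rw [h4, map_mul]; ring
  by_cases htO : t ∈ OO B
  · constructor
    · intro w hw
      rw [hxt w hw]
      exact add_mem (KK_le_OO (rh ρ₀ (EX E x) w).2) (mul_mem htO (KK_le_OO (u w).2))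
    · intro w hw
      rw [hyt w hw]
      exact add_mem (KK_le_OO (rh ρ₀ (EX E y) w).2) (mul_mem htO (KK_le_OO (v w).2))
  exfalso
  obtain ⟨φ, φ₁, g1, g2, g3, g4, g5⟩ := exists_functionals htO
  obtain ⟨P, hP0, hPg, hPx⟩ := base_unit hE x (i + l) (by omega) H.bx
  have hPi : Ord i ((P : NC (Fin r) (KK B)) - 1) := by
    rw [← al_ord (F := UF), al_sub, al_one]
    have : (al (P : NC (Fin r) (KK B)) : NC (Fin r) UF) - 1 =
        (EX E x - 1) - (EX E x - al (P : NC (Fin r) (KK B))) := by abel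
    rw [this]
    exact H.hx.sub (Ord.mono (by omega) hPx)
  have hPc : comp i (P : NC (Fin r) (KK B)) = x₀ := by
    apply al_inj (F := UF)
    rw [al_comp, ← hx₀]
    have h4 := comp_of_ord hPx (show i < i + l by omega)
    rw [comp_sub] at h4
    exact (sub_eq_zero.mp h4).symm
  obtain ⟨Q, U₁, V₁, U, V, q1, q2, q3, q4, q5, q6, q7, q8, q9, q10, q11, q12, q13, q14, q15⟩ :=
    Pool.Agent.Helper88.propE_reduce i j l hi hl hEt P hP0 hPi hPg (EX E x) (EX E y) (EX E g)
      (EX_nil hE x) (EX_gl hE x) (EX_nil hE y) (EX_gl hE y) H.hy (Ord.mono (by omega) H.heq) H.hgo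
      (fun w _ => hgK w) hPx hyK t (rh ρ₀ (EX E x)) (rh ρ₀ (EX E y)) u v hxt hyt φ φ₁ g1 g2 g3 g4 g5
  rw [comp_eq_self (comp_isHom _ _)] at q12 q13
  rw [comp_eq_self (comp_isHom _ _), comp_eq_self (comp_isHom _ _)] at q15
  have hQy : comp j Q = y₀ := by
    apply al_inj (F := UF)
    rw [al_comp, ← hy₀]
    ext w
    rw [comp_apply, comp_apply]
    split_ifs with hw
    · exact q7 w hw
    · rfl
  have hD : ED i j l P Q U₁ V₁ U V u v :=
    { hi := hi, hl := hl, hij := hEt, hP0 := hP0, hP := hPi, hPg := hPg, hQ := q1, hU₁ := q2,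
      hV₁ := q3, hU := q4, hV := q5, hQo := q6, hU₁o := q8, hV₁o := q9, hUo := q10, hVo := q11,
      hu := q12, hv := q13, hne := by
        rw [hPc, hQy]
        intro h
        apply H.hne
        rw [hx₀, hy₀, ← al_lie, h, al_zero]
      hA := q14, hB := q15, huv := Or.inl hk₀ }
  exact hD.false

end Pool.Agent.Helper7.Comm
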