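import Pool.Agent.Helper42.Comm.StepN
import Pool.Agent.Helper7.Comm.StepE
import Pool.Agent.Helper62.Comm.StepF
import Pool.Agent.Helper62.Comm.Words
import Pool.Agent.Helper62.Comm.Init
import Pool.Agent.Helper50.Comm.MagnusCrit
import Pool.Agent.Helper69.MagnusComputable
import Pool.Agent.Helper88.ExpMag

set_option autoImplicit false

/-! # The bound and the decidability theorem -/

namespace Pool.Agent.Helper7.Comm

open NC Pool.Agent.Helper57.Reduce Pool.Agent.Helper42.StepN Pool.Agent.Helper62.Comm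
open scoped commutatorElement

/-- All levels can be made bounded. -/
theorem state_climb {r c : ℕ} {E : FreeGroup (Fin r) →* (NC (Fin r) ℚ)ˣ} (hE : IsExpMag E)
    {B : ℕ → ℕ} {g : ℕ → FreeGroup (Fin r)} {i j : ℕ} {x y : ℕ → FreeGroup (Fin r)}
    (H : State c E B g i j 1 x y) (l : ℕ) (hl : 1 ≤ l) (hlc : i + j + 2 * (l - 1) ≤ c) :
    ∃ x' y', State c E B g i j l x' y' := by
  induction l, hl using Nat.le_induction with
  | base => exact ⟨x, y, H⟩
  | succ l hl ih =>
    obtain ⟨x', y', H'⟩ := ih (by omega)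
    rcases Nat.lt_or_ge (i + l) j with h | h
    · exact ⟨x', y', stepE hE H' (by omega) (by omega) h⟩
    · exact stepN hE H' (by omega) (by omega) h

theorem state_words {r c : ℕ} {E : FreeGroup (Fin r) →* (NC (Fin r) ℚ)ˣ} (hE : IsExpMag E)
    {B : ℕ → ℕ} {g : ℕ → FreeGroup (Fin r)} {i j : ℕ} {x y : ℕ → FreeGroup (Fin r)}
    (H : State c E B g i j 1 x y) :
    ∃ k : ℕ, ∀ᶠ n in (Filter.hyperfilter ℕ : Filter ℕ), ∃ u v : List (Fin r × Bool),
      u.length ≤ (B n + 2) ^ k ∧ v.length ≤ (B n + 2) ^ k ∧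
      ⁅FreeGroup.mk u, FreeGroup.mk v⁆ * (g n)⁻¹ ∈ Gam (fun _ : Fin r => 1) (c + 1) := by
  have hc := H.hc
  obtain ⟨x', y', H'⟩ := state_climb hE H ((c - i - j) / 2 + 1) (by omega) (by omega)
  obtain ⟨x'', y'', H''⟩ := stepF hE H' (by omega) (by omega)
  exact words_of_state hE H''

theorem exists_isExpMag (r : ℕ) : ∃ E : FreeGroup (Fin r) →* (NC (Fin r) ℚ)ˣ, IsExpMag E := by
  obtain ⟨E, h1, h2, h3, h4, h5⟩ := Pool.Agent.Helper88.ExpMag.exists_expMag (Fin r)
  exact ⟨E, h2, h3, h4, h5, fun g n => Pool.Agent.Helper50.Comm.mem_gam_iff_exp r n E h1 g⟩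

theorem bound (r c : ℕ) : ∃ C : ℕ, ∀ w : List (Fin r × Bool),
    (∃ x y : FreeGroup (Fin r), ⁅x, y⁆ * (FreeGroup.mk w)⁻¹ ∈ Gam (fun _ : Fin r => 1) (c + 1)) →
    ∃ u v : List (Fin r × Bool), u.length ≤ C * (w.length + 1) ^ C ∧ v.length ≤ C * (w.length + 1) ^ C ∧
      ⁅FreeGroup.mk u, FreeGroup.mk v⁆ * (FreeGroup.mk w)⁻¹ ∈ Gam (fun _ : Fin r => 1) (c + 1) := by
  obtain ⟨E, hE⟩ := exists_isExpMag r
  by_contra hcon
  push Not at hcon
  choose w hw hbad using hcon
  choose x y hxy using hw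
  set g : ℕ → FreeGroup (Fin r) := fun n => FreeGroup.mk (w n) with hg
  set B : ℕ → ℕ := fun n => (w n).length with hB
  -- the target is not trivial
  have hgn : ∀ n, g n ∉ Gam (fun _ : Fin r => 1) (c + 1) := by
    intro n hn
    refine hbad n [] [] (by simp) (by simp) ?_
    have : (⁅(FreeGroup.mk [] : FreeGroup (Fin r)), FreeGroup.mk []⁆ : FreeGroup (Fin r)) = 1 := by
      rw [← FreeGroup.one_eq_mk]; simp
    rw [this, one_mul]
    exact inv_mem hn
  -- bounded coefficients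
  have hgO : ∀ v, EX E g v ∈ KK B := by
    intro v
    refine EX_KK hE g v ?_
    obtain ⟨C, hC⟩ := hE.hgrow v.length
    have hle : ∀ n, |((E (g n) : (NC (Fin r) ℚ)ˣ) : NC (Fin r) ℚ) v| ≤ ((B n : ℚ) + 2) ^ (C + C) := by
      intro n
      have h1 := hC (w n) v le_rfl
      have h2 : (0 : ℚ) ≤ (w n).length := Nat.cast_nonneg _
      have h3 : (C : ℚ) ≤ ((w n).length + 2 : ℚ) ^ C := by
        calc (C : ℚ) ≤ 2 ^ C := by exact_mod_cast (Nat.lt_two_pow_self).le
          _ ≤ ((w n).length + 2 : ℚ) ^ C := pow_le_pow_left₀ (by norm_num) (by linarith) _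
      calc _ ≤ (C : ℚ) * ((w n).length + 1 : ℚ) ^ C := h1
        _ ≤ ((w n).length + 2 : ℚ) ^ C * ((w n).length + 2 : ℚ) ^ C := by
            apply mul_le_mul h3 (pow_le_pow_left₀ (by linarith) (by linarith) _)
            · positivity
            · positivity
        _ = ((B n : ℚ) + 2) ^ (C + C) := by rw [pow_add]
    refine ⟨C + C, ?_⟩
    change |ger _| ≤ _
    rw [← ger_abs, bse, ← ger_pow, ger_le]
    exact Filter.Eventually.of_forall hle
  obtain ⟨i, j, x', y', H⟩ := init hE hgO hxy hgn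
  obtain ⟨k, hk⟩ := state_words hE H
  have hinf : ∀ᶠ n in (Filter.hyperfilter ℕ : Filter ℕ), 2 ^ k + k ≤ n := by
    apply Filter.hyperfilter_le_cofinite
    rw [Filter.mem_cofinite]
    exact (Set.finite_lt_nat (2 ^ k + k)).subset fun n hn => by
      simpa using hn
  obtain ⟨n, ⟨u, v, hu, hv, huv⟩, hn⟩ := (hk.and hinf).exists
  have h2k : 0 < 2 ^ k := by positivity
  have hle : (B n + 2) ^ k ≤ n * ((w n).length + 1) ^ n := by
    calc (B n + 2) ^ k ≤ (2 * ((w n).length + 1)) ^ k := Nat.pow_le_pow_left (by simp only [hB]; omega) _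
      _ = 2 ^ k * ((w n).length + 1) ^ k := mul_pow _ _ _
      _ ≤ n * ((w n).length + 1) ^ n := Nat.mul_le_mul (by omega)
          (Nat.pow_le_pow_right (by omega) (by omega))
  exact hbad n u v (hu.trans hle) (hv.trans hle) huv

theorem main (r c : ℕ) : ComputablePred (fun w : List (Fin r × Bool) =>
    ∃ x y : FreeGroup (Fin r) ⧸ (⊤ : Subgroup (FreeGroup (Fin r))).lowerCentralSeries c,
      ⁅x, y⁆ = QuotientGroup.mk (FreeGroup.mk w)) := by
  obtain ⟨C, hC⟩ := bound r c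
  have hgam : ∀ g : FreeGroup (Fin r), g ∈ Gam (fun _ : Fin r => 1) (c + 1) ↔
      g ∈ (⊤ : Subgroup (FreeGroup (Fin r))).lowerCentralSeries c := by
    intro g
    rw [Pool.Agent.Helper49.MagnusW.gam_one_succ]
  refine Pool.Agent.Helper69.MagnusComputable.computable_of_bound r c C (Pool.Agent.Helper50.Comm.hmem r c) ?_
  rintro w ⟨x, y, hxy⟩
  obtain ⟨x, rfl⟩ := QuotientGroup.mk_surjective x
  obtain ⟨y, rfl⟩ := QuotientGroup.mk_surjective y
  obtain ⟨u, v, hu, hv, huv⟩ := hC w ⟨x, y, by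
    rw [hgam]
    have h1 : (QuotientGroup.mk (⁅x, y⁆ * (FreeGroup.mk w)⁻¹) :
        FreeGroup (Fin r) ⧸ (⊤ : Subgroup (FreeGroup (Fin r))).lowerCentralSeries c) = 1 := by
      rw [QuotientGroup.mk_mul, QuotientGroup.mk_inv, ← hxy]
      simp only [commutatorElement_def, QuotientGroup.mk_mul, QuotientGroup.mk_inv]
      group
    exact (QuotientGroup.eq_one_iff _).mp h1⟩
  refine ⟨u, v, hu, hv, ?_⟩
  rw [← hgam]
  exact huv

end Pool.Agent.Helper7.Comm
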