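import Pool.Agent.Helper7.Comm.Defs2

set_option autoImplicit false

/-! # The ultrapower of `ℚ`, bounded elements, the small field -/

namespace Pool.Agent.Helper7.Comm

open NC Pool.Agent.Helper57.Reduce Filter

noncomputable section

/-- The ultrapower of `ℚ`. -/
abbrev UF : Type := Filter.Germ ((Filter.hyperfilter ℕ : Ultrafilter ℕ) : Filter ℕ) ℚ

/-- Germ of a sequence. -/
def ger (f : ℕ → ℚ) : UF := (f : Filter.Germ ((Filter.hyperfilter ℕ : Ultrafilter ℕ) : Filter ℕ) ℚ)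

/-- Coefficientwise germ of a sequence of series. -/
def gm {X : Type} (f : ℕ → NC X ℚ) : NC X UF := ⟨fun w => ger (fun n => f n w)⟩

/-- Constant series. -/
def gc {X : Type} (f : NC X ℚ) : NC X UF := gm (fun _ => f)

theorem ger_add (f g : ℕ → ℚ) : ger (fun n => f n + g n) = ger f + ger g := rfl
theorem ger_mul (f g : ℕ → ℚ) : ger (fun n => f n * g n) = ger f * ger g := rfl
theorem ger_neg (f : ℕ → ℚ) : ger (fun n => -f n) = -ger f := rfl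
theorem ger_sub (f g : ℕ → ℚ) : ger (fun n => f n - g n) = ger f - ger g := rfl
theorem ger_one : ger (fun _ => 1) = 1 := rfl
theorem ger_zero : ger (fun _ => 0) = 0 := rfl
theorem ger_abs (f : ℕ → ℚ) : ger (fun n => |f n|) = |ger f| := by
  rw [Filter.Germ.abs_def]; rfl
theorem ger_pow (f : ℕ → ℚ) (k : ℕ) : ger (fun n => f n ^ k) = ger f ^ k := rfl
theorem ger_eq (f g : ℕ → ℚ) : ger f = ger g ↔ ∀ᶠ n in (Filter.hyperfilter ℕ : Filter ℕ), f n = g n :=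
  Filter.Germ.coe_eq
theorem ger_le (f g : ℕ → ℚ) : ger f ≤ ger g ↔ ∀ᶠ n in (Filter.hyperfilter ℕ : Filter ℕ), f n ≤ g n :=
  Filter.Germ.coe_le
theorem ger_lt (f g : ℕ → ℚ) : ger f < ger g ↔ ∀ᶠ n in (Filter.hyperfilter ℕ : Filter ℕ), f n < g n :=
  Filter.Germ.coe_lt
theorem exists_ger (a : UF) : ∃ f : ℕ → ℚ, a = ger f := by
  induction a using Filter.Germ.inductionOn with
  | _ f => exact ⟨f, rfl⟩

/-- The base for growth: `B n + 2`. -/
def bse (B : ℕ → ℕ) : UF := ger (fun n => (B n : ℚ) + 2)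

theorem two_le_bse (B : ℕ → ℕ) : 2 ≤ bse B := by
  have : (2 : UF) = ger (fun _ => 2) := rfl
  rw [this, bse, ger_le]
  exact Filter.Eventually.of_forall fun n => by
    have : (0 : ℚ) ≤ B n := Nat.cast_nonneg _
    linarith

theorem bse_pow_mono (B : ℕ → ℕ) {k m : ℕ} (h : k ≤ m) : bse B ^ k ≤ bse B ^ m :=
  pow_le_pow_right₀ (le_trans (by norm_num) (two_le_bse B)) h

/-- Elements bounded by a standard power of the base. -/
def OO (B : ℕ → ℕ) : Subring UF where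
  carrier := {a | ∃ k : ℕ, |a| ≤ bse B ^ k}
  mul_mem' := by
    rintro a b ⟨k, hk⟩ ⟨m, hm⟩
    refine ⟨k + m, ?_⟩
    rw [abs_mul, pow_add]
    exact mul_le_mul hk hm (abs_nonneg _) (le_trans (abs_nonneg _) hk)
  one_mem' := ⟨0, by simp⟩
  add_mem' := by
    rintro a b ⟨k, hk⟩ ⟨m, hm⟩
    refine ⟨max k m + 1, ?_⟩
    have h1 := bse_pow_mono B (le_max_left k m)
    have h2 := bse_pow_mono B (le_max_right k m)
    have h3 := two_le_bse B
    have h4 : 0 ≤ bse B ^ (max k m) := pow_nonneg (le_trans (by norm_num) h3) _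
    calc |a + b| ≤ |a| + |b| := abs_add_le _ _
      _ ≤ bse B ^ (max k m) * 2 := by linarith
      _ ≤ bse B ^ (max k m) * bse B := mul_le_mul_of_nonneg_left h3 h4
      _ = bse B ^ (max k m + 1) := (pow_succ _ _).symm
  zero_mem' := ⟨0, by simp⟩
  neg_mem' := by
    rintro a ⟨k, hk⟩
    exact ⟨k, by rwa [abs_neg]⟩

theorem mem_OO {B : ℕ → ℕ} {a : UF} : a ∈ OO B ↔ ∃ k : ℕ, |a| ≤ bse B ^ k := Iff.rfl

theorem OO_of_le {B : ℕ → ℕ} {a b : UF} (hb : b ∈ OO B) (h : |a| ≤ |b|) : a ∈ OO B := by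
  obtain ⟨k, hk⟩ := hb
  exact ⟨k, h.trans hk⟩

/-- Germs of integer sequences. -/
def II : Subring UF where
  carrier := {a | ∃ z : ℕ → ℤ, a = ger (fun n => (z n : ℚ))}
  mul_mem' := by
    rintro a b ⟨z, rfl⟩ ⟨w, rfl⟩
    exact ⟨fun n => z n * w n, by rw [← ger_mul]; simp⟩
  one_mem' := ⟨fun _ => 1, by simp [ger_one]⟩
  add_mem' := by
    rintro a b ⟨z, rfl⟩ ⟨w, rfl⟩
    exact ⟨fun n => z n + w n, by rw [← ger_add]; simp⟩
  zero_mem' := ⟨fun _ => 0, by simp [ger_zero]⟩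
  neg_mem' := by
    rintro a ⟨z, rfl⟩
    exact ⟨fun n => -z n, by rw [← ger_neg]; simp⟩

theorem mem_II {a : UF} : a ∈ II ↔ ∃ z : ℕ → ℤ, a = ger (fun n => (z n : ℚ)) := Iff.rfl

theorem one_le_of_II {a : UF} (ha : a ∈ II) (h0 : a ≠ 0) : 1 ≤ |a| := by
  obtain ⟨z, rfl⟩ := ha
  have h1 : (1 : UF) = ger (fun _ => 1) := rfl
  rw [← ger_abs, h1, ger_le]
  have h2 : ∀ᶠ n in (Filter.hyperfilter ℕ : Filter ℕ), ¬ ((z n : ℚ) = 0) := by
    rw [Ultrafilter.eventually_not]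
    intro h
    exact h0 ((ger_eq _ _).mpr h)
  filter_upwards [h2] with n hn
  have : z n ≠ 0 := by exact_mod_cast hn
  have : (1 : ℤ) ≤ |z n| := Int.one_le_abs this
  exact_mod_cast this

/-- The small field: quotients of bounded integers. -/
def KK (B : ℕ → ℕ) : Subfield UF where
  carrier := {a | ∃ z w : UF, z ∈ II ∧ z ∈ OO B ∧ w ∈ II ∧ w ∈ OO B ∧ w ≠ 0 ∧ a * w = z}
  mul_mem' := by
    rintro a b ⟨z, w, hz, hz', hw, hw', hw0, h⟩ ⟨z2, w2, hz2, hz2', hw2, hw2', hw20, h2⟩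
    exact ⟨z * z2, w * w2, mul_mem hz hz2, mul_mem hz' hz2', mul_mem hw hw2, mul_mem hw' hw2',
      mul_ne_zero hw0 hw20, by rw [← h, ← h2]; ring⟩
  one_mem' := ⟨1, 1, one_mem _, one_mem _, one_mem _, one_mem _, one_ne_zero, by simp⟩
  add_mem' := by
    rintro a b ⟨z, w, hz, hz', hw, hw', hw0, h⟩ ⟨z2, w2, hz2, hz2', hw2, hw2', hw20, h2⟩
    exact ⟨z * w2 + z2 * w, w * w2, add_mem (mul_mem hz hw2) (mul_mem hz2 hw),
      add_mem (mul_mem hz' hw2') (mul_mem hz2' hw'), mul_mem hw hw2, mul_mem hw' hw2',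
      mul_ne_zero hw0 hw20, by rw [← h, ← h2]; ring⟩
  zero_mem' := ⟨0, 1, zero_mem _, zero_mem _, one_mem _, one_mem _, one_ne_zero, by simp⟩
  neg_mem' := by
    rintro a ⟨z, w, hz, hz', hw, hw', hw0, h⟩
    exact ⟨-z, w, neg_mem hz, neg_mem hz', hw, hw', hw0, by rw [← h]; ring⟩
  inv_mem' := by
    rintro a ⟨z, w, hz, hz', hw, hw', hw0, h⟩
    by_cases ha : a = 0
    · subst ha
      exact ⟨0, 1, zero_mem _, zero_mem _, one_mem _, one_mem _, one_ne_zero, by simp⟩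
    · refine ⟨w, z, hw, hw', hz, hz', ?_, ?_⟩
      · rw [← h]; exact mul_ne_zero ha hw0
      · rw [← h]; field_simp

theorem mem_KK {B : ℕ → ℕ} {a : UF} : a ∈ KK B ↔
    ∃ z w : UF, z ∈ II ∧ z ∈ OO B ∧ w ∈ II ∧ w ∈ OO B ∧ w ≠ 0 ∧ a * w = z := Iff.rfl

theorem KK_le_OO {B : ℕ → ℕ} {a : UF} (ha : a ∈ KK B) : a ∈ OO B := by
  obtain ⟨z, w, hz, hz', hw, hw', hw0, h⟩ := ha
  refine OO_of_le hz' ?_
  rw [← h, abs_mul]
  exact le_mul_of_one_le_right (abs_nonneg _) (one_le_of_II hw hw0)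

/-- Coefficients of the exponential Magnus image. -/
def EX {r : ℕ} (E : FreeGroup (Fin r) →* (NC (Fin r) ℚ)ˣ) (x : ℕ → FreeGroup (Fin r)) :
    NC (Fin r) UF := gm (fun n => ((E (x n) : (NC (Fin r) ℚ)ˣ) : NC (Fin r) ℚ))

/-- The properties of the exponential Magnus map used below. -/
structure IsExpMag {r : ℕ} (E : FreeGroup (Fin r) →* (NC (Fin r) ℚ)ˣ) : Prop where
  hnil : ∀ g, ((E g : (NC (Fin r) ℚ)ˣ) : NC (Fin r) ℚ) [] = 1
  hgl : ∀ g, Δ ((E g : (NC (Fin r) ℚ)ˣ) : NC (Fin r) ℚ) =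
    T1 ((E g : (NC (Fin r) ℚ)ˣ) : NC (Fin r) ℚ) * T2 ((E g : (NC (Fin r) ℚ)ˣ) : NC (Fin r) ℚ)
  hint : ∀ g (w : List (Fin r)), ∃ z : ℤ,
    ((w.length.factorial : ℕ) : ℚ) * ((E g : (NC (Fin r) ℚ)ˣ) : NC (Fin r) ℚ) w = z
  hgrow : ∀ c : ℕ, ∃ C : ℕ, ∀ (W : List (Fin r × Bool)) (w : List (Fin r)), w.length ≤ c →
    |((E (FreeGroup.mk W) : (NC (Fin r) ℚ)ˣ) : NC (Fin r) ℚ) w| ≤ C * ((W.length : ℚ) + 1) ^ C
  hgam : ∀ g n, g ∈ Gam (fun _ : Fin r => 1) n ↔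
    OrdGE (fun _ => 1) n (((E g : (NC (Fin r) ℚ)ˣ) : NC (Fin r) ℚ) - 1)

/-- The state of the construction: the pair `x, y` solves the equation modulo degree `> c`, has
leading degrees `i ≤ j` and its coefficients below level `l` are bounded. -/
structure State {r : ℕ} (c : ℕ) (E : FreeGroup (Fin r) →* (NC (Fin r) ℚ)ˣ) (B : ℕ → ℕ)
    (g : ℕ → FreeGroup (Fin r)) (i j l : ℕ) (x y : ℕ → FreeGroup (Fin r)) : Prop where
  hi : 0 < i
  hij : i ≤ j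
  hc : i + j ≤ c
  hx : Ord i (EX E x - 1)
  hy : Ord j (EX E y - 1)
  hne : ⁅comp i (EX E x), comp j (EX E y)⁆ ≠ 0
  hgo : Ord (i + j) (EX E g - 1)
  hg : ∀ w, EX E g w ∈ KK B
  heq : Ord (c + 1) (EX E x * EX E y - EX E g * EX E y * EX E x)
  bx : ∀ w : List (Fin r), w.length < i + l → EX E x w ∈ OO B
  by' : ∀ w : List (Fin r), w.length < j + l → EX E y w ∈ OO B

end

end Pool.Agent.Helper7.Comm
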