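import Pool.Agent.Helper7.Comm.Subst

set_option autoImplicit false

/-! # Homogeneous noncommutative series and the weak algorithm -/

namespace Pool.Agent.Helper7.Comm

namespace NC

variable {X : Type*} {R : Type*}

/-- `f` is homogeneous of degree `n` (supported on words of length `n`). -/
def IsHom [Zero R] (n : ℕ) (f : NC X R) : Prop := ∀ w : List X, w.length ≠ n → f w = 0

theorem IsHom.zero [AddCommGroup R] (n : ℕ) : IsHom n (0 : NC X R) := fun _ _ => rfl

theorem IsHom.add [AddCommGroup R] {n : ℕ} {f g : NC X R} (hf : IsHom n f) (hg : IsHom n g) :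
    IsHom n (f + g) := fun w hw => by simp [hf w hw, hg w hw]

theorem IsHom.sub [AddCommGroup R] {n : ℕ} {f g : NC X R} (hf : IsHom n f) (hg : IsHom n g) :
    IsHom n (f - g) := fun w hw => by simp [hf w hw, hg w hw]

theorem IsHom.neg [AddCommGroup R] {n : ℕ} {f : NC X R} (hf : IsHom n f) :
    IsHom n (-f) := fun w hw => by simp [hf w hw]

theorem IsHom.smul [Ring R] {n : ℕ} {f : NC X R} (c : R) (hf : IsHom n f) :
    IsHom n (c • f) := fun w hw => by simp [hf w hw]

theorem IsHom.sum [AddCommGroup R] {κ : Type*} (s : Finset κ) {n : ℕ} {f : κ → NC X R}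
    (hf : ∀ k ∈ s, IsHom n (f k)) : IsHom n (∑ k ∈ s, f k) := fun w hw => by
  rw [NC.sum_apply]; exact Finset.sum_eq_zero fun k hk => hf k hk w hw

variable [Ring R]

theorem mul_append_left {p : ℕ} {f g : NC X R} (hf : IsHom p f) {u v : List X}
    (hu : u.length = p) : (f * g) (u ++ v) = f u * g v := by
  rw [mul_apply, Finset.sum_eq_single p]
  · rw [← hu, List.take_left, List.drop_left]
  · intro i hi hip
    rw [hf _, zero_mul]
    simp only [Finset.mem_range, List.length_append] at hi
    simp only [List.length_take, List.length_append]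
    omega
  · intro h
    exfalso
    apply h
    simp only [Finset.mem_range, List.length_append]
    omega

theorem mul_append_right {q : ℕ} {f g : NC X R} (hg : IsHom q g) {u v : List X}
    (hv : v.length = q) : (f * g) (u ++ v) = f u * g v := by
  rw [mul_apply, Finset.sum_eq_single u.length]
  · rw [List.take_left, List.drop_left]
  · intro i hi hip
    rw [hg (List.drop i (u ++ v)), mul_zero]
    simp only [Finset.mem_range, List.length_append] at hi
    simp only [List.length_drop, List.length_append]
    omega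
  · intro h
    exfalso
    apply h
    simp only [Finset.mem_range, List.length_append]
    omega

/-- A homogeneous left factor kills short words. -/
theorem mul_apply_short {p : ℕ} {f g : NC X R} (hf : IsHom p f) {w : List X}
    (hw : w.length < p) : (f * g) w = 0 := by
  rw [mul_apply]
  refine Finset.sum_eq_zero fun i hi => ?_
  rw [hf _, zero_mul]
  simp only [List.length_take]
  omega

theorem IsHom.mul {m n : ℕ} {f g : NC X R} (hf : IsHom m f) (hg : IsHom n g) :
    IsHom (m + n) (f * g) := by
  intro w hw
  rcases Nat.lt_or_ge w.length m with h | h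
  · exact mul_apply_short hf h
  · rw [← List.take_append_drop m w, mul_append_left hf (by simp [h])]
    rw [hg (w.drop m) (by simp; omega), mul_zero]

theorem IsHom.lie {m n : ℕ} {f g : NC X R} (hf : IsHom m f) (hg : IsHom n g) :
    IsHom (m + n) ⁅f, g⁆ := by
  rw [Ring.lie_def]
  exact (hf.mul hg).sub (by rw [add_comm]; exact hg.mul hf)

theorem IsHom.pow {m : ℕ} {f : NC X R} (hf : IsHom m f) (k : ℕ) :
    IsHom (k * m) (f ^ k) := by
  induction k with
  | zero =>
    intro w hw
    cases w with
    | nil => simp at hw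
    | cons a w => rfl
  | succ k ih => rw [pow_succ, Nat.succ_mul]; exact ih.mul hf

/-- Homogeneous component. -/
def comp (n : ℕ) (f : NC X R) : NC X R := ⟨fun w => if w.length = n then f w else 0⟩

theorem comp_apply (n : ℕ) (f : NC X R) (w : List X) :
    comp n f w = if w.length = n then f w else 0 := rfl

theorem comp_isHom (n : ℕ) (f : NC X R) : IsHom n (comp n f) := fun w hw => by
  rw [comp_apply, if_neg hw]

theorem comp_eq_self {n : ℕ} {f : NC X R} (hf : IsHom n f) : comp n f = f := by
  ext w
  rw [comp_apply]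
  split_ifs with h
  · rfl
  · exact (hf w h).symm

theorem comp_add (n : ℕ) (f g : NC X R) : comp n (f + g) = comp n f + comp n g := by
  ext w; simp only [comp_apply, add_apply]; split_ifs <;> simp

theorem comp_sub (n : ℕ) (f g : NC X R) : comp n (f - g) = comp n f - comp n g := by
  ext w; simp only [comp_apply, sub_apply]; split_ifs <;> simp

theorem comp_neg (n : ℕ) (f : NC X R) : comp n (-f) = -comp n f := by
  ext w; simp only [comp_apply, neg_apply]; split_ifs <;> simp

theorem comp_zero (n : ℕ) : comp n (0 : NC X R) = 0 := by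
  ext w; simp only [comp_apply, zero_apply]; split_ifs <;> simp

theorem comp_sum {κ : Type*} (s : Finset κ) (n : ℕ) (f : κ → NC X R) :
    comp n (∑ k ∈ s, f k) = ∑ k ∈ s, comp n (f k) := by
  ext w; simp only [comp_apply, NC.sum_apply]; split_ifs <;> simp

theorem comp_eq_zero {m n : ℕ} {f : NC X R} (hf : IsHom m f) (h : m ≠ n) : comp n f = 0 := by
  ext w
  rw [comp_apply]
  split_ifs with hw
  · exact hf w (by omega)
  · rfl

theorem comp_mul_left {p : ℕ} {f : NC X R} (hf : IsHom p f) (g : NC X R) (n : ℕ) :
    comp (p + n) (f * g) = f * comp n g := by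
  ext w
  rw [comp_apply]
  split_ifs with h
  · rw [← List.take_append_drop p w, mul_append_left hf (by simp [h]),
      mul_append_left hf (by simp [h]), comp_apply, if_pos (by simp [h])]
  · exact (hf.mul (comp_isHom n g) w h).symm

theorem comp_mul_left_short {p : ℕ} {f : NC X R} (hf : IsHom p f) (g : NC X R) {n : ℕ}
    (h : n < p) : comp n (f * g) = 0 := by
  ext w
  rw [comp_apply]
  split_ifs with hw
  · exact mul_apply_short hf (by omega)
  · rfl

/-- Right derivative with respect to a word. -/
def Rd (w : List X) (f : NC X R) : NC X R := ⟨fun v => f (v ++ w)⟩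

omit [Ring R] in
@[simp] theorem Rd_apply (w v : List X) (f : NC X R) : Rd w f v = f (v ++ w) := rfl

theorem Rd_isHom {n : ℕ} {f : NC X R} (hf : IsHom n f) (w : List X) :
    IsHom (n - w.length) (Rd w f) := by
  intro v hv
  by_cases h : w.length ≤ n
  · exact hf _ (by simp; omega)
  · exact hf _ (by simp; omega)

theorem mul_append_Rd {d : ℕ} {a : NC X R} (ha : IsHom d a) (b : NC X R) (w : List X)
    {v : List X} (hv : d ≤ v.length) : (a * b) (v ++ w) = (a * Rd w b) v := by
  rw [← List.take_append_drop d v, List.append_assoc, mul_append_left ha (by simp [hv]),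
    mul_append_left ha (by simp [hv]), Rd_apply]

end NC

section weak

open NC

variable {X : Type*} {K : Type*} [Field K]

/-- The weak algorithm for homogeneous series. -/
theorem weak_algorithm {κ : Type*} [DecidableEq κ] (s : Finset κ) (k0 : κ) (hk0 : k0 ∈ s)
    (d : κ → ℕ) (n : ℕ) (a b : κ → NC X K) (ha : ∀ k ∈ s, IsHom (d k) (a k))
    (hb : ∀ k ∈ s, IsHom (n - d k) (b k)) (hd : ∀ k ∈ s, d k ≤ d k0) (hn : d k0 ≤ n)
    (hb0 : b k0 ≠ 0) (hsum : ∑ k ∈ s, a k * b k = 0) :
    ∃ c : κ → NC X K, (∀ k ∈ s, IsHom (d k0 - d k) (c k)) ∧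
      a k0 = ∑ k ∈ s.erase k0, a k * c k := by
  obtain ⟨w, hw⟩ : ∃ w, b k0 w ≠ 0 := by
    by_contra h
    push Not at h
    exact hb0 (NC.ext h)
  have hwl : w.length = n - d k0 := by
    by_contra h
    exact hw (hb k0 hk0 w h)
  refine ⟨fun k => (-(b k0 w)⁻¹) • Rd w (b k), fun k hk => ?_, ?_⟩
  · have := Rd_isHom (hb k hk) w
    have e : n - d k - w.length = d k0 - d k := by
      have := hd k hk
      omega
    rw [e] at this
    exact this.smul _
  · have hhom : IsHom (d k0) (∑ k ∈ s.erase k0, a k * ((-(b k0 w)⁻¹) • Rd w (b k))) := by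
      refine IsHom.sum _ fun k hk => ?_
      have hks := Finset.mem_of_mem_erase hk
      have h1 := Rd_isHom (hb k hks) w
      have e : n - d k - w.length = d k0 - d k := by
        have := hd k hks
        omega
      rw [e] at h1
      have h2 := (ha k hks).mul (h1.smul (-(b k0 w)⁻¹))
      rwa [Nat.add_sub_cancel' (hd k hks)] at h2
    ext v
    by_cases hv : v.length = d k0
    · have h1 : (∑ k ∈ s, a k * b k) (v ++ w) = 0 := by rw [hsum]; rfl
      rw [NC.sum_apply, ← Finset.add_sum_erase _ _ hk0] at h1
      have h2 : (a k0 * b k0) (v ++ w) = a k0 v * b k0 w := by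
        rw [mul_append_left (ha k0 hk0) hv]
      have h3 : ∀ k ∈ s.erase k0, (a k * b k) (v ++ w) = (a k * Rd w (b k)) v := by
        intro k hk
        have hks := Finset.mem_of_mem_erase hk
        exact mul_append_Rd (ha k hks) _ _ (by rw [hv]; exact hd k hks)
      rw [h2, Finset.sum_congr rfl h3] at h1
      rw [NC.sum_apply]
      have h4 : ∀ k ∈ s.erase k0, (a k * ((-(b k0 w)⁻¹) • Rd w (b k))) v =
          (-(b k0 w)⁻¹) * (a k * Rd w (b k)) v := by
        intro k hk
        rw [mul_smul_comm]; rfl
      rw [Finset.sum_congr rfl h4, ← Finset.mul_sum]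
      field_simp
      linear_combination h1
    · rw [ha k0 hk0 v hv, hhom v hv]

theorem NC.mul_eq_zero_of_hom {n : ℕ} {x : NC X K} (hx : IsHom n x) (hx0 : x ≠ 0) {A : NC X K}
    (h : x * A = 0) : A = 0 := by
  obtain ⟨u, hu⟩ : ∃ u, x u ≠ 0 := by
    by_contra h'
    push Not at h'
    exact hx0 (NC.ext h')
  have hul : u.length = n := by
    by_contra h'
    exact hu (hx u h')
  ext v
  have h1 : (x * A) (u ++ v) = 0 := by rw [h]; rfl
  rw [mul_append_left hx hul] at h1
  exact (mul_eq_zero.mp h1).resolve_left hu

theorem NC.mul_eq_zero_of_hom_right {n : ℕ} {x : NC X K} (hx : IsHom n x) (hx0 : x ≠ 0)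
    {A : NC X K} (h : A * x = 0) : A = 0 := by
  obtain ⟨u, hu⟩ : ∃ u, x u ≠ 0 := by
    by_contra h'
    push Not at h'
    exact hx0 (NC.ext h')
  have hul : u.length = n := by
    by_contra h'
    exact hu (hx u h')
  ext v
  have h1 : (A * x) (v ++ u) = 0 := by rw [h]; rfl
  rw [mul_append_right hx hul] at h1
  exact (mul_eq_zero.mp h1).resolve_right hu

end weak

end Pool.Agent.Helper7.Comm
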