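import Pool.Agent.Helper7.Comm.NC

set_option autoImplicit false

/-! # The coproduct dual to the shuffle product -/

namespace Pool.Agent.Helper7.Comm

namespace NC

variable {X : Type*} {R : Type*}

section const

variable [Ring R]

/-- Constant series. -/
def C (r : R) : NC X R := ⟨fun w => match w with
  | [] => r
  | _ :: _ => 0⟩

@[simp] theorem C_nil (r : R) : (C r : NC X R) [] = r := rfl
@[simp] theorem C_cons (r : R) (a : X) (w : List X) : (C r : NC X R) (a :: w) = 0 := rfl
@[simp] theorem D_C (a : X) (r : R) : D a (C r : NC X R) = 0 := rfl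

theorem C_mul_apply (r : R) (f : NC X R) (w : List X) : ((C r : NC X R) * f) w = r * f w := by
  cases w with
  | nil => simp
  | cons a w => rw [mul_cons]; simp

theorem mul_C_apply (r : R) (f : NC X R) (w : List X) : (f * (C r : NC X R)) w = f w * r := by
  induction w generalizing f with
  | nil => simp
  | cons a w ih => rw [mul_cons, ih]; simp

/-- Constants as a ring homomorphism. -/
def CHom : R →+* NC X R where
  toFun := C
  map_one' := by ext w; cases w <;> rfl
  map_mul' a b := by
    ext w
    rw [C_mul_apply]
    cases w with
    | nil => rfl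
    | cons a w => simp
  map_zero' := by ext w; cases w <;> rfl
  map_add' a b := by ext w; cases w <;> simp

theorem CHom_apply (r : R) : (CHom r : NC X R) = C r := rfl

theorem C_eq_smul (r : R) : (C r : NC X R) = r • 1 := by
  ext w; cases w <;> simp

theorem letter_mul_nil [DecidableEq X] (a : X) (f : NC X R) :
    ((letter a : NC X R) * f) [] = 0 := by
  simp [letter_nil]

theorem letter_mul_cons [DecidableEq X] (a b : X) (f : NC X R) (w : List X) :
    ((letter a : NC X R) * f) (b :: w) = if b = a then f w else 0 := by
  rw [mul_cons, letter_nil, D_letter]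
  by_cases h : b = a <;> simp [h]

/-- Every series is its constant term plus letters times left derivatives. -/
theorem eq_C_add_sum [DecidableEq X] [Fintype X] (f : NC X R) :
    f = C (f []) + ∑ a, (letter a : NC X R) * D a f := by
  ext w
  cases w with
  | nil => simp [letter_nil]
  | cons b w => simp [letter_mul_cons]

end const

section coprod

variable [CommRing R]

/-- Sum of the coefficients of `f` over all shuffles of two words. -/
def sh : List X → List X → NC X R → R
  | [], b, f => f b
  | x :: a, [], f => f (x :: a)
  | x :: a, y :: b, f => sh a (y :: b) (D x f) + sh (x :: a) b (D y f)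
  termination_by a b => a.length + b.length

@[simp] theorem sh_nil_left (b : List X) (f : NC X R) : sh [] b f = f b := by
  rw [sh]

@[simp] theorem sh_nil_right (a : List X) (f : NC X R) : sh a [] f = f a := by
  cases a <;> rw [sh]

theorem sh_cons_cons (x y : X) (a b : List X) (f : NC X R) :
    sh (x :: a) (y :: b) f = sh a (y :: b) (D x f) + sh (x :: a) b (D y f) := by
  rw [sh]

theorem sh_add (a b : List X) (f g : NC X R) : sh a b (f + g) = sh a b f + sh a b g := by
  induction hn : a.length + b.length generalizing a b f g with
  | zero =>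
    obtain rfl : a = [] := by
      cases a
      · rfl
      · simp at hn
    simp
  | succ n ih =>
    cases a with
    | nil => simp
    | cons x a =>
      cases b with
      | nil => simp
      | cons y b =>
        simp only [sh_cons_cons, D_add]
        rw [ih a (y :: b) _ _ (by simp at hn ⊢; omega), ih (x :: a) b _ _ (by simp at hn ⊢; omega)]
        abel

theorem sh_smul (a b : List X) (c : R) (f : NC X R) : sh a b (c • f) = c * sh a b f := by
  induction hn : a.length + b.length generalizing a b f with
  | zero =>
    obtain rfl : a = [] := by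
      cases a
      · rfl
      · simp at hn
    simp
  | succ n ih =>
    cases a with
    | nil => simp
    | cons x a =>
      cases b with
      | nil => simp
      | cons y b =>
        simp only [sh_cons_cons, D_smul]
        rw [ih a (y :: b) _ (by simp at hn ⊢; omega), ih (x :: a) b _ (by simp at hn ⊢; omega)]
        ring

/-- The coproduct. -/
def Δ (f : NC X R) : NC X (NC X R) := ⟨fun a => ⟨fun b => sh a b f⟩⟩

@[simp] theorem Δ_apply (f : NC X R) (a b : List X) : Δ f a b = sh a b f := rfl

theorem Δ_add (f g : NC X R) : Δ (f + g) = Δ f + Δ g := by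
  ext a b; simp [sh_add]

theorem Δ_smul (c : R) (f : NC X R) : Δ (c • f) = c • Δ f := by
  ext a b; simp [sh_smul]

/-- `f ⊗ 1`. -/
def T1 (f : NC X R) : NC X (NC X R) := ⟨fun a => C (f a)⟩

/-- `1 ⊗ f`. -/
def T2 (f : NC X R) : NC X (NC X R) := C f

theorem T1_apply (f : NC X R) (a : List X) : T1 f a = C (f a) := rfl

theorem T1_mul_apply (f : NC X R) (F : NC X (NC X R)) (a b : List X) :
    (T1 f * F) a b = (f * (⟨fun a' => F a' b⟩ : NC X R)) a := by
  induction a generalizing f with
  | nil => rw [mul_nil, T1_apply, C_mul_apply]; rfl
  | cons x a ih =>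
    rw [mul_cons, mul_cons, add_apply, T1_apply, C_mul_apply]
    have : D x (T1 f) = T1 (D x f) := rfl
    rw [this, ih]; rfl

theorem T2_mul_apply (f : NC X R) (F : NC X (NC X R)) (a : List X) :
    (T2 f * F) a = f * F a := C_mul_apply _ _ _

theorem mul_T2_apply (f : NC X R) (F : NC X (NC X R)) (a : List X) :
    (F * T2 f) a = F a * f := mul_C_apply _ _ _

/-- `T1` as a ring homomorphism. -/
def T1Hom : NC X R →+* NC X (NC X R) where
  toFun := T1
  map_one' := by
    ext a b; cases a <;> cases b <;> simp [T1_apply]
  map_mul' f g := by
    ext a b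
    rw [T1_mul_apply, T1_apply]
    cases b with
    | nil => rfl
    | cons y b =>
      have : (⟨fun a' => T1 g a' (y :: b)⟩ : NC X R) = 0 := by ext; rfl
      rw [this, mul_zero]; rfl
  map_zero' := by ext a b; cases b <;> rfl
  map_add' f g := by ext a b; cases b <;> simp [T1_apply]

/-- `T2` as a ring homomorphism. -/
def T2Hom : NC X R →+* NC X (NC X R) := CHom

theorem T1_mul (f g : NC X R) : T1 (f * g) = T1 f * T1 g := T1Hom.map_mul f g
theorem T2_mul (f g : NC X R) : T2 (f * g) = T2 f * T2 g := T2Hom.map_mul f g
theorem T1_add (f g : NC X R) : T1 (f + g) = T1 f + T1 g := T1Hom.map_add f g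
theorem T2_add (f g : NC X R) : T2 (f + g) = T2 f + T2 g := T2Hom.map_add f g
theorem T1_sub (f g : NC X R) : T1 (f - g) = T1 f - T1 g := T1Hom.map_sub f g
theorem T2_sub (f g : NC X R) : T2 (f - g) = T2 f - T2 g := T2Hom.map_sub f g
theorem T1_one : T1 (1 : NC X R) = 1 := T1Hom.map_one
theorem T2_one : T2 (1 : NC X R) = 1 := T2Hom.map_one

theorem T1_mul_T2_apply (f g : NC X R) (a b : List X) : (T1 f * T2 g) a b = f a * g b := by
  rw [mul_T2_apply, T1_apply, C_mul_apply]

theorem T1_comm_T2 (f g : NC X R) : T1 f * T2 g = T2 g * T1 f := by
  ext a b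
  rw [T1_mul_T2_apply, T2_mul_apply, T1_apply, mul_C_apply, mul_comm]

theorem Δ_eq [DecidableEq X] [Fintype X] (f : NC X R) :
    Δ f = C (C (f [])) +
      ∑ x, (T1 (letter x : NC X R) + T2 (letter x : NC X R)) * Δ (D x f) := by
  ext a b
  rw [add_apply, add_apply, sum_apply, sum_apply]
  simp only [add_mul, add_apply, T1_mul_apply, T2_mul_apply]
  rw [Finset.sum_add_distrib]
  cases a with
  | nil =>
    cases b with
    | nil => simp [letter_nil]
    | cons y b => simp [letter_nil, letter_mul_cons]
  | cons x a =>
    cases b with
    | nil => simp [letter_nil, letter_mul_cons]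
    | cons y b => simp [letter_mul_cons, sh_cons_cons]

theorem Δ_mul_aux [DecidableEq X] [Fintype X] (n : ℕ) : ∀ (f g : NC X R) (a b : List X),
    a.length + b.length ≤ n → Δ (f * g) a b = (Δ f * Δ g) a b := by
  induction n with
  | zero =>
    intro f g a b h
    obtain rfl : a = [] := by
      cases a
      · rfl
      · simp at h
    obtain rfl : b = [] := by
      cases b
      · rfl
      · simp at h
    simp
  | succ n ih =>
    intro f g a b h
    have e1 : (Δ f * Δ g) = f [] • Δ g +
        ∑ x, (T1 (letter x : NC X R) + T2 (letter x : NC X R)) * (Δ (D x f) * Δ g) := by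
      conv_lhs => rw [Δ_eq f]
      rw [add_mul, Finset.sum_mul]
      congr 1
      · ext a b
        rw [C_mul_apply, C_mul_apply]; rfl
      · exact Finset.sum_congr rfl fun x _ => by rw [mul_assoc]
    have e2 : Δ (f * g) = f [] • Δ g +
        ∑ x, (T1 (letter x : NC X R) + T2 (letter x : NC X R)) * Δ (D x f * g) := by
      conv_lhs => rw [Δ_eq (f * g)]
      conv_rhs => rw [Δ_eq g]
      have : ∀ x, Δ (D x (f * g)) = f [] • Δ (D x g) + Δ (D x f * g) := by
        intro x; rw [D_mul, Δ_add, Δ_smul]
      simp only [this, mul_add, Finset.sum_add_distrib, smul_add, Finset.smul_sum,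
        mul_smul_comm]
      rw [← add_assoc]
      congr 2
      ext a b
      rw [mul_nil]
      cases a with
      | nil => cases b <;> simp
      | cons x a => simp
    rw [e1, e2]
    simp only [add_apply, sum_apply]
    congr 1
    refine Finset.sum_congr rfl fun x _ => ?_
    simp only [add_mul, add_apply, T1_mul_apply, T2_mul_apply]
    congr 1
    · cases a with
      | nil => simp [letter_nil]
      | cons y a =>
        rw [letter_mul_cons, letter_mul_cons]
        split_ifs
        · simp only [mk_apply]
          exact ih _ _ _ _ (by simp at h ⊢; omega)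
        · rfl
    · cases b with
      | nil => simp [letter_nil]
      | cons y b =>
        rw [letter_mul_cons, letter_mul_cons]
        split_ifs
        · exact ih _ _ _ _ (by simp at h ⊢; omega)
        · rfl

theorem Δ_mul [DecidableEq X] [Fintype X] (f g : NC X R) : Δ (f * g) = Δ f * Δ g := by
  ext a b
  exact Δ_mul_aux _ f g a b le_rfl

theorem Δ_one : Δ (1 : NC X R) = 1 := by
  have key : ∀ (n : ℕ) (a b : List X), a.length + b.length ≤ n →
      sh a b (0 : NC X R) = 0 := by
    intro n
    induction n with
    | zero =>
      intro a b h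
      obtain rfl : a = [] := by
        cases a
        · rfl
        · simp at h
      simp
    | succ n ih =>
      intro a b h
      cases a with
      | nil => simp
      | cons x a =>
        cases b with
        | nil => simp
        | cons y b =>
          rw [sh_cons_cons, D_zero, D_zero, ih _ _ (by simp at h ⊢; omega),
            ih _ _ (by simp at h ⊢; omega), add_zero]
  ext a b
  cases a with
  | nil => cases b <;> simp
  | cons x a =>
    cases b with
    | nil => simp
    | cons y b =>
      simp [sh_cons_cons, key _ _ _ le_rfl]

/-- `Δ` as a ring homomorphism. -/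
def ΔHom [DecidableEq X] [Fintype X] : NC X R →+* NC X (NC X R) where
  toFun := Δ
  map_one' := Δ_one
  map_mul' := Δ_mul
  map_zero' := by
    have := Δ_smul (0 : R) (0 : NC X R)
    simpa using this
  map_add' := Δ_add

end coprod

end NC

end Pool.Agent.Helper7.Comm
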