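import Pool.Agent.Helper7.Comm.Brackets

set_option autoImplicit false

/-! # The kernel lemma -/

namespace Pool.Agent.Helper7.Comm

open NC

variable {X : Type*} [Fintype X] [DecidableEq X] {K : Type*} [Field K] [CharZero K]

/-- Two homogeneous Lie elements, not proportional, are right independent. -/
theorem indep2 {i p : ℕ} (hi : 0 < i) (hip : i ≤ p) {x u : NC X K} (hx : IsHom i x)
    (hxL : IsLie x) (hx0 : x ≠ 0) (hu : IsHom p u) (huL : IsLie u) (hne : ∀ c : K, u ≠ c • x)
    (A : Fin 2 → NC X K) (hA : ∑ k, (![x, u] : Fin 2 → NC X K) k * A k = 0) : ∀ k, A k = 0 := by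
  rw [Fin.sum_univ_two] at hA
  simp only [Matrix.cons_val_zero, Matrix.cons_val_one] at hA
  have h1 : A 1 = 0 := by
    by_contra hne1
    obtain ⟨w, hw⟩ := exists_ne_zero hne1
    have hc : comp w.length (A 1) ≠ 0 := by
      intro h
      apply hw
      have := congrArg (fun f : NC X K => f w) h
      simpa [comp_apply] using this
    -- take the component of degree p + |w|
    have e1 : comp (p + w.length) (x * A 0 + u * A 1) = 0 := by rw [hA, comp_zero]
    rw [comp_add, comp_mul_left hu] at e1
    have e2 : comp (p + w.length) (x * A 0) = x * comp (p + w.length - i) (A 0) := by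
      rw [← comp_mul_left hx]
      congr 1
      omega
    rw [e2] at e1
    obtain ⟨c, _, hc2⟩ := weak_algorithm (K := K) (Finset.univ : Finset (Fin 2)) 1
      (Finset.mem_univ _) ![i, p] (p + w.length) ![x, u]
      ![comp (p + w.length - i) (A 0), comp w.length (A 1)]
      (by intro k _; fin_cases k <;> simp [hx, hu])
      (by
        intro k _
        fin_cases k
        · simpa using comp_isHom _ _
        · simpa using comp_isHom _ _)
      (by intro k _; fin_cases k <;> simp [hip]) (by simp) (by simpa using hc)
      (by simpa [Fin.sum_univ_two] using e1)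
    have e : (Finset.univ : Finset (Fin 2)).erase 1 = {0} := by decide
    rw [e, Finset.sum_singleton] at hc2
    simp only [Matrix.cons_val_one, Matrix.cons_val_zero] at hc2
    obtain ⟨t, ht⟩ := lie_right_ideal hi hx hxL hx0 hu huL (c 0) hc2
    exact hne t ht
  have h0 : A 0 = 0 := by
    rw [h1, mul_zero, add_zero] at hA
    exact mul_eq_zero_of_hom hx hx0 hA
  intro k
  fin_cases k
  · exact h0
  · exact h1

/-- The kernel lemma. -/
theorem lemW {i p j a b : ℕ} (hi : 0 < i) (hip : i ≤ p) (hpj : p ≤ j) (hpa : p ≤ a)
    (hb : i + b = a + j) {x u y U V f y1 y2 f1 f2 : NC X K}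
    (hx : IsHom i x) (hxL : IsLie x) (hx0 : x ≠ 0)
    (hu : IsHom p u) (huL : IsLie u) (hne : ∀ c : K, u ≠ c • x)
    (hy : IsHom j y) (hyL : IsLie y) (hyne : ∀ c : K, y ≠ c • x)
    (hU : IsHom a U) (hUL : IsLie U) (hV : IsHom b V) (hVL : IsLie V)
    (hy1 : IsHom (j - i) y1) (hy2 : IsHom (j - p) y2) (hyy : y = x * y1 + u * y2)
    (hf1 : IsHom b f1) (hf2 : IsHom (a + j - p) f2) (hff : f = x * f1 + u * f2)
    (h : ⁅x, V⁆ + ⁅U, y⁆ + f = 0) :
    (∃ F : NC (Fin 2) K, (∀ W, wt ![i, p] W ≠ a → F W = 0) ∧ U = subst ![x, u] F) ∧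
    (∃ G : NC (Fin 2) K, (∀ W, wt ![i, p] W ≠ b → G W = 0) ∧ V = subst ![x, u] G) := by
  have hpbw : ∀ {m : ℕ} {z : NC X K}, IsLie z → IsHom m z → ∀ A0 A1 : NC X K,
      z = x * A0 + u * A1 →
      ∃ F : NC (Fin 2) K, (∀ W, wt ![i, p] W ≠ m → F W = 0) ∧ z = subst ![x, u] F := by
    intro m z hz hzm A0 A1 hz2
    refine pbw (κ := Fin 2) ![x, u] ![i, p] ?_ ?_ ?_ (indep2 hi hip hx hxL hx0 hu huL hne) hz hzm
      ![A0, A1] ?_
    · intro k; fin_cases k <;> simp <;> omega
    · intro k; fin_cases k <;> simp [hx, hu]
    · intro k; fin_cases k <;> simp [hxL, huL]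
    · simpa [Fin.sum_univ_two] using hz2
  -- first step
  have hIx : IsHom (a + j) (x * (V - y1 * U + f1)) := by
    rw [← hb]
    refine hx.mul ((hV.sub ?_).add hf1)
    have := hy1.mul hU
    have e : j - i + a = b := by omega
    rwa [e] at this
  obtain ⟨c, hc1, hc2⟩ := weak_algorithm (K := K) (Finset.univ : Finset (Fin 4)) 3
    (Finset.mem_univ _) ![i, p, a, b] (a + j) ![x, u, U, V]
    ![V - y1 * U + f1, -(y2 * U) + f2, y, -x]
    (by intro k _; fin_cases k <;> simp [hx, hu, hU, hV])
    (by
      intro k _
      fin_cases k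
      · have e : a + j - i = b := by omega
        simp only [Fin.zero_eta, Matrix.cons_val_zero, e]
        refine (hV.sub ?_).add hf1
        have := hy1.mul hU
        have e : j - i + a = b := by omega
        rwa [e] at this
      · simp only [Fin.mk_one, Matrix.cons_val_one, Matrix.cons_val_zero]
        refine IsHom.add (IsHom.neg ?_) hf2
        have := hy2.mul hU
        have e : j - p + a = a + j - p := by omega
        rwa [e] at this
      · have e : a + j - a = j := by omega
        simpa [e] using hy
      · have e : a + j - b = i := by omega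
        simpa [e] using hx.neg)
    (by
      intro k _
      fin_cases k <;> simp <;> omega)
    (by simp; omega) (by simpa using hx0)
    (by
      simp only [Fin.sum_univ_four, Matrix.cons_val_zero, Matrix.cons_val_one, Matrix.cons_val]
      rw [← h, Ring.lie_def, Ring.lie_def, hff]
      have e1 : y * U = x * y1 * U + u * y2 * U := by rw [hyy, add_mul]
      rw [e1]
      noncomm_ring)
  have e : (Finset.univ : Finset (Fin 4)).erase 3 = {0, 1, 2} := by decide
  rw [e, Finset.sum_insert (by decide), Finset.sum_insert (by decide), Finset.sum_singleton] at hc2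
  simp only [Matrix.cons_val_one, Matrix.cons_val_zero, Matrix.cons_val] at hc2
  have hc1_2 := hc1 2 (Finset.mem_univ _)
  have hc1_0 := hc1 0 (Finset.mem_univ _)
  have hc1_1 := hc1 1 (Finset.mem_univ _)
  simp only [Matrix.cons_val_one, Matrix.cons_val_zero, Matrix.cons_val] at hc1_0 hc1_1 hc1_2
  have hyc : y - c 2 * x ≠ 0 := by
    intro h'
    obtain ⟨t, ht⟩ := lie_left_ideal hi hx hxL hx0 hy hyL (c 2) (sub_eq_zero.mp h')
    exact hyne t ht
  -- second step
  obtain ⟨e', he1, he2⟩ := weak_algorithm (K := K) (Finset.univ : Finset (Fin 3)) 2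
    (Finset.mem_univ _) ![i, p, a] (a + j) ![x, u, U]
    ![V - y1 * U + f1 - c 0 * x, -(y2 * U) + f2 - c 1 * x, y - c 2 * x]
    (by intro k _; fin_cases k <;> simp [hx, hu, hU])
    (by
      intro k _
      fin_cases k
      · have e : a + j - i = b := by omega
        simp only [Fin.zero_eta, Matrix.cons_val_zero, e]
        refine ((hV.sub ?_).add hf1).sub ?_
        · have := hy1.mul hU
          have e : j - i + a = b := by omega
          rwa [e] at this
        · have := hc1_0.mul hx
          have e : b - i + i = b := by omega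
          rwa [e] at this
      · simp only [Fin.mk_one, Matrix.cons_val_one, Matrix.cons_val_zero]
        refine IsHom.sub (IsHom.add (IsHom.neg ?_) hf2) ?_
        · have := hy2.mul hU
          have e : j - p + a = a + j - p := by omega
          rwa [e] at this
        · have := hc1_1.mul hx
          have e : b - p + i = a + j - p := by omega
          rwa [e] at this
      · have e : a + j - a = j := by omega
        simp only [Fin.reduceFinMk, Matrix.cons_val, e]
        refine hy.sub ?_
        have := hc1_2.mul hx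
        have e : b - a + i = j := by omega
        rwa [e] at this)
    (by
      intro k _
      fin_cases k <;> simp <;> omega)
    (by simp) (by simpa using hyc)
    (by
      simp only [Fin.sum_univ_three, Matrix.cons_val_zero, Matrix.cons_val_one, Matrix.cons_val]
      have h2 : x * (V - y1 * U + f1) + u * (-(y2 * U) + f2) + U * y - V * x = 0 := by
        rw [← h, Ring.lie_def, Ring.lie_def, hff]
        have e1 : y * U = x * y1 * U + u * y2 * U := by rw [hyy, add_mul]
        rw [e1]
        noncomm_ring
      have h3 : V * x = x * c 0 * x + u * c 1 * x + U * c 2 * x := by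
        conv_lhs => rw [hc2]
        noncomm_ring
      rw [h3] at h2
      rw [← h2]
      noncomm_ring)
  have e3 : (Finset.univ : Finset (Fin 3)).erase 2 = {0, 1} := by decide
  rw [e3, Finset.sum_insert (by decide), Finset.sum_singleton] at he2
  simp only [Matrix.cons_val_one, Matrix.cons_val_zero, Matrix.cons_val] at he2
  refine ⟨hpbw hUL hU _ _ he2, hpbw hVL hV (c 0 + e' 0 * c 2) (c 1 + e' 1 * c 2) ?_⟩
  rw [hc2]
  conv_lhs => rw [he2]
  noncomm_ring

end Pool.Agent.Helper7.Comm
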