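import Pool.Agent.Helper7.Comm.Lie

set_option autoImplicit false

/-! # Reversal, centralizers and the kernel lemma -/

namespace Pool.Agent.Helper7.Comm

open NC

variable {X : Type*}

section rev

variable {K : Type*} [CommRing K]

/-- Reversal of words. -/
def rev (f : NC X K) : NC X K := ⟨fun w => f w.reverse⟩

omit [CommRing K] in
@[simp] theorem rev_apply (f : NC X K) (w : List X) : rev f w = f w.reverse := rfl

omit [CommRing K] in
theorem rev_rev (f : NC X K) : rev (rev f) = f := by ext w; simp

theorem rev_add (f g : NC X K) : rev (f + g) = rev f + rev g := rfl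
theorem rev_sub (f g : NC X K) : rev (f - g) = rev f - rev g := rfl
theorem rev_neg (f : NC X K) : rev (-f) = -rev f := rfl
theorem rev_zero : rev (0 : NC X K) = 0 := rfl
theorem rev_smul (c : K) (f : NC X K) : rev (c • f) = c • rev f := rfl

theorem rev_mul (f g : NC X K) : rev (f * g) = rev g * rev f := by
  ext w
  rw [rev_apply, mul_apply, mul_apply, List.length_reverse, ← Finset.sum_range_reflect]
  refine Finset.sum_congr rfl fun i hi => ?_
  simp only [Finset.mem_range] at hi
  rw [rev_apply, rev_apply, mul_comm, List.reverse_take, List.reverse_drop]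
  congr 3

theorem rev_sum {κ : Type*} (s : Finset κ) (f : κ → NC X K) :
    rev (∑ k ∈ s, f k) = ∑ k ∈ s, rev (f k) := by
  ext w; rw [rev_apply, NC.sum_apply, NC.sum_apply]; rfl

theorem rev_isHom {n : ℕ} {f : NC X K} (hf : IsHom n f) : IsHom n (rev f) :=
  fun w hw => hf _ (by simpa using hw)

theorem rev_eq_zero {f : NC X K} (h : rev f = 0) : f = 0 := by
  rw [← rev_rev f, h]; rfl

/-- Right derivative by a letter. -/
def Dr (x : X) (f : NC X K) : NC X K := ⟨fun w => f (w ++ [x])⟩

omit [CommRing K] in
theorem Dr_apply (x : X) (f : NC X K) (w : List X) : Dr x f w = f (w ++ [x]) := rfl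

omit [CommRing K] in
theorem D_rev (x : X) (f : NC X K) : D x (rev f) = rev (Dr x f) := by
  ext w; simp [Dr]

omit [CommRing K] in
theorem Dr_D (x y : X) (f : NC X K) : Dr x (D y f) = D y (Dr x f) := rfl

theorem sh_append : ∀ (a b : List X) (x y : X) (f : NC X K),
    sh (a ++ [x]) (b ++ [y]) f = sh a (b ++ [y]) (Dr x f) + sh (a ++ [x]) b (Dr y f) := by
  intro a b x y f
  induction hn : a.length + b.length generalizing a b f with
  | zero =>
    obtain rfl : a = [] := by
      cases a
      · rfl
      · simp at hn
    obtain rfl : b = [] := by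
      cases b
      · rfl
      · simp at hn
    simp only [List.nil_append, sh_cons_cons, sh_nil_left, sh_nil_right]
    simp only [D_apply, Dr, mk_apply, List.cons_append, List.nil_append]
    ring
  | succ n ih =>
    cases a with
    | nil =>
      cases b with
      | nil => simp at hn
      | cons y' b =>
        have h1 := ih [] b (D y' f) (by simp at hn ⊢; omega)
        simp only [List.nil_append] at h1 ⊢
        rw [List.cons_append, sh_cons_cons, h1, sh_cons_cons]
        simp only [sh_nil_left]
        simp only [Dr_D, D_apply, Dr_apply, List.cons_append, List.append_assoc,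
          List.nil_append]
        ring
    | cons x' a =>
      cases b with
      | nil =>
        have h1 := ih a [] (D x' f) (by simp at hn ⊢; omega)
        simp only [List.nil_append] at h1 ⊢
        rw [List.cons_append, sh_cons_cons, h1, sh_cons_cons]
        simp only [sh_nil_right]
        simp only [Dr_D, D_apply, Dr_apply, List.cons_append, List.append_assoc,
          List.nil_append]
        ring
      | cons y' b =>
        have h1 := ih a (y' :: b) (D x' f) (by simp at hn ⊢; omega)
        have h2 := ih (x' :: a) b (D y' f) (by simp at hn ⊢; omega)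
        simp only [List.cons_append] at h1 h2 ⊢
        rw [sh_cons_cons, h1, h2, sh_cons_cons, sh_cons_cons]
        simp only [Dr_D]
        ring

theorem sh_rev : ∀ (a b : List X) (f : NC X K), sh a b (rev f) = sh a.reverse b.reverse f := by
  intro a b f
  induction hn : a.length + b.length generalizing a b f with
  | zero =>
    obtain rfl : a = [] := by
      cases a
      · rfl
      · simp at hn
    simp
  | succ n ih =>
    cases a with
    | nil => simp
    | cons x a =>
      cases b with
      | nil => simp
      | cons y b =>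
        rw [sh_cons_cons, D_rev, D_rev, ih _ _ _ (by simp at hn ⊢; omega),
          ih _ _ _ (by simp at hn ⊢; omega)]
        simp only [List.reverse_cons]
        rw [sh_append]

theorem IsLie.rev {f : NC X K} (hf : IsLie f) : IsLie (rev f) := by
  rw [isLie_iff] at *
  refine ⟨by simp [hf.1], fun a b ha hb => ?_⟩
  rw [sh_rev]
  exact hf.2 _ _ (by simpa using ha) (by simpa using hb)

end rev

section cent

variable [Fintype X] [DecidableEq X] {K : Type*} [Field K]

theorem Δ_pow (x : NC X K) (k : ℕ) : Δ (x ^ k) = Δ x ^ k :=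
  (ΔHom (X := X) (R := K)).map_pow x k

omit [Fintype X] [DecidableEq X] in
theorem exists_ne_zero {f : NC X K} (hf : f ≠ 0) : ∃ w, f w ≠ 0 := by
  by_contra h
  push Not at h
  exact hf (NC.ext h)

omit [Fintype X] [DecidableEq X] in
theorem pow_ne_zero_of_hom {i : ℕ} {x : NC X K} (hx : IsHom i x) (hx0 : x ≠ 0) (k : ℕ) :
    x ^ k ≠ 0 := by
  induction k with
  | zero =>
    rw [pow_zero]
    intro h
    have := congrArg (fun f : NC X K => f []) h
    simp at this
  | succ k ih =>
    intro h
    rw [pow_succ'] at h
    exact ih (mul_eq_zero_of_hom hx hx0 h)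

/-- A power `x ^ k`, `k ≥ 2`, of a homogeneous Lie element is not Lie. -/
theorem pow_not_lie [CharZero K] {i : ℕ} (hi : 0 < i) {x : NC X K} (hx : IsHom i x)
    (hL : IsLie x) (hx0 : x ≠ 0) {k : ℕ} (hk : 2 ≤ k) {c : K} (h : IsLie (c • x ^ k)) : c = 0 := by
  obtain ⟨a, ha⟩ := exists_ne_zero hx0
  obtain ⟨b, hb⟩ := exists_ne_zero (pow_ne_zero_of_hom hx hx0 (k - 1))
  have hal : a.length = i := by
    by_contra h'
    exact ha (hx a h')
  have hbl : b.length = (k - 1) * i := by
    by_contra h'
    exact hb (hx.pow (k - 1) b h')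
  have ha' : a ≠ [] := by
    rintro rfl
    simp at hal
    omega
  have hb' : b ≠ [] := by
    rintro rfl
    simp at hbl
    rcases hbl with h | h <;> omega
  have h1 := ((isLie_iff _).mp h).2 a b ha' hb'
  rw [sh_smul] at h1
  have h2 : sh a b (x ^ k) = (Δ (x ^ k)) a b := rfl
  unfold IsLie at hL
  rw [h2, Δ_pow, hL, Commute.add_pow (T1_comm_T2 x x), NC.sum_apply,
    NC.sum_apply, Finset.sum_eq_single 1] at h1
  · have e : (T1 x ^ 1 * T2 x ^ (k - 1) * ((k.choose 1 : ℕ) : NC X (NC X K))) a b =
        (k : K) * (x a * (x ^ (k - 1)) b) := by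
      rw [pow_one, ← Nat.cast_commute, ← nsmul_eq_mul]
      have e2 : (T2 x : NC X (NC X K)) ^ (k - 1) = T2 (x ^ (k - 1)) :=
        ((T2Hom (X := X) (R := K)).map_pow x (k - 1)).symm
      rw [e2, Nat.choose_one_right]
      have e3 : ∀ (m : ℕ) (F : NC X (NC X K)), (m • F) a b = (m : K) * F a b := by
        intro m F
        induction m with
        | zero => simp
        | succ m ih => rw [succ_nsmul, NC.add_apply, NC.add_apply, ih]; push_cast; ring
      rw [e3, T1_mul_T2_apply]
    rw [e] at h1
    have hk' : (k : K) ≠ 0 := by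
      have : k ≠ 0 := by omega
      exact_mod_cast this
    rcases mul_eq_zero.mp h1 with h3 | h3
    · exact h3
    · exact absurd h3 (mul_ne_zero hk' (mul_ne_zero ha hb))
  · intro m hm hm1
    have e : (T1 x ^ m * T2 x ^ (k - m) * ((k.choose m : ℕ) : NC X (NC X K))) a b =
        (k.choose m : K) * ((x ^ m) a * (x ^ (k - m)) b) := by
      rw [← Nat.cast_commute, ← nsmul_eq_mul]
      have e1 : (T1 x : NC X (NC X K)) ^ m = T1 (x ^ m) :=
        ((T1Hom (X := X) (R := K)).map_pow x m).symm
      have e2 : (T2 x : NC X (NC X K)) ^ (k - m) = T2 (x ^ (k - m)) :=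
        ((T2Hom (X := X) (R := K)).map_pow x (k - m)).symm
      rw [e1, e2]
      have e3 : ∀ (m : ℕ) (F : NC X (NC X K)), (m • F) a b = (m : K) * F a b := by
        intro m F
        induction m with
        | zero => simp
        | succ m ih => rw [succ_nsmul, NC.add_apply, NC.add_apply, ih]; push_cast; ring
      rw [e3, T1_mul_T2_apply]
    rw [e, (hx.pow m) a (by
      rw [hal]
      intro h'
      apply hm1
      have : 1 * i = m * i := by omega
      exact (Nat.eq_of_mul_eq_mul_right hi this).symm)]
    ring
  · intro h'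
    exfalso
    apply h'
    simp only [Finset.mem_range]
    omega

/-- A Lie element in `x * A`, with `x` Lie homogeneous, is a multiple of `x`. -/
theorem lie_right_ideal [CharZero K] {i n : ℕ} (hi : 0 < i) {x y : NC X K} (hx : IsHom i x)
    (hL : IsLie x) (hx0 : x ≠ 0) (hy : IsHom n y) (hyL : IsLie y) (A : NC X K)
    (h : y = x * A) : ∃ c : K, y = c • x := by
  obtain ⟨F, hF1, hF2⟩ := pbw (κ := Unit) (fun _ => x) (fun _ => i) (fun _ => hi) (fun _ => hx)
    (fun _ => hL) (fun A hA k => mul_eq_zero_of_hom hx hx0 (by simpa using hA)) hyL hy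
    (fun _ => A) (by simpa using h)
  -- `F` is supported on one word
  have key : ∀ (k : ℕ) (G : NC Unit K), (∀ W : List Unit, W.length ≠ k → G W = 0) →
      subst (fun _ => x) G = (G (List.replicate k ())) • x ^ k := by
    intro k
    have h0 : ∀ _ : Unit, x [] = 0 := fun _ => hL.nil
    induction k with
    | zero =>
      intro G hG
      have : G = C (G []) := by
        ext W
        cases W with
        | nil => rfl
        | cons a W => exact hG _ (by simp)
      rw [this, subst_C _ h0, C_eq_smul]
      simp
    | succ k ih =>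
      intro G hG
      rw [subst_eq _ h0, hG [] (by simp)]
      have e0 : (C (0 : K) : NC X K) = 0 := CHom.map_zero
      rw [e0, zero_add]
      simp only [Finset.univ_unique, Finset.sum_singleton]
      rw [ih (D default G) (fun W hW => hG _ (by simpa using hW)), mul_smul_comm, pow_succ']
      rfl
  by_cases hy0 : y = 0
  · exact ⟨0, by rw [hy0, zero_smul]⟩
  have hn : ∃ k, n = k * i := by
    by_contra hcon
    push Not at hcon
    apply hy0
    have hF0 : F = 0 := by
      ext W
      refine hF1 W ?_
      have : wt (fun _ : Unit => i) W = W.length * i := by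
        induction W with
        | nil => simp [wt]
        | cons a W ih => rw [wt_cons, ih, List.length_cons]; ring
      rw [this]
      exact (hcon _).symm
    rw [hF2, hF0, subst_zero _ (fun _ => hL.nil)]
  obtain ⟨k, rfl⟩ := hn
  have hFk : ∀ W : List Unit, W.length ≠ k → F W = 0 := by
    intro W hW
    refine hF1 W ?_
    have : wt (fun _ : Unit => i) W = W.length * i := by
      clear hW
      induction W with
      | nil => simp [wt]
      | cons a W ih => rw [wt_cons, ih, List.length_cons]; ring
    rw [this]
    intro h'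
    exact hW (Nat.eq_of_mul_eq_mul_right hi h')
  rw [key k F hFk] at hF2
  rcases Nat.lt_or_ge k 2 with hk | hk
  · interval_cases k
    · exfalso
      apply hy0
      have h1 := hyL.nil
      rw [hF2] at h1 ⊢
      simp only [pow_zero, NC.smul_apply, NC.one_nil, smul_eq_mul, mul_one] at h1
      rw [h1, zero_smul]
    · exact ⟨_, by rw [hF2, pow_one]⟩
  · exfalso
    apply hy0
    rw [hF2] at hyL
    have := pow_not_lie hi hx hL hx0 hk hyL
    rw [hF2, this, zero_smul]

theorem lie_left_ideal [CharZero K] {i n : ℕ} (hi : 0 < i) {x y : NC X K} (hx : IsHom i x)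
    (hL : IsLie x) (hx0 : x ≠ 0) (hy : IsHom n y) (hyL : IsLie y) (A : NC X K)
    (h : y = A * x) : ∃ c : K, y = c • x := by
  obtain ⟨c, hc⟩ := lie_right_ideal hi (rev_isHom hx) hL.rev
    (fun h' => hx0 (rev_eq_zero h')) (rev_isHom hy) hyL.rev (rev A) (by rw [h, rev_mul])
  refine ⟨c, ?_⟩
  have := congrArg rev hc
  rwa [rev_rev, rev_smul, rev_rev] at this

/-- Commuting homogeneous Lie elements are proportional. -/
theorem lie_comm [CharZero K] {i j : ℕ} (hi : 0 < i) (hij : i ≤ j) {x y : NC X K}
    (hx : IsHom i x) (hL : IsLie x) (hx0 : x ≠ 0) (hy : IsHom j y) (hyL : IsLie y)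
    (h : ⁅x, y⁆ = 0) : ∃ c : K, y = c • x := by
  have h1 := weak_algorithm (K := K) (Finset.univ : Finset (Fin 2)) 1 (Finset.mem_univ _)
    ![i, j] (i + j) ![x, y] ![y, -x]
    (by intro k _; fin_cases k <;> simp [hx, hy])
    (by
      intro k _
      fin_cases k
      · simpa using hy
      · simpa using hx.neg)
    (by intro k _; fin_cases k <;> simp [hij]) (by simp) (by simpa using hx0)
    (by rw [Ring.lie_def] at h; simpa [Fin.sum_univ_two, sub_eq_add_neg] using h)
  obtain ⟨c, _, hc⟩ := h1
  have e : (Finset.univ : Finset (Fin 2)).erase 1 = {0} := by decide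
  rw [e, Finset.sum_singleton] at hc
  simp only [Matrix.cons_val_one, Matrix.cons_val_zero] at hc
  exact lie_right_ideal hi hx hL hx0 hy hyL (c 0) hc

end cent

end Pool.Agent.Helper7.Comm
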