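import Pool.Agent.Helper7.Comm.Homog

set_option autoImplicit false

/-! # Lie (primitive) series, and a Poincaré–Birkhoff–Witt type lemma -/

namespace Pool.Agent.Helper7.Comm

open NC

variable {X : Type*}

/-- `f` is a Lie series (primitive). -/
def IsLie {K : Type*} [CommRing K] (f : NC X K) : Prop := Δ f = T1 f + T2 f

section basic

variable {K : Type*} [CommRing K]

theorem T2_apply_nil (f : NC X K) : T2 f [] = f := rfl
theorem T2_apply_cons (f : NC X K) (x : X) (a : List X) : T2 f (x :: a) = 0 := rfl

theorem sh_zero (a b : List X) : sh a b (0 : NC X K) = 0 := by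
  have := sh_smul a b (0 : K) (0 : NC X K)
  simpa using this

theorem sh_sub (a b : List X) (f g : NC X K) : sh a b (f - g) = sh a b f - sh a b g := by
  have := sh_add a b (f - g) g
  rw [sub_add_cancel] at this
  rw [this]; ring

theorem isLie_iff (f : NC X K) :
    IsLie f ↔ f [] = 0 ∧ ∀ a b : List X, a ≠ [] → b ≠ [] → sh a b f = 0 := by
  constructor
  · intro h
    constructor
    · have h1 := congrArg (fun F : NC X (NC X K) => F [] []) h
      simp only [Δ_apply, sh_nil_left, NC.add_apply, T1_apply, C_nil, T2_apply_nil] at h1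
      simpa using h1
    · intro a b ha hb
      have h1 := congrArg (fun F : NC X (NC X K) => F a b) h
      obtain ⟨x, a, rfl⟩ := List.exists_cons_of_ne_nil ha
      obtain ⟨y, b, rfl⟩ := List.exists_cons_of_ne_nil hb
      simpa only [Δ_apply, NC.add_apply, T1_apply, C_cons, T2_apply_cons, add_zero] using h1
  · rintro ⟨h0, h⟩
    unfold IsLie
    ext a b
    cases a with
    | nil =>
      cases b with
      | nil => simp [h0, T1_apply, T2_apply_nil]
      | cons y b => simp [h0, T1_apply, T2_apply_nil]
    | cons x a =>
      cases b with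
      | nil => simp [T1_apply, T2_apply_cons]
      | cons y b =>
        simp only [Δ_apply, NC.add_apply, T1_apply, C_cons, T2_apply_cons, NC.zero_apply, add_zero]
        exact h _ _ (by simp) (by simp)

theorem IsLie.nil {f : NC X K} (h : IsLie f) : f [] = 0 := ((isLie_iff f).mp h).1

theorem IsLie.zero : IsLie (0 : NC X K) := (isLie_iff _).mpr ⟨rfl, fun a b _ _ => sh_zero a b⟩

theorem IsLie.add {f g : NC X K} (hf : IsLie f) (hg : IsLie g) : IsLie (f + g) := by
  unfold IsLie at *; rw [Δ_add, T1_add, T2_add, hf, hg]; abel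

theorem IsLie.smul {f : NC X K} (c : K) (hf : IsLie f) : IsLie (c • f) := by
  rw [isLie_iff] at *
  refine ⟨by simp [hf.1], fun a b ha hb => ?_⟩
  rw [sh_smul, hf.2 a b ha hb, mul_zero]

theorem IsLie.neg {f : NC X K} (hf : IsLie f) : IsLie (-f) := by
  have := hf.smul (-1 : K)
  simpa using this

theorem IsLie.sub {f g : NC X K} (hf : IsLie f) (hg : IsLie g) : IsLie (f - g) := by
  rw [sub_eq_add_neg]; exact hf.add hg.neg

theorem IsLie.sum {κ : Type*} (s : Finset κ) {f : κ → NC X K} (hf : ∀ k ∈ s, IsLie (f k)) :
    IsLie (∑ k ∈ s, f k) := by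
  classical
  induction s using Finset.induction_on with
  | empty => simpa using IsLie.zero
  | insert a s ha ih =>
    rw [Finset.sum_insert ha]
    exact (hf a (Finset.mem_insert_self _ _)).add
      (ih fun k hk => hf k (Finset.mem_insert_of_mem hk))

theorem IsLie.lie [Fintype X] [DecidableEq X] {f g : NC X K} (hf : IsLie f) (hg : IsLie g) :
    IsLie ⁅f, g⁆ := by
  unfold IsLie at *
  rw [Ring.lie_def, T1_sub, T2_sub, T1_mul, T1_mul, T2_mul, T2_mul]
  have : Δ (f * g - g * f) = Δ f * Δ g - Δ g * Δ f := by
    have := (ΔHom (X := X) (R := K)).map_sub (f * g) (g * f)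
    rw [map_mul, map_mul] at this
    exact this
  rw [this, hf, hg]
  have e1 := T1_comm_T2 f g
  have e2 := T1_comm_T2 g f
  simp only [add_mul, mul_add]
  rw [e1, e2]
  abel

theorem sh_isHom {n : ℕ} : ∀ (a b : List X) (f : NC X K), IsHom n f → a.length + b.length ≠ n →
    sh a b f = 0 := by
  intro a b f hf h
  induction hn : a.length + b.length generalizing n a b f with
  | zero =>
    obtain rfl : a = [] := by
      cases a
      · rfl
      · simp at hn
    rw [sh_nil_left]
    exact hf _ (by simpa using h)
  | succ N ih =>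
    cases a with
    | nil => rw [sh_nil_left]; exact hf _ (by simpa using h)
    | cons x a =>
      cases b with
      | nil => rw [sh_nil_right]; exact hf _ (by simpa using h)
      | cons y b =>
        rw [sh_cons_cons]
        have hD : ∀ z, IsHom (n - 1) (D z f) ∨ n = 0 := by
          intro z
          rcases Nat.eq_zero_or_pos n with h0 | h0
          · exact Or.inr h0
          · left
            intro w hw
            exact hf _ (by simp; omega)
        rcases Nat.eq_zero_or_pos n with h0 | h0
        · have hz : ∀ z, D z f = 0 := by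
            intro z
            ext w
            exact hf _ (by simp [h0])
          rw [hz, hz, sh_zero, sh_zero, add_zero]
        · rw [ih (n := n - 1) _ _ _ ((hD x).resolve_right (by omega)) (by simp at h ⊢; omega)
            (by simp at hn ⊢; omega),
            ih (n := n - 1) _ _ _ ((hD y).resolve_right (by omega)) (by simp at h ⊢; omega)
            (by simp at hn ⊢; omega), add_zero]

theorem sh_congr : ∀ (a b : List X) (f g : NC X K),
    (∀ w : List X, w.length = a.length + b.length → f w = g w) → sh a b f = sh a b g := by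
  intro a b f g h
  induction hn : a.length + b.length generalizing a b f g with
  | zero =>
    obtain rfl : a = [] := by
      cases a
      · rfl
      · simp at hn
    rw [sh_nil_left, sh_nil_left]
    exact h _ (by simp)
  | succ N ih =>
    cases a with
    | nil => rw [sh_nil_left, sh_nil_left]; exact h _ (by simp)
    | cons x a =>
      cases b with
      | nil => rw [sh_nil_right, sh_nil_right]; exact h _ (by simp)
      | cons y b =>
        rw [sh_cons_cons, sh_cons_cons]
        rw [ih _ _ (D x f) (D x g) (fun w hw => h _ (by simp [hw]; omega))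
            (by simp at hn ⊢; omega),
          ih _ _ (D y f) (D y g) (fun w hw => h _ (by simp [hw]; omega))
            (by simp at hn ⊢; omega)]

theorem IsLie.comp {f : NC X K} (hf : IsLie f) (n : ℕ) : IsLie (comp n f) := by
  rw [isLie_iff] at *
  refine ⟨?_, fun a b ha hb => ?_⟩
  · rw [comp_apply]; split_ifs
    · exact hf.1
    · rfl
  · by_cases h : a.length + b.length = n
    · rw [sh_congr a b (NC.comp n f) f (fun w hw => by rw [comp_apply, if_pos (by omega)])]
      exact hf.2 a b ha hb
    · exact sh_isHom a b _ (comp_isHom n f) h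

theorem isLie_letter [DecidableEq X] (x : X) : IsLie (letter x : NC X K) := by
  rw [isLie_iff]
  refine ⟨letter_nil x, fun a b ha hb => ?_⟩
  refine sh_isHom (n := 1) a b _ (fun w hw => ?_) ?_
  · simp only [letter, mk_apply]
    rw [if_neg]
    rintro rfl
    simp at hw
  · obtain ⟨x, a, rfl⟩ := List.exists_cons_of_ne_nil ha
    obtain ⟨y, b, rfl⟩ := List.exists_cons_of_ne_nil hb
    simp only [List.length_cons]
    omega

end basic

section pbw

variable [Fintype X] [DecidableEq X] {K : Type*} [Field K]

/-- The operator `(φ ⊗ id) ∘ Δ`. -/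
def Top (m : ℕ) (φ : (Fin m → X) → K) (f : NC X K) : NC X K :=
  ∑ v : Fin m → X, φ v • (Δ f (List.ofFn v))

omit [DecidableEq X] in
theorem Top_add (m : ℕ) (φ : (Fin m → X) → K) (f g : NC X K) :
    Top m φ (f + g) = Top m φ f + Top m φ g := by
  simp only [Top, Δ_add, NC.add_apply, smul_add, Finset.sum_add_distrib]

omit [DecidableEq X] in
theorem Top_sum (m : ℕ) (φ : (Fin m → X) → K) {κ : Type*} (s : Finset κ) (f : κ → NC X K) :
    Top m φ (∑ k ∈ s, f k) = ∑ k ∈ s, Top m φ (f k) := by
  have h := map_sum (AddMonoidHom.mk' (Top m φ) (Top_add m φ)) f s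
  exact h

theorem Top_mul (m : ℕ) (φ : (Fin m → X) → K) {h : NC X K} (hh : IsLie h)
    (hφ : ∀ B : NC X K, ∑ v : Fin m → X, φ v * (h * B) (List.ofFn v) = 0) (f : NC X K) :
    Top m φ (h * f) = h * Top m φ f := by
  unfold IsLie at hh
  simp only [Top, Δ_mul, hh, add_mul, NC.add_apply, smul_add, Finset.sum_add_distrib,
    T2_mul_apply, Finset.mul_sum, mul_smul_comm]
  convert zero_add _
  ext b
  rw [NC.sum_apply]
  simp only [NC.smul_apply, T1_mul_apply, smul_eq_mul]
  exact hφ _

/-- Nothing but zero is killed... property used in the induction. -/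
def Killed {κ : Type*} [Fintype κ] (h : κ → NC X K) (f : NC X K) : Prop :=
  ∀ (m : ℕ) (φ : (Fin m → X) → K), 0 < m →
    (∀ A : κ → NC X K, ∑ v : Fin m → X, φ v * (∑ k, h k * A k) (List.ofFn v) = 0) →
    Top m φ f = 0

omit [DecidableEq X] in
theorem killed_of_lie {κ : Type*} [Fintype κ] (h : κ → NC X K) {z : NC X K} (hz : IsLie z)
    (A : κ → NC X K) (hA : z = ∑ k, h k * A k) : Killed h z := by
  intro m φ hm hφ
  unfold IsLie at hz
  have e : ∀ v : Fin m → X, Δ z (List.ofFn v) = C (z (List.ofFn v)) := by
    intro v
    rw [hz, NC.add_apply, T1_apply]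
    obtain ⟨n, rfl⟩ : ∃ n, m = n + 1 := ⟨m - 1, by omega⟩
    rw [List.ofFn_succ, T2_apply_cons, add_zero]
  simp only [Top, e]
  have h1 := hφ A
  rw [← hA] at h1
  ext b
  rw [NC.sum_apply]
  simp only [NC.smul_apply, smul_eq_mul]
  cases b with
  | nil => simpa using h1
  | cons y b => simp

/-- Membership in the right ideal, in a fixed degree. -/
theorem exists_of_killed {κ : Type*} [Fintype κ] (h : κ → NC X K) (d : κ → ℕ)
    (hd : ∀ k, IsHom (d k) (h k)) {f : NC X K} (hf : Killed h f) {n : ℕ} (hn : 0 < n)
    (hfn : IsHom n f) :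
    ∃ A : κ → NC X K, (∀ k, IsHom (n - d k) (A k)) ∧ (∀ k, n < d k → A k = 0) ∧
      f = ∑ k, h k * A k := by
  classical
  let res : NC X K →ₗ[K] ((Fin n → X) → K) :=
    { toFun := fun g v => g (List.ofFn v)
      map_add' := fun _ _ => rfl
      map_smul' := fun _ _ => rfl }
  let J : Submodule K ((Fin n → X) → K) :=
    { carrier := {g | ∃ A : κ → NC X K, g = res (∑ k, h k * A k)}
      add_mem' := by
        rintro _ _ ⟨A, rfl⟩ ⟨B, rfl⟩
        refine ⟨fun k => A k + B k, ?_⟩
        rw [← map_add, ← Finset.sum_add_distrib]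
        simp only [mul_add]
      zero_mem' := ⟨fun _ => 0, by simp⟩
      smul_mem' := by
        rintro c _ ⟨A, rfl⟩
        refine ⟨fun k => c • A k, ?_⟩
        rw [← map_smul, Finset.smul_sum]
        simp only [mul_smul_comm] }
  have hmem : res f ∈ J := by
    by_contra hcon
    obtain ⟨ψ, hψ1, hψ2⟩ := Submodule.exists_le_ker_of_notMem hcon
    have hform : ∀ g : (Fin n → X) → K, ψ g = ∑ v, ψ (Pi.single v 1) * g v := by
      intro g
      conv_lhs => rw [← Finset.univ_sum_single g]
      rw [map_sum]
      refine Finset.sum_congr rfl fun v _ => ?_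
      have : (Pi.single v (g v) : (Fin n → X) → K) = g v • Pi.single v (1 : K) := by
        rw [← Pi.single_smul]; simp
      rw [this, map_smul, smul_eq_mul, mul_comm]
    have h1 := hf n (fun v => ψ (Pi.single v 1)) hn (by
      intro A
      have : res (∑ k, h k * A k) ∈ J := ⟨A, rfl⟩
      have h2 := hψ1
      have h3 : ψ (res (∑ k, h k * A k)) = 0 := hψ2 this
      rw [hform] at h3
      exact h3)
    have h2 : Top n (fun v => ψ (Pi.single v 1)) f [] = ψ (res f) := by
      rw [hform]
      simp only [Top, NC.sum_apply, NC.smul_apply, Δ_apply, sh_nil_right, smul_eq_mul]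
      rfl
    rw [h1] at h2
    exact hψ1 h2.symm
  obtain ⟨A, hA⟩ := hmem
  refine ⟨fun k => if n < d k then 0 else comp (n - d k) (A k), fun k => ?_, fun k hk => ?_, ?_⟩
  · dsimp only
    split_ifs
    · exact IsHom.zero _
    · exact comp_isHom _ _
  · simp [hk]
  · have h1 : f = comp n (∑ k, h k * A k) := by
      ext w
      rw [comp_apply]
      split_ifs with hw
      · have := congrFun hA (fun i => w.get (Fin.cast hw.symm i))
        have e : List.ofFn (fun i => w.get (Fin.cast hw.symm i)) = w := by
          subst hw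
          exact List.ofFn_get w
        change f (List.ofFn _) = (∑ k, h k * A k) (List.ofFn _) at this
        rwa [e] at this
      · exact hfn w hw
    rw [h1, comp_sum]
    refine Finset.sum_congr rfl fun k _ => ?_
    dsimp only
    split_ifs with hk
    · rw [mul_zero, comp_mul_left_short (hd k) _ hk]
    · rw [← comp_mul_left (hd k)]
      congr 1
      omega

theorem subst_of_killed {κ : Type*} [Fintype κ] (h : κ → NC X K) (d : κ → ℕ)
    (hd0 : ∀ k, 0 < d k) (hd : ∀ k, IsHom (d k) (h k)) (hL : ∀ k, IsLie (h k))
    (hind : ∀ A : κ → NC X K, ∑ k, h k * A k = 0 → ∀ k, A k = 0) :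
    ∀ (n : ℕ) (f : NC X K), IsHom n f → Killed h f →
      ∃ F : NC κ K, (∀ W, wt d W ≠ n → F W = 0) ∧ f = subst h F := by
  have h0 : ∀ k, h k [] = 0 := fun k => hd k [] (by simpa using (hd0 k).ne)
  intro n
  induction n using Nat.strong_induction_on with
  | _ n ih =>
    intro f hfn hf
    rcases Nat.eq_zero_or_pos n with rfl | hn
    · refine ⟨C (f []), ?_, ?_⟩
      · intro W hW
        cases W with
        | nil => exact absurd rfl hW
        | cons a W => rfl
      · rw [subst_C h h0]
        ext w
        cases w with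
        | nil => rfl
        | cons a w => exact hfn _ (by simp)
    · obtain ⟨A, hA1, hA2, hA3⟩ := exists_of_killed h d hd hf hn hfn
      have hK : ∀ k, Killed h (A k) := by
        intro k m φ hm hφ
        have hφk : ∀ k (B : NC X K), ∑ v : Fin m → X, φ v * (h k * B) (List.ofFn v) = 0 := by
          classical
          intro k B
          have := hφ (Pi.single k B)
          rw [Finset.sum_eq_single k (by
            intro j _ hj
            rw [Pi.single_eq_of_ne hj, mul_zero]) (by simp)] at this
          simpa using this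
        have h1 := hf m φ hm hφ
        rw [hA3, Top_sum] at h1
        have h2 : ∀ k, Top m φ (h k * A k) = h k * Top m φ (A k) :=
          fun k => Top_mul m φ (hL k) (hφk k) _
        simp only [h2] at h1
        exact hind _ h1 k
      have hF : ∀ k, ∃ F : NC κ K, (∀ W, wt d W ≠ n - d k → F W = 0) ∧
          (n < d k → F = 0) ∧ A k = subst h F := by
        intro k
        by_cases hk : n < d k
        · refine ⟨0, fun _ _ => rfl, fun _ => rfl, ?_⟩
          rw [subst_zero h h0, hA2 k hk]
        · obtain ⟨F, hF1, hF2⟩ := ih (n - d k) (by have := hd0 k; omega) (A k) (hA1 k) (hK k)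
          exact ⟨F, hF1, fun h => absurd h hk, hF2⟩
      choose F hF1 hF2 hF3 using hF
      refine ⟨⟨fun W => match W with
        | [] => 0
        | k :: W => F k W⟩, ?_, ?_⟩
      · intro W hW
        cases W with
        | nil => rfl
        | cons k W =>
          simp only [mk_apply]
          by_cases hk : n < d k
          · rw [hF2 k hk]; rfl
          · refine hF1 k W ?_
            rw [wt_cons] at hW
            omega
      · rw [subst_eq h h0]
        have e0 : (C (0 : K) : NC X K) = 0 := CHom.map_zero
        change f = C 0 + ∑ k, h k * subst h (F k)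
        rw [e0, zero_add, hA3]
        exact Finset.sum_congr rfl fun k _ => by rw [← hF3 k]

/-- Poincaré–Birkhoff–Witt type lemma: a Lie element in the right ideal generated by
right-independent homogeneous Lie elements `h k` is a polynomial in the `h k`. -/
theorem pbw {κ : Type*} [Fintype κ] (h : κ → NC X K) (d : κ → ℕ)
    (hd0 : ∀ k, 0 < d k) (hd : ∀ k, IsHom (d k) (h k)) (hL : ∀ k, IsLie (h k))
    (hind : ∀ A : κ → NC X K, ∑ k, h k * A k = 0 → ∀ k, A k = 0)
    {n : ℕ} {z : NC X K} (hz : IsLie z) (hzn : IsHom n z) (A : κ → NC X K)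
    (hA : z = ∑ k, h k * A k) :
    ∃ F : NC κ K, (∀ W, wt d W ≠ n → F W = 0) ∧ z = subst h F :=
  subst_of_killed h d hd0 hd hL hind n z hzn (killed_of_lie h hz A hA)

end pbw

end Pool.Agent.Helper7.Comm
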