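import Pool.Agent.Helper7.Comm.Defs2
import Pool.Agent.Helper77.Comm.ChainQ
import Pool.Agent.Helper57.ConjTools

set_option autoImplicit false

/-! # Auxiliary lemmas for Proposition E -/

namespace Pool.Agent.Helper7.Comm

open NC Pool.Agent.Helper57.Reduce Pool.Agent.Helper57.ConjTools Pool.Agent.Helper77.Comm

section gen

variable {X : Type} {K : Type} [Field K]

theorem Ord.add {n : ℕ} {f g : NC X K} (hf : Ord n f) (hg : Ord n g) : Ord n (f + g) :=
  fun w hw => by rw [NC.add_apply, hf w hw, hg w hw, add_zero]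

theorem Ord.neg {n : ℕ} {f : NC X K} (hf : Ord n f) : Ord n (-f) :=
  fun w hw => by rw [NC.neg_apply, hf w hw, neg_zero]

theorem Ord.smul {n : ℕ} {f : NC X K} (c : K) (hf : Ord n f) : Ord n (c • f) :=
  fun w hw => by rw [NC.smul_apply, hf w hw, smul_zero]

theorem Ord.mono {m n : ℕ} (h : m ≤ n) {f : NC X K} (hf : Ord n f) : Ord m f :=
  fun w hw => hf w (by omega)

theorem Ord.zero (n : ℕ) : Ord n (0 : NC X K) := fun _ _ => rfl

theorem ord_hom {n : ℕ} {f : NC X K} (hf : IsHom n f) : Ord n f :=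
  fun w hw => hf w (by omega)

theorem comp_of_ord {m n : ℕ} {f : NC X K} (hf : Ord n f) (h : m < n) : comp m f = 0 := by
  ext w
  rw [comp_apply]
  split_ifs with hw
  · exact hf w (by omega)
  · rfl

theorem ord_succ {n : ℕ} {f : NC X K} (hf : Ord n f) (h : comp n f = 0) : Ord (n + 1) f := by
  intro w hw
  rcases Nat.lt_or_ge w.length n with h1 | h1
  · exact hf w h1
  · have := congrArg (fun g : NC X K => g w) h
    simpa [comp_apply, show w.length = n by omega] using this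

theorem ord_of_comp {n : ℕ} {f : NC X K} (h : ∀ m < n, comp m f = 0) : Ord n f := by
  intro w hw
  have := congrArg (fun g : NC X K => g w) (h w.length hw)
  simpa [comp_apply] using this

theorem comp_smul (n : ℕ) (c : K) (f : NC X K) : comp n (c • f) = c • comp n f := by
  ext w; simp only [comp_apply, NC.smul_apply]; split_ifs <;> simp

theorem br_lead {a b : ℕ} {f g : NC X K} (hf : Ord a f) (hg : Ord b g) :
    Ord (a + b) ⁅f, g⁆ ∧ comp (a + b) ⁅f, g⁆ = ⁅comp a f, comp b g⁆ := by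
  rw [Ring.lie_def, Ring.lie_def]
  refine ⟨(hf.mul hg).sub (by rw [add_comm]; exact hg.mul hf), ?_⟩
  rw [comp_sub, comp_mul_ord hf hg, add_comm a b, comp_mul_ord hg hf]

theorem hom_ne_smul {i n : ℕ} {x z : NC X K} (hx : IsHom i x) (hz : IsHom n z) (hz0 : z ≠ 0)
    (h : n ≠ i) (c : K) : z ≠ c • x := by
  intro hc
  apply hz0
  ext w
  by_cases hw : w.length = n
  · rw [hc, NC.smul_apply, hx w (by omega), smul_zero]; rfl
  · exact hz w hw

end gen

section cor

variable {X : Type} [Fintype X] [DecidableEq X] {K : Type} [Field K] [CharZero K]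

theorem ad_inj {i n : ℕ} (hi : 0 < i) (hn : 0 < n) (hin : n ≠ i) {x z : NC X K} (hx : IsHom i x)
    (hxL : IsLie x) (hx0 : x ≠ 0) (hz : IsHom n z) (hzL : IsLie z) (h : ⁅x, z⁆ = 0) : z = 0 := by
  by_contra hz0
  rcases Nat.lt_or_ge n i with h1 | h1
  · have h' : ⁅z, x⁆ = 0 := by
      rw [Ring.lie_def] at h ⊢; rw [← neg_sub, h, neg_zero]
    obtain ⟨c, hc⟩ := lie_comm hn h1.le hz hzL hz0 hx hxL h'
    exact hom_ne_smul hz hx hx0 (by omega) c hc
  · obtain ⟨c, hc⟩ := lie_comm hi h1 hx hxL hx0 hz hzL h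
    exact hom_ne_smul hx hz hz0 (by omega) c hc

/-- Data: `x` of degree `i`, `u` of degree `p > i`, homogeneous nonzero Lie elements. -/
structure XU (i p : ℕ) (x u : NC X K) : Prop where
  hi : 0 < i
  hip : i < p
  hx : IsHom i x
  hxL : IsLie x
  hx0 : x ≠ 0
  hu : IsHom p u
  huL : IsLie u
  hu0 : u ≠ 0

namespace XU

variable {i p : ℕ} {x u : NC X K} (H : XU i p x u)
include H

omit [Fintype X] [DecidableEq X] [CharZero K] in
theorem hne (c : K) : u ≠ c • x := hom_ne_smul H.hx H.hu H.hu0 (by have := H.hip; omega) c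

omit [Fintype X] [DecidableEq X] [CharZero K] in
theorem h0 : ∀ k : Fin 2, (![x, u] : Fin 2 → NC X K) k [] = 0 := by
  intro k; fin_cases k
  · exact H.hxL.nil
  · exact H.huL.nil

theorem ind (A : Fin 2 → NC X K) (hA : ∑ k, (![x, u] : Fin 2 → NC X K) k * A k = 0) :
    ∀ k, A k = 0 :=
  indep2 H.hi H.hip.le H.hx H.hxL H.hx0 H.hu H.huL H.hne A hA

omit [Fintype X] [DecidableEq X] [CharZero K] in
theorem hd : ∀ k : Fin 2, IsHom ((![i, p] : Fin 2 → ℕ) k) ((![x, u] : Fin 2 → NC X K) k) := by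
  intro k; fin_cases k
  · exact H.hx
  · exact H.hu

omit [Fintype X] [DecidableEq X] [CharZero K] in
theorem hL : ∀ k : Fin 2, IsLie ((![x, u] : Fin 2 → NC X K) k) := by
  intro k; fin_cases k
  · exact H.hxL
  · exact H.huL

omit [Fintype X] [DecidableEq X] [CharZero K] in
theorem hd0 : ∀ k : Fin 2, 0 < (![i, p] : Fin 2 → ℕ) k := by
  intro k; fin_cases k
  · exact H.hi
  · exact H.hi.trans H.hip

theorem lie {n : ℕ} (hn : 0 < n) {F : NC (Fin 2) K} (hF : ∀ W, wt ![i, p] W ≠ n → F W = 0)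
    (hz : IsLie (subst ![x, u] F)) : IsLie F :=
  (lie_of_subst ![x, u] ![i, p] H.hd0 H.hd H.hL H.ind hn hF hz).1

theorem inj {F G : NC (Fin 2) K} (h : subst ![x, u] F = subst ![x, u] G) : F = G := by
  have h1 : subst ![x, u] (F - G) = 0 := by
    rw [sub_eq_add_neg, ← neg_one_smul K G, subst_add _ H.h0, subst_smul _ H.h0, h]
    simp
  exact sub_eq_zero.mp (subst_injective _ H.h0 H.ind _ h1)

omit [Fintype X] [DecidableEq X] [CharZero K] in
theorem s0 : subst ![x, u] (letter 0 : NC (Fin 2) K) = x := by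
  rw [subst_letter _ H.h0]; rfl

omit [Fintype X] [DecidableEq X] [CharZero K] in
theorem s1 : subst ![x, u] (letter 1 : NC (Fin 2) K) = u := by
  rw [subst_letter _ H.h0]; rfl

end XU

omit [Fintype X] [DecidableEq X] [CharZero K] in
/-- Weight-homogeneous series have bounded length. -/
theorem wt_bd {i p n : ℕ} (hi : 0 < i) (hp : 0 < p) {F : NC (Fin 2) K}
    (hF : ∀ W, wt ![i, p] W ≠ n → F W = 0) : ∃ N, ∀ w : List (Fin 2), N < w.length → F w = 0 := by
  refine ⟨n, fun w hw => hF w ?_⟩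
  have : w.length ≤ wt ![i, p] w := by
    clear hw hF
    induction w with
    | nil => simp
    | cons a w ih =>
      rw [wt_cons, List.length_cons]
      have : 1 ≤ (![i, p] : Fin 2 → ℕ) a := by fin_cases a <;> simp <;> omega
      omega
  omega

section cors

omit [Fintype X] [DecidableEq X] [CharZero K] in
theorem wt_mul {d : Fin 2 → ℕ} {m n : ℕ} {F G : NC (Fin 2) K}
    (hF : ∀ W, wt d W ≠ m → F W = 0) (hG : ∀ W, wt d W ≠ n → G W = 0) :
    ∀ W, wt d W ≠ m + n → (F * G) W = 0 := by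
  intro W hW
  rw [NC.mul_apply]
  refine Finset.sum_eq_zero fun k _ => ?_
  have h1 : wt d (W.take k) + wt d (W.drop k) = wt d W := by
    rw [← wt_append, List.take_append_drop]
  by_cases h2 : wt d (W.take k) = m
  · rw [hG _ (by omega), mul_zero]
  · rw [hF _ h2, zero_mul]

omit [Fintype X] [DecidableEq X] [CharZero K] in
theorem wt_lie {d : Fin 2 → ℕ} {m n : ℕ} {F G : NC (Fin 2) K}
    (hF : ∀ W, wt d W ≠ m → F W = 0) (hG : ∀ W, wt d W ≠ n → G W = 0) :
    ∀ W, wt d W ≠ m + n → ⁅F, G⁆ W = 0 := by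
  intro W hW
  rw [Ring.lie_def, NC.sub_apply, wt_mul hF hG W hW, wt_mul hG hF W (by omega), sub_zero]

omit [Fintype X] [DecidableEq X] [CharZero K] in
theorem wt_letter (i p : ℕ) (k : Fin 2) :
    ∀ W, wt ![i, p] W ≠ (![i, p] : Fin 2 → ℕ) k → (letter k : NC (Fin 2) K) W = 0 := by
  intro W hW
  simp only [letter, mk_apply]
  rw [if_neg]
  rintro rfl
  simp [wt] at hW

omit [Fintype X] [DecidableEq X] [CharZero K] in
theorem wt_D {i p n : ℕ} {F : NC (Fin 2) K} (hF : ∀ W, wt ![i, p] W ≠ n → F W = 0) (k : Fin 2) (W : List (Fin 2))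
    (hW : wt ![i, p] W ≠ n - (![i, p] : Fin 2 → ℕ) k) (hk : (![i, p] : Fin 2 → ℕ) k ≤ n) : D k F W = 0 := by
  rw [D_apply]
  apply hF
  rw [wt_cons]
  omega

omit [Fintype X] [DecidableEq X] [CharZero K] in
theorem wt_smul_adp (i p e : ℕ) (c : K) :
    ∀ W, wt ![i, p] W ≠ p + e * i → (c • (adp e : NC (Fin 2) K)) W = 0 := by
  have key : ∀ W, wt ![i, p] W ≠ p + e * i → (adp e : NC (Fin 2) K) W = 0 := by
    induction e with
    | zero =>
      intro W hW
      exact wt_letter i p 1 W (by simpa using hW)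
    | succ e ih =>
      intro W hW
      exact wt_lie (wt_letter i p 0) ih W (by simp; rw [add_mul] at hW; omega)
  intro W hW
  rw [NC.smul_apply, key W hW, smul_zero]

variable {i p : ℕ} {x u : NC X K}

omit [Fintype X] [DecidableEq X] [CharZero K] in
/-- A weight-homogeneous element of the subalgebra lies in the right ideal. -/
theorem split_subst (H : XU i p x u) {n : ℕ} (hn : 0 < n) {F : NC (Fin 2) K}
    (hF : ∀ W, wt ![i, p] W ≠ n → F W = 0) :
    ∃ y1 y2 : NC X K, IsHom (n - i) y1 ∧ IsHom (n - p) y2 ∧ subst ![x, u] F = x * y1 + u * y2 := by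
  have key : ∀ k : Fin 2, IsHom (n - (![i, p] : Fin 2 → ℕ) k) (subst ![x, u] (D k F)) := by
    intro k
    by_cases hk : (![i, p] : Fin 2 → ℕ) k ≤ n
    · exact Pool.Agent.Helper59.Dynkin.subst_isHom ![x, u] ![i, p] H.hd0 H.hd _ _
        (fun W hW => wt_D hF k W hW hk)
    · have : D k F = 0 := by
        ext W
        rw [D_apply, hF, NC.zero_apply]
        rw [wt_cons]; omega
      rw [this, subst_zero _ H.h0]
      exact IsHom.zero _
  refine ⟨_, _, key 0, key 1, ?_⟩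
  rw [subst_eq _ H.h0, Fin.sum_univ_two]
  have : F [] = 0 := hF [] (by rw [wt_nil]; omega)
  rw [this]
  have hC : (C 0 : NC X K) = 0 := by ext w; cases w <;> simp
  rw [hC, zero_add]
  rfl

/-- Kernel equations with `u`. -/
theorem corE (H : XU i p x u) {n b : ℕ} (hpn : p ≤ n) (hb : i + b = n + p) {z V : NC X K}
    (hz : IsHom n z) (hzL : IsLie z) (hV : IsHom b V) (hVL : IsLie V)
    (h : ⁅u, z⁆ + ⁅x, V⁆ = 0) :
    ∃ F G : NC (Fin 2) K, (∀ W, wt ![i, p] W ≠ n → F W = 0) ∧ (∀ W, wt ![i, p] W ≠ b → G W = 0) ∧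
      z = subst ![x, u] F ∧ V = subst ![x, u] G ∧ IsLie F ∧ IsLie G ∧
      ⁅(letter 0 : NC (Fin 2) K), G⁆ + ⁅(letter 1 : NC (Fin 2) K), F⁆ = 0 := by
  have hp : 0 < p := H.hi.trans H.hip
  have hip := H.hip
  have h' : ⁅x, -V⁆ + ⁅z, u⁆ + 0 = 0 := by
    simp only [Ring.lie_def] at h ⊢
    have e : x * -V - -V * x + (z * u - u * z) + 0 = -(u * z - z * u + (x * V - V * x)) := by
      noncomm_ring
    rw [e, h, neg_zero]
  obtain ⟨⟨F, hF, hzF⟩, G, hG, hVG⟩ := lemW (j := p) (a := n) (b := b) (f1 := 0) (f2 := 0) (y1 := 0)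
    (y2 := 1) H.hi H.hip.le le_rfl hpn hb H.hx H.hxL H.hx0 H.hu H.huL H.hne H.hu H.huL H.hne hz hzL
    hV.neg hVL.neg (IsHom.zero _) (by
      intro w hw
      cases w with
      | nil => simp at hw
      | cons a w => rfl) (by simp) (IsHom.zero _) (IsHom.zero _) (by simp) h'
  have hVG' : V = subst ![x, u] (-G) := by
    rw [← neg_one_smul K G, subst_smul _ H.h0, ← hVG]; simp
  have hG' : ∀ W, wt ![i, p] W ≠ b → (-G) W = 0 := fun W hW => by
    rw [NC.neg_apply, hG W hW, neg_zero]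
  refine ⟨F, -G, hF, hG', hzF, hVG', H.lie (by omega) hF (hzF ▸ hzL),
    H.lie (by omega) hG' (hVG' ▸ hVL), ?_⟩
  apply H.inj
  rw [subst_add _ H.h0, Pool.Agent.Helper59.Dynkin.subst_lie _ H.h0,
    Pool.Agent.Helper59.Dynkin.subst_lie _ H.h0, H.s0, H.s1, ← hzF, ← hVG', subst_zero _ H.h0,
    add_comm, h]

/-- Kernel equations with `y` in the subalgebra. -/
theorem corW (H : XU i p x u) {j a b : ℕ} (hpj : p ≤ j) (hpa : p ≤ a) (hb : i + b = a + j)
    {Fy Ff : NC (Fin 2) K} {U V : NC X K} (hFy : ∀ W, wt ![i, p] W ≠ j → Fy W = 0)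
    (hFyL : IsLie (subst ![x, u] Fy)) (hFy0 : Fy ≠ 0)
    (hFf : ∀ W, wt ![i, p] W ≠ a + j → Ff W = 0)
    (hU : IsHom a U) (hUL : IsLie U) (hV : IsHom b V) (hVL : IsLie V)
    (h : ⁅U, subst ![x, u] Fy⁆ + subst ![x, u] Ff + ⁅x, V⁆ = 0) :
    ∃ F G : NC (Fin 2) K, (∀ W, wt ![i, p] W ≠ a → F W = 0) ∧ (∀ W, wt ![i, p] W ≠ b → G W = 0) ∧
      U = subst ![x, u] F ∧ V = subst ![x, u] G ∧ IsLie F ∧ IsLie G ∧
      ⁅(letter 0 : NC (Fin 2) K), G⁆ + ⁅F, Fy⁆ + Ff = 0 := by
  have hp : 0 < p := H.hi.trans H.hip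
  have hip := H.hip
  obtain ⟨y1, y2, hy1, hy2, hyy⟩ := split_subst H (n := j) (by omega) hFy
  obtain ⟨f1, f2, hf1, hf2, hff⟩ := split_subst H (n := a + j) (by omega) hFf
  have hyne : ∀ c : K, subst ![x, u] Fy ≠ c • x := by
    refine hom_ne_smul H.hx (Pool.Agent.Helper59.Dynkin.subst_isHom ![x, u] ![i, p] H.hd0 H.hd _ _
      hFy) ?_ (by omega)
    intro h0
    exact hFy0 (subst_injective _ H.h0 H.ind _ h0)
  obtain ⟨⟨F, hF, hUF⟩, G, hG, hVG⟩ := lemW (j := j) (a := a) (b := b) H.hi H.hip.le hpj hpa hb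
    H.hx H.hxL H.hx0 H.hu H.huL H.hne
    (Pool.Agent.Helper59.Dynkin.subst_isHom ![x, u] ![i, p] H.hd0 H.hd _ _ hFy) hFyL hyne hU hUL
    hV hVL hy1 hy2 hyy (show IsHom b f1 by rw [show b = a + j - i by omega]; exact hf1) hf2 hff
    (by rw [← h]; abel)
  refine ⟨F, G, hF, hG, hUF, hVG, H.lie (by omega) hF (hUF ▸ hUL),
    H.lie (by omega) hG (hVG ▸ hVL), ?_⟩
  apply H.inj
  rw [subst_add _ H.h0, subst_add _ H.h0, Pool.Agent.Helper59.Dynkin.subst_lie _ H.h0,
    Pool.Agent.Helper59.Dynkin.subst_lie _ H.h0, H.s0, ← hUF, ← hVG, subst_zero _ H.h0, ← h]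
  abel

end cors

end cor

end Pool.Agent.Helper7.Comm
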