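import Pool.Agent.Helper7.Comm.PropEA

set_option autoImplicit false
set_option linter.unusedSectionVars false

/-! # Proposition E over the small field -/

namespace Pool.Agent.Helper7.Comm

open NC Pool.Agent.Helper57.Reduce Pool.Agent.Helper57.ConjTools Pool.Agent.Helper77.Comm

variable {X : Type} [Fintype X] [DecidableEq X] {K : Type} [Field K] [CharZero K]

/-- Hypotheses of Proposition E over `K`. -/
structure ED (i j l : ℕ) (P : (NC X K)ˣ) (Q U₁ V₁ U V u v : NC X K) : Prop where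
  hi : 0 < i
  hl : 0 < l
  hij : i + l < j
  hP0 : (P : NC X K) [] = 1
  hP : Ord i ((P : NC X K) - 1)
  hPg : Δ (P : NC X K) = T1 (P : NC X K) * T2 (P : NC X K)
  hQ : IsLie Q
  hU₁ : IsLie U₁
  hV₁ : IsLie V₁
  hU : IsLie U
  hV : IsLie V
  hQo : Ord j Q
  hU₁o : Ord (i + l) U₁
  hV₁o : Ord (j + l) V₁
  hUo : Ord (i + l + 1) U
  hVo : Ord (j + l + 1) V
  hu : comp (i + l) U₁ = u
  hv : comp (j + l) V₁ = v
  hne : ⁅comp i (P : NC X K), comp j Q⁆ ≠ 0
  hA : Ord (i + j + 2 * l) (V₁ - cj P V₁ + ⁅U₁, Q⁆)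
  hB : Ord (i + j + 2 * l + 1) (V - cj P V + ⁅U, Q⁆ + ⁅u, v⁆)
  huv : u ≠ 0 ∨ v ≠ 0

namespace ED

variable {i j l : ℕ} {P : (NC X K)ˣ} {Q U₁ V₁ U V u v : NC X K} (H : ED i j l P Q U₁ V₁ U V u v)
include H

theorem x0 : comp i (P : NC X K) ≠ 0 := fun h => H.hne (by rw [h]; simp [Ring.lie_def])

theorem y0 : comp j Q ≠ 0 := fun h => H.hne (by rw [h]; simp [Ring.lie_def])

theorem xL : IsLie (comp i (P : NC X K)) := lead_lie H.hi H.hPg (og_of_ord H.hP)

theorem yL : IsLie (comp j Q) := H.hQ.comp j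

theorem uH : IsHom (i + l) u := H.hu ▸ comp_isHom _ _

theorem vH : IsHom (j + l) v := H.hv ▸ comp_isHom _ _

theorem uL : IsLie u := H.hu ▸ H.hU₁.comp _

theorem vL : IsLie v := H.hv ▸ H.hV₁.comp _

theorem eq1 : ⁅u, comp j Q⁆ + ⁅comp i (P : NC X K), v⁆ = 0 := by
  have hl := H.hl
  have h1 := comp_of_ord H.hA (show j + l + i < i + j + 2 * l by omega)
  rw [comp_add] at h1
  have h2 := (cj_lead P i H.hi H.hP0 H.hP H.hV₁o).2
  have h3 := comp_of_ord h2 (show j + l + i < j + l + i + 1 by omega)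
  rw [comp_sub, H.hv, comp_eq_self (n := j + l + i) (f := ⁅comp i (P : NC X K), v⁆) (by
    have := (comp_isHom i (P : NC X K)).lie H.vH
    rwa [add_comm i] at this)] at h3
  have h4 := (br_lead H.hU₁o H.hQo).2
  rw [show i + l + j = j + l + i by omega, H.hu] at h4
  rw [h4, sub_eq_zero.mp h3, add_comm] at h1
  exact h1

theorem u0 : u ≠ 0 := by
  intro h
  have h1 := H.eq1
  have hi := H.hi
  have hij := H.hij
  rw [h, Ring.lie_def, zero_mul, mul_zero, sub_zero, zero_add] at h1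
  have := ad_inj H.hi (by omega) (by omega) (comp_isHom i _) H.xL H.x0 H.vH H.vL h1
  rcases H.huv with h2 | h2
  · exact h2 h
  · exact h2 this

theorem xu : XU i (i + l) (comp i (P : NC X K)) u where
  hi := H.hi
  hip := by have := H.hl; omega
  hx := comp_isHom _ _
  hxL := H.xL
  hx0 := H.x0
  hu := H.uH
  huL := H.uL
  hu0 := H.u0

/-- `y` and `v` in terms of `x` and `u`. -/
theorem exY : ∃ F G : NC (Fin 2) K, (∀ W, wt ![i, i + l] W ≠ j → F W = 0) ∧
    (∀ W, wt ![i, i + l] W ≠ j + l → G W = 0) ∧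
      comp j Q = subst ![comp i (P : NC X K), u] F ∧ v = subst ![comp i (P : NC X K), u] G ∧
      IsLie F ∧ IsLie G ∧
      ⁅(letter 0 : NC (Fin 2) K), G⁆ + ⁅(letter 1 : NC (Fin 2) K), F⁆ = 0 :=
  corE H.xu (n := j) (b := j + l) H.hij.le (by omega) (comp_isHom _ _) H.yL H.vH H.vL H.eq1

/-- The exactness statement derived from (A). -/
theorem exA : Ex P i (i + j + 2 * l) ⁅U₁, Q⁆ :=
  ⟨V₁, H.hV₁, Ord.mono (by have := H.hij; omega) H.hV₁o, by
    have := H.hA
    have e : ⁅U₁, Q⁆ + (V₁ - cj P V₁) = V₁ - cj P V₁ + ⁅U₁, Q⁆ := by abel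
    rwa [e]⟩

/-- The exactness statement derived from (B). -/
theorem exB : Ex P i (i + j + 2 * l + 1) (⁅U, Q⁆ + ⁅u, v⁆) :=
  ⟨V, H.hV, Ord.mono (by have := H.hij; omega) H.hVo, by
    have := H.hB
    have e : ⁅U, Q⁆ + ⁅u, v⁆ + (V - cj P V) = V - cj P V + ⁅U, Q⁆ + ⁅u, v⁆ := by abel
    rwa [e]⟩

theorem lead {n N : ℕ} (hin : i < n) (hnN : n < N) {f : NC X K} (hf : Ex P i N f)
    (hfn : Ord n f) :
    ∃ V : NC X K, IsLie V ∧ IsHom (n - i) V ∧ comp n f + ⁅comp i (P : NC X K), V⁆ = 0 :=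
  Ex_lead P i n N H.hi hin hnN H.hP0 H.hP H.x0 H.hPg hf hfn

omit H in
/-- The span of the even iterates. -/
def SS (P : (NC X K)ˣ) (U₁ : NC X K) : Submodule K (NC X K) :=
  Submodule.span K (Set.range fun e : ℕ => (cS P)^[2 * e] U₁)

theorem iter_lead (e : ℕ) : Ord (i + l + e * i) ((cS P)^[e] U₁) ∧
    comp (i + l + e * i) ((cS P)^[e] U₁) = subst ![comp i (P : NC X K), u] (adp e) ∧
    IsLie ((cS P)^[e] U₁) := by
  induction e with
  | zero =>
    refine ⟨by simpa using H.hU₁o, ?_, H.hU₁⟩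
    have := H.xu.s1
    simp only [Function.iterate_zero, id_eq, zero_mul, add_zero]
    rw [H.hu]; exact this.symm
  | succ e ih =>
    rw [Function.iterate_succ_apply']
    have h1 := cS_lead P i H.hi H.hP0 H.hP ih.1
    rw [show i + l + e * i + i = i + l + (e + 1) * i by ring] at h1
    refine ⟨h1.1, ?_, (cj_isLie P H.hPg ih.2.2).2.2⟩
    rw [h1.2, ih.2.1]
    change _ = subst _ ⁅(letter 0 : NC (Fin 2) K), adp e⁆
    rw [Pool.Agent.Helper59.Dynkin.subst_lie _ H.xu.h0, H.xu.s0]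

theorem SS_lie {f : NC X K} (hf : f ∈ SS P U₁) : IsLie f ∧ Ord (i + l) f := by
  induction hf using Submodule.span_induction with
  | mem f hf =>
    obtain ⟨e, rfl⟩ := hf
    exact ⟨(H.iter_lead (2 * e)).2.2, Ord.mono (by omega) (H.iter_lead (2 * e)).1⟩
  | zero => exact ⟨IsLie.zero, Ord.zero _⟩
  | add f g _ _ hf hg => exact ⟨hf.1.add hg.1, Ord.add hf.2 hg.2⟩
  | smul c f _ hf => exact ⟨hf.1.smul c, Ord.smul c hf.2⟩

theorem SS_ex {f g : NC X K} (N : ℕ) (hf : f ∈ SS P U₁) (hg : g ∈ SS P U₁) : Ex P i N ⁅f, g⁆ := by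
  induction hf using Submodule.span_induction with
  | mem f hf =>
    obtain ⟨e, rfl⟩ := hf
    induction hg using Submodule.span_induction with
    | mem g hg =>
      obtain ⟨e', rfl⟩ := hg
      exact Ex_lie P i (i + l) N H.hi (by omega) H.hP0 H.hP H.hPg U₁ H.hU₁ H.hU₁o _ _
        ⟨e + e', by ring⟩
    | zero =>
      refine ⟨0, IsLie.zero, Ord.zero _, ?_⟩
      simp only [Ring.lie_def, mul_zero, zero_mul, cj, sub_zero, add_zero]
      exact Ord.zero _
    | add f g _ _ hf hg =>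
      have := Ex_add P hf hg
      simp only [Ring.lie_def] at this ⊢
      convert this using 1
      noncomm_ring
    | smul c f _ hf =>
      have := Ex_smul P c hf
      simp only [Ring.lie_def] at this ⊢
      convert this using 1
      rw [mul_smul_comm, smul_mul_assoc, smul_sub]
  | zero =>
    refine ⟨0, IsLie.zero, Ord.zero _, ?_⟩
    simp only [Ring.lie_def, mul_zero, zero_mul, cj, sub_zero, add_zero]
    exact Ord.zero _
  | add f g _ _ hf hg =>
    have := Ex_add P hf hg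
    simp only [Ring.lie_def] at this ⊢
    convert this using 1
    noncomm_ring
  | smul c f _ hf =>
    have := Ex_smul P c hf
    simp only [Ring.lie_def] at this ⊢
    convert this using 1
    rw [mul_smul_comm, smul_mul_assoc, smul_sub]

theorem iter_mem (e : ℕ) : (cS P)^[2 * e] U₁ ∈ SS P U₁ := Submodule.subset_span ⟨e, rfl⟩

theorem U₁_mem : U₁ ∈ SS P U₁ := H.iter_mem 0

end ED

end Pool.Agent.Helper7.Comm
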