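import Pool.Agent.Helper7.Comm.LinK
import Pool.Agent.Helper7.Comm.Level
import Pool.Agent.Helper43.Comm.ShortWord

set_option autoImplicit false

/-! # Base points: bounded group elements approximating a sequence -/

namespace Pool.Agent.Helper7.Comm

open NC Pool.Agent.Helper57.Reduce Pool.Agent.Helper57.ConjTools

theorem wt_one {X : Type*} (w : List X) : wt (fun _ => 1) w = w.length := by
  simp [wt]

theorem ordGE_iff {X R : Type*} [Zero R] {n : ℕ} {f : NC X R} :
    OrdGE (fun _ => 1) n f ↔ Ord n f := by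
  unfold OrdGE Pool.Agent.Helper57.Reduce.Ord
  simp only [wt_one]

variable {r : ℕ} {E : FreeGroup (Fin r) →* (NC (Fin r) ℚ)ˣ}

theorem EX_apply (x : ℕ → FreeGroup (Fin r)) (w : List (Fin r)) :
    EX E x w = ger (fun n => ((E (x n) : (NC (Fin r) ℚ)ˣ) : NC (Fin r) ℚ) w) := rfl

theorem EX_mul (x y : ℕ → FreeGroup (Fin r)) : EX E (fun n => x n * y n) = EX E x * EX E y := by
  unfold EX
  rw [← gm_mul]
  congr 1
  funext n
  rw [map_mul, Units.val_mul]

theorem EX_one : EX E (fun _ => 1) = 1 := by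
  unfold EX
  simp only [map_one, Units.val_one]
  exact gm_one

theorem EX_mul_inv (x : ℕ → FreeGroup (Fin r)) : EX E x * EX E (fun n => (x n)⁻¹) = 1 := by
  rw [← EX_mul]; simp only [mul_inv_cancel]; exact EX_one

theorem EX_inv_mul (x : ℕ → FreeGroup (Fin r)) : EX E (fun n => (x n)⁻¹) * EX E x = 1 := by
  rw [← EX_mul]; simp only [inv_mul_cancel]; exact EX_one

theorem EX_nil (hE : IsExpMag E) (x : ℕ → FreeGroup (Fin r)) : EX E x [] = 1 := by
  rw [EX_apply]; simp only [hE.hnil]; exact ger_one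

theorem EX_gl (hE : IsExpMag E) (x : ℕ → FreeGroup (Fin r)) :
    Δ (EX E x) = T1 (EX E x) * T2 (EX E x) := gm_gl _ fun n => hE.hgl (x n)

theorem EX_ord (x : ℕ → FreeGroup (Fin r)) (N : ℕ) : Ord N (EX E x - 1) ↔
    ∀ᶠ n in (Filter.hyperfilter ℕ : Filter ℕ),
      Ord N (((E (x n) : (NC (Fin r) ℚ)ˣ) : NC (Fin r) ℚ) - 1) := by
  rw [← gm_ord, gm_sub, gm_one]; rfl

theorem KK_range {B : ℕ → ℕ} {a : UF} : a ∈ Set.range (algebraMap (KK B) UF) ↔ a ∈ KK B :=
  ⟨fun ⟨b, hb⟩ => hb ▸ b.2, fun h => ⟨⟨a, h⟩, rfl⟩⟩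

theorem nat_ger (m : ℕ) : ((m : ℕ) : UF) = ger (fun _ => ((m : ℕ) : ℚ)) := by
  induction m with
  | zero => simp [ger_zero]
  | succ n ih => push_cast; rw [ih, ger_add, ger_one]

theorem bse_mem (B : ℕ → ℕ) : bse B ∈ OO B := ⟨1, by
  rw [pow_one, abs_of_nonneg (le_trans (by norm_num) (two_le_bse B))]⟩

/-- Words whose length is polynomially bounded have bounded coefficients. -/
theorem EX_word_OO (hE : IsExpMag E) {B : ℕ → ℕ} (W : ℕ → List (Fin r × Bool))
    (hW : ger (fun n => ((W n).length : ℚ)) ∈ OO B) (w : List (Fin r)) :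
    EX E (fun n => FreeGroup.mk (W n)) w ∈ OO B := by
  obtain ⟨C, hC⟩ := hE.hgrow w.length
  have h1 : (C : UF) * (ger (fun n => ((W n).length : ℚ)) + 1) ^ C ∈ OO B :=
    mul_mem (nat_mem_OO C) (pow_mem (add_mem hW (one_mem _)) C)
  refine OO_of_le h1 ?_
  rw [EX_apply, ← ger_abs]
  have h2 : (C : UF) * (ger (fun n => ((W n).length : ℚ)) + 1) ^ C =
      ger (fun n => (C : ℚ) * (((W n).length : ℚ) + 1) ^ C) := by
    rw [nat_ger, ← ger_one, ← ger_add, ← ger_pow, ← ger_mul]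
  rw [h2, ← ger_abs, ger_le]
  refine Filter.Eventually.of_forall fun n => ?_
  have h3 := hC (W n) w le_rfl
  refine h3.trans (le_abs_self _)

/-- A base point: a bounded sequence agreeing with `x` modulo order `N`. -/
theorem base_point (hE : IsExpMag E) {B : ℕ → ℕ} (x : ℕ → FreeGroup (Fin r)) (N : ℕ)
    (hx : ∀ w : List (Fin r), w.length < N → EX E x w ∈ OO B) :
    ∃ W : ℕ → List (Fin r × Bool), ger (fun n => ((W n).length : ℚ)) ∈ OO B ∧
      (∀ w, EX E (fun n => FreeGroup.mk (W n)) w ∈ KK B) ∧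
      (∀ w, EX E (fun n => (FreeGroup.mk (W n))⁻¹) w ∈ KK B) ∧
      Ord N (EX E (fun n => (FreeGroup.mk (W n))⁻¹ * x n) - 1) := by
  classical
  rcases Nat.eq_zero_or_pos N with rfl | hN
  · refine ⟨fun _ => [], ?_, fun w => ?_, fun w => ?_, fun w hw => absurd hw (Nat.not_lt_zero _)⟩
    · have : ger (fun _ => (([] : List (Fin r × Bool)).length : ℚ)) = 0 := by simp [ger_zero]
      rw [this]; exact zero_mem _
    · refine EX_KK hE _ w (EX_word_OO hE _ ?_ w)
      have : ger (fun _ => (([] : List (Fin r × Bool)).length : ℚ)) = 0 := by simp [ger_zero]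
      rw [this]; exact zero_mem _
    · have e : (fun _ : ℕ => (FreeGroup.mk ([] : List (Fin r × Bool)))⁻¹) =
          fun _ => FreeGroup.mk [] := by
        funext n; rw [← FreeGroup.one_eq_mk, inv_one]
      rw [e]
      refine EX_KK hE _ w (EX_word_OO hE _ ?_ w)
      have : ger (fun _ => (([] : List (Fin r × Bool)).length : ℚ)) = 0 := by simp [ger_zero]
      rw [this]; exact zero_mem _
  obtain ⟨c, rfl⟩ : ∃ c, N = c + 1 := ⟨N - 1, by omega⟩
  obtain ⟨C, hC⟩ := Pool.Agent.Helper43.Comm.short_word r c E hE.hnil hE.hint hE.hgrow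
  -- uniform exponent
  obtain ⟨k, hk⟩ : ∃ k : ℕ, ∀ w ∈ {w : List (Fin r) | w.length < c + 1}, |EX E x w| ≤ bse B ^ k := by
    have hfin : {w : List (Fin r) | w.length < c + 1}.Finite := List.finite_length_lt _ _
    have h1 : ∀ w : List (Fin r), ∃ k : ℕ, w.length < c + 1 → |EX E x w| ≤ bse B ^ k := by
      intro w
      by_cases hw : w.length < c + 1
      · obtain ⟨k, hk⟩ := hx w hw
        exact ⟨k, fun _ => hk⟩
      · exact ⟨0, fun h => absurd h hw⟩
    choose k hk using h1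
    refine ⟨hfin.toFinset.sup k, fun w hw => (hk w hw).trans (bse_pow_mono B ?_)⟩
    exact Finset.le_sup (f := k) (hfin.mem_toFinset.mpr hw)
  have hev : ∀ᶠ n in (Filter.hyperfilter ℕ : Filter ℕ),
      ∀ w ∈ {w : List (Fin r) | w.length < c + 1},
        |((E (x n) : (NC (Fin r) ℚ)ˣ) : NC (Fin r) ℚ) w| ≤ ((B n : ℚ) + 2) ^ k := by
    rw [Filter.eventually_all_finite (List.finite_length_lt _ _)]
    intro w hw
    have := hk w hw
    rw [EX_apply, ← ger_abs, bse, ← ger_pow, ger_le] at this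
    exact this
  have hch : ∀ n : ℕ, ∃ W : List (Fin r × Bool), W.length ≤ C * ((B n + 2) ^ k + 1) ^ C ∧
      ((∀ w ∈ {w : List (Fin r) | w.length < c + 1},
        |((E (x n) : (NC (Fin r) ℚ)ˣ) : NC (Fin r) ℚ) w| ≤ ((B n : ℚ) + 2) ^ k) →
        OrdGE (fun _ => 1) (c + 1)
          (((E ((FreeGroup.mk W)⁻¹ * x n) : (NC (Fin r) ℚ)ˣ) : NC (Fin r) ℚ) - 1)) := by
    intro n
    by_cases h : ∀ w ∈ {w : List (Fin r) | w.length < c + 1},
        |((E (x n) : (NC (Fin r) ℚ)ˣ) : NC (Fin r) ℚ) w| ≤ ((B n : ℚ) + 2) ^ k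
    · obtain ⟨W, hW1, hW2⟩ := hC (x n) ((B n + 2) ^ k) (fun w hw => by
        have := h w (Nat.lt_succ_of_le hw)
        push_cast
        exact this)
      exact ⟨W, hW1, fun _ => hW2⟩
    · exact ⟨[], by simp, fun h' => absurd h' h⟩
  choose W hW1 hW2 using hch
  have hWO : ger (fun n => ((W n).length : ℚ)) ∈ OO B := by
    have h1 : (C : UF) * ((bse B ^ k) + 1) ^ C ∈ OO B :=
      mul_mem (nat_mem_OO C) (pow_mem (add_mem (pow_mem (bse_mem B) k) (one_mem _)) C)
    refine OO_of_le h1 ?_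
    have h2 : (C : UF) * ((bse B ^ k) + 1) ^ C =
        ger (fun n => (C : ℚ) * (((B n : ℚ) + 2) ^ k + 1) ^ C) := by
      rw [nat_ger, bse, ← ger_pow, ← ger_one, ← ger_add, ← ger_pow, ← ger_mul]
    rw [h2, ← ger_abs, ← ger_abs, ger_le]
    refine Filter.Eventually.of_forall fun n => ?_
    have h3 : ((W n).length : ℚ) ≤ (C : ℚ) * (((B n : ℚ) + 2) ^ k + 1) ^ C := by
      exact_mod_cast hW1 n
    rw [abs_of_nonneg (Nat.cast_nonneg _)]
    exact h3.trans (le_abs_self _)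
  refine ⟨W, hWO, fun w => EX_KK hE _ w (EX_word_OO hE W hWO w), fun w => ?_, ?_⟩
  · have e : (fun n => (FreeGroup.mk (W n))⁻¹) = fun n => FreeGroup.mk (FreeGroup.invRev (W n)) := by
      funext n; rw [FreeGroup.inv_mk]
    rw [e]
    refine EX_KK hE _ w (EX_word_OO hE _ ?_ w)
    simp only [FreeGroup.invRev_length]
    exact hWO
  · rw [EX_ord]
    filter_upwards [hev] with n hn
    exact ordGE_iff.mp (hW2 n hn)

/-- The base point as a unit over the small field. -/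
theorem base_unit (hE : IsExpMag E) {B : ℕ → ℕ} (x : ℕ → FreeGroup (Fin r)) (N : ℕ) (hN : 0 < N)
    (hx : ∀ w : List (Fin r), w.length < N → EX E x w ∈ OO B) :
    ∃ P : (NC (Fin r) (KK B))ˣ, ((P : (NC (Fin r) (KK B))ˣ) : NC (Fin r) (KK B)) [] = 1 ∧
      Δ (P : NC (Fin r) (KK B)) = T1 (P : NC (Fin r) (KK B)) * T2 (P : NC (Fin r) (KK B)) ∧
      Ord N (EX E x - (al (P : NC (Fin r) (KK B)) : NC (Fin r) UF)) := by
  obtain ⟨W, hWO, hW1, hW2, hW3⟩ := base_point hE x N hx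
  choose P hP using fun w => KK_range.mpr (hW1 w)
  choose P' hP' using fun w => KK_range.mpr (hW2 w)
  have e1 : (al (⟨P⟩ : NC (Fin r) (KK B)) : NC (Fin r) UF) = EX E (fun n => FreeGroup.mk (W n)) := by
    ext w; exact hP w
  have e2 : (al (⟨P'⟩ : NC (Fin r) (KK B)) : NC (Fin r) UF) =
      EX E (fun n => (FreeGroup.mk (W n))⁻¹) := by
    ext w; exact hP' w
  refine ⟨⟨⟨P⟩, ⟨P'⟩, ?_, ?_⟩, ?_, ?_, ?_⟩
  · apply al_inj (F := UF)
    rw [al_mul, e1, e2, al_one]
    exact EX_mul_inv _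
  · apply al_inj (F := UF)
    rw [al_mul, e1, e2, al_one]
    exact EX_inv_mul _
  · apply (algebraMap (KK B) UF).injective
    have := EX_nil hE (fun n => FreeGroup.mk (W n))
    rw [← e1, al_apply] at this
    rw [this, map_one]
  · rw [← al_gl (F := UF), e1]
    exact EX_gl hE _
  · have e3 : EX E x = EX E (fun n => FreeGroup.mk (W n)) *
        EX E (fun n => (FreeGroup.mk (W n))⁻¹ * x n) := by
      rw [← EX_mul]
      congr 1
      funext n
      group
    have e4 : EX E x - (al (⟨P⟩ : NC (Fin r) (KK B)) : NC (Fin r) UF) =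
        EX E (fun n => FreeGroup.mk (W n)) * (EX E (fun n => (FreeGroup.mk (W n))⁻¹ * x n) - 1) := by
      rw [e1, e3]; noncomm_ring
    change Ord N (EX E x - (al (⟨P⟩ : NC (Fin r) (KK B)) : NC (Fin r) UF))
    rw [e4]
    have h0 : Ord 0 (EX E (fun n => FreeGroup.mk (W n))) := fun w hw => absurd hw (Nat.not_lt_zero _)
    simpa using h0.mul hW3

end Pool.Agent.Helper7.Comm
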