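import Pool.Agent.Helper7.Comm.Hopf
import Pool.Agent.Helper7.Comm.MagnusDefs

set_option autoImplicit false

/-! # Substitution of series without constant term into noncommutative series -/

namespace Pool.Agent.Helper7.Comm

namespace NC

variable {X : Type*} {ι : Type*} {R : Type*}

theorem mul_congr_of_nil [Ring R] {h A B : NC X R} (h0 : h [] = 0) {w : List X}
    (H : ∀ w' : List X, w'.length < w.length → A w' = B w') : (h * A) w = (h * B) w := by
  rw [mul_apply, mul_apply]
  refine Finset.sum_congr rfl fun i hi => ?_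
  rcases Nat.eq_zero_or_pos i with rfl | hi0
  · simp [h0]
  · cases w with
    | nil =>
      simp at hi
      omega
    | cons a w =>
      rw [H _ (by simp; omega)]

variable [CommRing R] [Fintype ι]

/-- Approximations of the substitution. -/
def substAux (h : ι → NC X R) : ℕ → NC ι R → NC X R
  | 0, f => C (f [])
  | n + 1, f => C (f []) + ∑ k, h k * substAux h n (D k f)

theorem substAux_succ (h : ι → NC X R) (n : ℕ) (f : NC ι R) :
    substAux h (n + 1) f = C (f []) + ∑ k, h k * substAux h n (D k f) := rfl

theorem substAux_succ_eq (h : ι → NC X R) (h0 : ∀ k, h k [] = 0) (n : ℕ) :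
    ∀ (f : NC ι R) (w : List X), w.length ≤ n → substAux h n f w = substAux h (n + 1) f w := by
  induction n with
  | zero =>
    intro f w hw
    obtain rfl : w = [] := by
      cases w
      · rfl
      · simp at hw
    simp [substAux, h0]
  | succ n ih =>
    intro f w hw
    rw [substAux_succ, substAux_succ, add_apply, add_apply, sum_apply, sum_apply]
    congr 1
    refine Finset.sum_congr rfl fun k _ => mul_congr_of_nil (h0 k) fun w' hw' => ?_
    exact ih _ _ (by omega)

theorem substAux_eq (h : ι → NC X R) (h0 : ∀ k, h k [] = 0) (n : ℕ) (f : NC ι R) (w : List X)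
    (hw : w.length ≤ n) : substAux h n f w = substAux h w.length f w := by
  induction n with
  | zero =>
    rw [Nat.le_zero.mp hw]
  | succ n ih =>
    rcases Nat.lt_or_ge n w.length with h1 | h1
    · rw [show n + 1 = w.length by omega]
    · rw [← substAux_succ_eq h h0 n f w h1, ih h1]

/-- Substitution of the series `h k` for the letters `k`. -/
def subst (h : ι → NC X R) (f : NC ι R) : NC X R := ⟨fun w => substAux h w.length f w⟩

theorem subst_nil (h : ι → NC X R) (f : NC ι R) : subst h f [] = f [] := rfl

theorem subst_eq (h : ι → NC X R) (h0 : ∀ k, h k [] = 0) (f : NC ι R) :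
    subst h f = C (f []) + ∑ k, h k * subst h (D k f) := by
  ext w
  change substAux h w.length f w = _
  cases hw : w.length with
  | zero =>
    obtain rfl : w = [] := List.length_eq_zero_iff.mp hw
    simp [substAux, h0]
  | succ n =>
    rw [substAux_succ, add_apply, add_apply, sum_apply, sum_apply]
    congr 1
    refine Finset.sum_congr rfl fun k _ => mul_congr_of_nil (h0 k) fun w' hw' => ?_
    change _ = substAux h w'.length (D k f) w'
    exact substAux_eq h h0 n _ _ (by omega)

/-- Uniqueness of solutions of the recursion. -/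
theorem subst_unique_aux (h : ι → NC X R) (h0 : ∀ k, h k [] = 0) {α : Type*}
    (c : α → R) (nx : ι → α → α) (T S : α → NC X R)
    (hT : ∀ f, T f = C (c f) + ∑ k, h k * T (nx k f))
    (hS : ∀ f, S f = C (c f) + ∑ k, h k * S (nx k f)) (f : α) : T f = S f := by
  have key : ∀ (n : ℕ) (f : α) (w : List X), w.length ≤ n → T f w = S f w := by
    intro n
    induction n with
    | zero =>
      intro f w hw
      obtain rfl : w = [] := by
        cases w
        · rfl
        · simp at hw
      rw [hT, hS]
      simp [h0]
    | succ n ih =>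
      intro f w hw
      rw [hT, hS, add_apply, add_apply, sum_apply, sum_apply]
      congr 1
      refine Finset.sum_congr rfl fun k _ => mul_congr_of_nil (h0 k) fun w' hw' => ?_
      exact ih _ _ (by omega)
  ext w
  exact key _ f w le_rfl

theorem subst_add (h : ι → NC X R) (h0 : ∀ k, h k [] = 0) (f g : NC ι R) :
    subst h (f + g) = subst h f + subst h g := by
  refine subst_unique_aux h h0 (α := NC ι R × NC ι R) (fun p => p.1 [] + p.2 [])
    (fun k p => (D k p.1, D k p.2)) (fun p => subst h (p.1 + p.2))
    (fun p => subst h p.1 + subst h p.2) ?_ ?_ (f, g)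
  · rintro ⟨f, g⟩
    rw [subst_eq h h0]
    rfl
  · rintro ⟨f, g⟩
    dsimp only
    rw [subst_eq h h0 f, subst_eq h h0 g, ← CHom_apply, ← CHom_apply, ← CHom_apply, map_add]
    simp only [mul_add, Finset.sum_add_distrib]
    abel

theorem subst_smul (h : ι → NC X R) (h0 : ∀ k, h k [] = 0) (c : R) (f : NC ι R) :
    subst h (c • f) = c • subst h f := by
  refine subst_unique_aux h h0 (α := NC ι R) (fun p => c * p [])
    (fun k p => D k p) (fun p => subst h (c • p))
    (fun p => c • subst h p) ?_ ?_ f
  · intro f
    rw [subst_eq h h0]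
    rfl
  · intro f
    rw [subst_eq h h0 f, smul_add, Finset.smul_sum]
    simp only [mul_smul_comm]
    congr 1
    ext w
    cases w <;> simp

theorem subst_C (h : ι → NC X R) (h0 : ∀ k, h k [] = 0) (r : R) :
    subst h (C r) = C r := by
  have hz : subst h (0 : NC ι R) = 0 := by
    have := subst_smul h h0 0 0
    simpa using this
  rw [subst_eq h h0]
  simp [hz]

theorem subst_zero (h : ι → NC X R) (h0 : ∀ k, h k [] = 0) :
    subst h (0 : NC ι R) = 0 := by
  have := subst_smul h h0 0 0
  simpa using this

theorem subst_one (h : ι → NC X R) (h0 : ∀ k, h k [] = 0) :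
    subst h (1 : NC ι R) = 1 := by
  have h1 := subst_C h h0 (1 : R)
  rw [← CHom_apply, ← CHom_apply, map_one, map_one] at h1
  exact h1

theorem subst_letter [DecidableEq ι] (h : ι → NC X R) (h0 : ∀ k, h k [] = 0) (k : ι) :
    subst h (letter k : NC ι R) = h k := by
  rw [subst_eq h h0]
  have : ∀ j, h j * subst h (D j (letter k : NC ι R)) = if j = k then h k else 0 := by
    intro j
    rw [D_letter]
    split_ifs with hj
    · rw [subst_one h h0, mul_one, hj]
    · rw [subst_zero h h0, mul_zero]
  simp only [this, Finset.sum_ite_eq', Finset.mem_univ, if_true, letter_nil]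
  ext w
  cases w <;> simp

theorem subst_mul_aux (h : ι → NC X R) (h0 : ∀ k, h k [] = 0) (n : ℕ) :
    ∀ (f g : NC ι R) (w : List X), w.length ≤ n →
      subst h (f * g) w = (subst h f * subst h g) w := by
  induction n with
  | zero =>
    intro f g w hw
    obtain rfl : w = [] := by
      cases w
      · rfl
      · simp at hw
    simp [subst_nil]
  | succ n ih =>
    intro f g w hw
    have e1 : subst h f * subst h g = f [] • subst h g +
        ∑ k, h k * (subst h (D k f) * subst h g) := by
      conv_lhs => rw [subst_eq h h0 f]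
      rw [add_mul, Finset.sum_mul]
      congr 1
      · ext w; rw [C_mul_apply]; rfl
      · exact Finset.sum_congr rfl fun k _ => by rw [mul_assoc]
    have e2 : subst h (f * g) = f [] • subst h g + ∑ k, h k * subst h (D k f * g) := by
      rw [subst_eq h h0 (f * g)]
      conv_rhs => rw [subst_eq h h0 g]
      have : ∀ k, subst h (D k (f * g)) = f [] • subst h (D k g) + subst h (D k f * g) := by
        intro k; rw [D_mul, subst_add h h0, subst_smul h h0]
      simp only [this, mul_add, Finset.sum_add_distrib, smul_add, Finset.smul_sum,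
        mul_smul_comm]
      rw [← add_assoc]
      congr 2
      ext w
      cases w <;> simp
    rw [e1, e2]
    simp only [add_apply, sum_apply]
    congr 1
    refine Finset.sum_congr rfl fun k _ => mul_congr_of_nil (h0 k) fun w' hw' => ?_
    exact ih _ _ _ (by omega)

theorem subst_mul (h : ι → NC X R) (h0 : ∀ k, h k [] = 0) (f g : NC ι R) :
    subst h (f * g) = subst h f * subst h g := by
  ext w
  exact subst_mul_aux h h0 _ f g w le_rfl

/-- Substitution as a ring homomorphism. -/
def substHom (h : ι → NC X R) (h0 : ∀ k, h k [] = 0) : NC ι R →+* NC X R where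
  toFun := subst h
  map_one' := subst_one h h0
  map_mul' := subst_mul h h0
  map_zero' := subst_zero h h0
  map_add' := subst_add h h0

/-- Substitution of right-independent series is injective. -/
theorem subst_injective (h : ι → NC X R) (h0 : ∀ k, h k [] = 0)
    (hind : ∀ A : ι → NC X R, ∑ k, h k * A k = 0 → ∀ k, A k = 0)
    (f : NC ι R) (hf : subst h f = 0) : f = 0 := by
  have key : ∀ (W : List ι) (f : NC ι R), subst h f = 0 → f W = 0 := by
    intro W
    induction W with
    | nil =>
      intro f hf
      rw [← subst_nil h f, hf]; rfl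
    | cons k W ih =>
      intro f hf
      have h1 : f [] = 0 := by rw [← subst_nil h f, hf]; rfl
      rw [subst_eq h h0, h1] at hf
      have h2 : (C 0 : NC X R) = 0 := CHom.map_zero
      rw [h2, zero_add] at hf
      exact ih _ (hind _ hf k)
  ext W
  exact key W f hf

end NC

section ord

open NC

variable {X : Type*} {ι : Type*} {R : Type*}

theorem wt_append (ω : X → ℕ) (u v : List X) : wt ω (u ++ v) = wt ω u + wt ω v := by
  simp [wt]

theorem wt_cons (ω : X → ℕ) (a : X) (v : List X) : wt ω (a :: v) = ω a + wt ω v := by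
  simp [wt]

theorem wt_nil (ω : X → ℕ) : wt ω [] = 0 := rfl

theorem OrdGE.add [AddCommGroup R] {ω : X → ℕ} {n : ℕ} {f g : NC X R} (hf : OrdGE ω n f)
    (hg : OrdGE ω n g) : OrdGE ω n (f + g) := fun w hw => by simp [hf w hw, hg w hw]

theorem OrdGE.neg [AddCommGroup R] {ω : X → ℕ} {n : ℕ} {f : NC X R} (hf : OrdGE ω n f) :
    OrdGE ω n (-f) := fun w hw => by simp [hf w hw]

theorem OrdGE.sub [AddCommGroup R] {ω : X → ℕ} {n : ℕ} {f g : NC X R} (hf : OrdGE ω n f)
    (hg : OrdGE ω n g) : OrdGE ω n (f - g) := fun w hw => by simp [hf w hw, hg w hw]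

theorem OrdGE.zero [AddCommGroup R] {ω : X → ℕ} {n : ℕ} : OrdGE ω n (0 : NC X R) :=
  fun _ _ => rfl

theorem OrdGE.sum [AddCommGroup R] {κ : Type*} {ω : X → ℕ} {n : ℕ} (s : Finset κ)
    {f : κ → NC X R} (hf : ∀ k ∈ s, OrdGE ω n (f k)) : OrdGE ω n (∑ k ∈ s, f k) :=
  fun w hw => by
    rw [NC.sum_apply]
    exact Finset.sum_eq_zero fun k hk => hf k hk w hw

theorem OrdGE.mono [Zero R] {ω : X → ℕ} {m n : ℕ} (h : m ≤ n) {f : NC X R}
    (hf : OrdGE ω n f) : OrdGE ω m f := fun w hw => hf w (by omega)

theorem OrdGE.mul [Ring R] {ω : X → ℕ} {m n : ℕ} {f g : NC X R} (hf : OrdGE ω m f)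
    (hg : OrdGE ω n g) : OrdGE ω (m + n) (f * g) := by
  intro w hw
  rw [mul_apply]
  refine Finset.sum_eq_zero fun i _ => ?_
  have h1 : wt ω (w.take i) + wt ω (w.drop i) = wt ω w := by
    rw [← wt_append, List.take_append_drop]
  rcases Nat.lt_or_ge (wt ω (w.take i)) m with h2 | h2
  · rw [hf _ h2, zero_mul]
  · rw [hg (w.drop i) (by omega), mul_zero]

theorem OrdGE.D [Zero R] {ω : X → ℕ} {n : ℕ} {f : NC X R} (hf : OrdGE ω n f) (a : X) :
    OrdGE ω (n - ω a) (NC.D a f) := by
  intro w hw
  refine hf _ ?_
  rw [wt_cons]; omega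

variable [CommRing R] [Fintype ι]

theorem OrdGE.C_iff {ω : X → ℕ} {n : ℕ} {r : R} (h : n = 0 ∨ r = 0) :
    OrdGE ω n (C r : NC X R) := by
  intro w hw
  rcases h with rfl | rfl
  · exact absurd hw (Nat.not_lt_zero _)
  · cases w <;> simp

theorem OrdGE.subst {ω : X → ℕ} {ω' : ι → ℕ} {h : ι → NC X R} (h0 : ∀ k, h k [] = 0)
    (hh : ∀ k, OrdGE ω (ω' k) (h k)) : ∀ (n : ℕ) (f : NC ι R), OrdGE ω' n f →
      OrdGE ω n (NC.subst h f) := by
  have key : ∀ (N : ℕ) (n : ℕ) (f : NC ι R), OrdGE ω' n f → ∀ w : List X, w.length ≤ N →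
      wt ω w < n → NC.subst h f w = 0 := by
    intro N
    induction N with
    | zero =>
      intro n f hf w hw hn
      obtain rfl : w = [] := by
        cases w
        · rfl
        · simp at hw
      rw [subst_nil]
      exact hf [] (by rw [wt_nil] at hn ⊢; omega)
    | succ N ih =>
      intro n f hf w hw hn
      rw [subst_eq h h0, NC.add_apply, NC.sum_apply]
      have h1 : (C (f []) : NC X R) w = 0 := by
        cases w with
        | nil => exact hf [] (by rw [wt_nil] at hn ⊢; omega)
        | cons a w => rfl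
      rw [h1, zero_add]
      refine Finset.sum_eq_zero fun k _ => ?_
      rw [mul_apply]
      refine Finset.sum_eq_zero fun i hi => ?_
      have h2 : wt ω (w.take i) + wt ω (w.drop i) = wt ω w := by
        rw [← wt_append, List.take_append_drop]
      rcases Nat.eq_zero_or_pos i with rfl | hi0
      · simp [h0]
      rcases Nat.lt_or_ge (wt ω (w.take i)) (ω' k) with h3 | h3
      · rw [hh k _ h3, zero_mul]
      · rcases Nat.eq_zero_or_pos w.length with hw0 | hw0
        · have : w = [] := List.length_eq_zero_iff.mp hw0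
          subst this
          simp [h0]
        · rw [ih (n - ω' k) _ (hf.D k) _ (by simp; omega) (by omega), mul_zero]
  intro n f hf w hw
  exact key _ n f hf w le_rfl hw

theorem OrdGE.subst_sub {ω : X → ℕ} {ω' : ι → ℕ} {h g : ι → NC X R} (h0 : ∀ k, h k [] = 0)
    (g0 : ∀ k, g k [] = 0) (hh : ∀ k, OrdGE ω (ω' k) (h k)) (hg : ∀ k, OrdGE ω (ω' k) (g k))
    (hd : ∀ k, OrdGE ω (ω' k + 1) (h k - g k)) (n : ℕ) (f : NC ι R) (hf : OrdGE ω' n f) :
    OrdGE ω (n + 1) (NC.subst h f - NC.subst g f) := by
  have key : ∀ (N : ℕ) (n : ℕ) (f : NC ι R), OrdGE ω' n f → ∀ w : List X, w.length ≤ N →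
      wt ω w < n + 1 → (NC.subst h f - NC.subst g f) w = 0 := by
    intro N
    induction N with
    | zero =>
      intro n f hf w hw hn
      obtain rfl : w = [] := by
        cases w
        · rfl
        · simp at hw
      simp [subst_nil]
    | succ N ih =>
      intro n f hf w hw hn
      have e : NC.subst h f - NC.subst g f =
          ∑ k, ((h k - g k) * NC.subst h (NC.D k f) +
            g k * (NC.subst h (NC.D k f) - NC.subst g (NC.D k f))) := by
        rw [subst_eq h h0, subst_eq g g0, add_sub_add_left_eq_sub, ← Finset.sum_sub_distrib]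
        refine Finset.sum_congr rfl fun k _ => ?_
        noncomm_ring
      rw [e, NC.sum_apply]
      refine Finset.sum_eq_zero fun k _ => ?_
      rw [NC.add_apply]
      have h1 : ((h k - g k) * NC.subst h (NC.D k f)) w = 0 :=
        (hd k).mul (OrdGE.subst h0 hh _ _ (hf.D k)) w (by omega)
      rw [h1, zero_add, mul_apply]
      refine Finset.sum_eq_zero fun i hi => ?_
      have h2 : wt ω (w.take i) + wt ω (w.drop i) = wt ω w := by
        rw [← wt_append, List.take_append_drop]
      rcases Nat.eq_zero_or_pos i with rfl | hi0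
      · simp [g0]
      rcases Nat.lt_or_ge (wt ω (w.take i)) (ω' k) with h3 | h3
      · rw [hg k _ h3, zero_mul]
      · rcases Nat.eq_zero_or_pos w.length with hw0 | hw0
        · have : w = [] := List.length_eq_zero_iff.mp hw0
          subst this
          simp [g0]
        · rw [ih (n - ω' k) _ (hf.D k) _ (by simp; omega) (by omega), mul_zero]
  intro w hw
  exact key _ n f hf w le_rfl hw

end ord

end Pool.Agent.Helper7.Comm
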